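import Mathlib

/-!
# Two-fold morphisms of circulants: basic facts on invariant sets

`G = ZMod n`, `S ⊆ G` with `S = -S`.  A TF-pair is a pair of permutations `(a, b)` with
`y - x ∈ S ↔ b y - a x ∈ S`.  Invariant sets (0-sets and 1-sets), the counting functions.
-/

set_option autoImplicit false
set_option linter.unusedSectionVars false

open scoped Classical

namespace Pool.Agent.Lib.MP_d9b9c4_co.Circ

variable {n : ℕ} [NeZero n]

/-- The TF-pairs of `Cay(G, S)`. -/
def IsTF (S : Set (ZMod n)) (a b : Equiv.Perm (ZMod n)) : Prop :=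
  ∀ x y, y - x ∈ S ↔ b y - a x ∈ S

/-- `X` is a `0`-set (`i = false`) or a `1`-set (`i = true`). -/
def IsInv (S : Set (ZMod n)) (i : Bool) (X : Set (ZMod n)) : Prop :=
  ∀ a b, IsTF S a b → ∀ x y, y - x ∈ X ↔ (bif i then b else a) y - a x ∈ X

/-- `S = -S`. -/
def Sym (S : Set (ZMod n)) : Prop := ∀ x, x ∈ S → -x ∈ S

variable {S : Set (ZMod n)}

theorem Sym.neg_iff (hS : Sym S) (x : ZMod n) : -x ∈ S ↔ x ∈ S :=
  ⟨fun h => by simpa using hS _ h, fun h => hS _ h⟩

theorem IsTF.one : IsTF S 1 1 := fun _ _ => Iff.rfl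

theorem IsTF.mul {a b a' b' : Equiv.Perm (ZMod n)} (h : IsTF S a b) (h' : IsTF S a' b') :
    IsTF S (a * a') (b * b') := fun x y => by
  rw [h' x y, h (a' x) (b' y)]; rfl

theorem IsTF.inv {a b : Equiv.Perm (ZMod n)} (h : IsTF S a b) : IsTF S a⁻¹ b⁻¹ := fun x y => by
  rw [h (a⁻¹ x) (b⁻¹ y)]; simp

theorem IsTF.swap (hS : Sym S) {a b : Equiv.Perm (ZMod n)} (h : IsTF S a b) : IsTF S b a :=
  fun x y => by
    rw [← hS.neg_iff, neg_sub, h y x, ← hS.neg_iff, neg_sub]

theorem IsTF.trans (g : ZMod n) : IsTF S (Equiv.addRight g) (Equiv.addRight g) := fun x y => by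
  simp

/-- Recentering a TF-pair: `z ↦ a (z + x) - a x`. -/
def recen (a b : Equiv.Perm (ZMod n)) (x : ZMod n) : Equiv.Perm (ZMod n) :=
  Equiv.addRight (-(a x)) * b * Equiv.addRight x

@[simp] theorem recen_apply (a b : Equiv.Perm (ZMod n)) (x z : ZMod n) :
    recen a b x z = b (z + x) - a x := by
  simp [recen, sub_eq_add_neg]

theorem IsTF.recen {a b : Equiv.Perm (ZMod n)} (h : IsTF S a b) (x : ZMod n) :
    IsTF S (recen a a x) (recen a b x) := fun u v => by
  rw [recen_apply, recen_apply, sub_sub_sub_cancel_right, ← h]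
  simp

theorem isInv_self : IsInv S true S := fun _ _ h x y => h x y

theorem IsInv.iff0 {X : Set (ZMod n)} (hX : IsInv S false X) {a b : Equiv.Perm (ZMod n)}
    (h : IsTF S a b) (x y : ZMod n) : y - x ∈ X ↔ a y - a x ∈ X := hX a b h x y

theorem IsInv.iff0' (hS : Sym S) {X : Set (ZMod n)} (hX : IsInv S false X)
    {a b : Equiv.Perm (ZMod n)}
    (h : IsTF S a b) (x y : ZMod n) : y - x ∈ X ↔ b y - b x ∈ X := hX b a (h.swap hS) x y

theorem IsInv.iff1 {X : Set (ZMod n)} (hX : IsInv S true X) {a b : Equiv.Perm (ZMod n)}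
    (h : IsTF S a b) (x y : ZMod n) : y - x ∈ X ↔ b y - a x ∈ X := hX a b h x y

theorem IsInv.iff1' (hS : Sym S) {X : Set (ZMod n)} (hX : IsInv S true X)
    {a b : Equiv.Perm (ZMod n)}
    (h : IsTF S a b) (x y : ZMod n) : y - x ∈ X ↔ a y - b x ∈ X := hX b a (h.swap hS) x y

/-! ### Boolean operations -/

theorem IsInv.compl {i : Bool} {X : Set (ZMod n)} (hX : IsInv S i X) : IsInv S i Xᶜ :=
  fun a b h x y => not_congr (hX a b h x y)

theorem IsInv.inter {i : Bool} {X Y : Set (ZMod n)} (hX : IsInv S i X) (hY : IsInv S i Y) :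
    IsInv S i (X ∩ Y) :=
  fun a b h x y => and_congr (hX a b h x y) (hY a b h x y)

theorem IsInv.union {i : Bool} {X Y : Set (ZMod n)} (hX : IsInv S i X) (hY : IsInv S i Y) :
    IsInv S i (X ∪ Y) :=
  fun a b h x y => or_congr (hX a b h x y) (hY a b h x y)

theorem IsInv.sdiff {i : Bool} {X Y : Set (ZMod n)} (hX : IsInv S i X) (hY : IsInv S i Y) :
    IsInv S i (X \ Y) := hX.inter hY.compl

theorem IsInv.empty {i : Bool} : IsInv S i ∅ := fun _ _ _ _ _ => Iff.rfl

theorem IsInv.univ {i : Bool} : IsInv S i Set.univ := fun _ _ _ _ _ => Iff.rfl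

theorem isInv_zero : IsInv S false ({0} : Set (ZMod n)) := fun a b _ x y => by
  simp [sub_eq_zero]

theorem IsInv.neg {X : Set (ZMod n)} (hX : IsInv S false X) :
    IsInv S false {x | -x ∈ X} := fun a b h x y => by
  have := hX a b h y x
  simpa using this

/-- `X + K` for an `i`-set `X` and a `0`-set `K`. -/
def addSet (X K : Set (ZMod n)) : Set (ZMod n) := {z | ∃ w, w ∈ X ∧ z - w ∈ K}

theorem IsInv.addSet (hS : Sym S) {i : Bool} {X K : Set (ZMod n)} (hX : IsInv S i X)
    (hK : IsInv S false K) :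
    IsInv S i (addSet X K) := by
  intro a b h x y
  have key : ∀ c : Equiv.Perm (ZMod n), (∀ u v, v - u ∈ K ↔ c v - c u ∈ K) →
      (∀ u v, v - u ∈ X ↔ c v - a u ∈ X) → (y - x ∈ Circ.addSet X K ↔ c y - a x ∈ Circ.addSet X K) := by
    intro c hc1 hc2
    constructor
    · rintro ⟨w, hw, hk⟩
      refine ⟨c (w + x) - a x, ?_, ?_⟩
      · rw [← hc2]; simpa using hw
      · rw [sub_sub_sub_cancel_right, ← hc1]
        have : y - (w + x) = y - x - w := by ring
        rwa [this]
    · rintro ⟨w, hw, hk⟩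
      refine ⟨c.symm (w + a x) - x, ?_, ?_⟩
      · rw [hc2]; simpa using hw
      · have : y - x - (c.symm (w + a x) - x) = y - c.symm (w + a x) := by ring
        rw [this, hc1]
        have : c y - c (c.symm (w + a x)) = c y - a x - w := by simp; ring
        rwa [this]
  cases i
  · exact key a (fun u v => hK a b h u v) (fun u v => hX a b h u v)
  · exact key b (fun u v => hK.iff0' hS h u v) (fun u v => hX a b h u v)

/-- The subgroup generated by a `0`-set is a `0`-set. -/
theorem IsInv.closure {X : Set (ZMod n)} (hX : IsInv S false X) :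
    IsInv S false (AddSubgroup.closure X : Set (ZMod n)) := by
  have key : ∀ a b, IsTF S a b → ∀ g ∈ AddSubgroup.closure X, ∀ x,
      a (x + g) - a x ∈ AddSubgroup.closure X := by
    intro a b h g hg
    induction hg using AddSubgroup.closure_induction with
    | mem g hg =>
      intro x
      apply AddSubgroup.subset_closure
      rw [← hX.iff0 h]; simpa using hg
    | zero => intro x; simp
    | add g g' _ _ ih ih' =>
      intro x
      have := add_mem (ih x) (ih' (x + g))
      have e : a (x + g) - a x + (a (x + g + g') - a (x + g)) = a (x + (g + g')) - a x := by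
        rw [← add_assoc]; ring
      rwa [e] at this
    | neg g _ ih =>
      intro x
      have := neg_mem (ih (x + -g))
      have e : -(a (x + -g + g) - a (x + -g)) = a (x + -g) - a x := by
        rw [neg_add_cancel_right]; ring
      rwa [e] at this
  intro a b h x y
  constructor
  · intro hg
    have := key a b h _ hg x
    simpa using this
  · intro hg
    have := key _ _ h.inv _ hg (a x)
    simpa using this

/-! ### Orbits -/

/-- The orbit of `x` under the stabiliser of `0` (on the `a`-side). -/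
def orb0 (S : Set (ZMod n)) (x : ZMod n) : Set (ZMod n) :=
  {y | ∃ a b, IsTF S a b ∧ a 0 = 0 ∧ a x = y}

/-- The orbit of `x` under the stabiliser of `0` (on the `b`-side). -/
def orb1 (S : Set (ZMod n)) (x : ZMod n) : Set (ZMod n) :=
  {y | ∃ a b, IsTF S a b ∧ a 0 = 0 ∧ b x = y}

theorem self_mem_orb0 (x : ZMod n) : x ∈ orb0 S x := ⟨1, 1, IsTF.one, rfl, rfl⟩

theorem self_mem_orb1 (x : ZMod n) : x ∈ orb1 S x := ⟨1, 1, IsTF.one, rfl, rfl⟩

theorem isInv_orb0 (x : ZMod n) : IsInv S false (orb0 S x) := by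
  have key : ∀ a b, IsTF S a b → ∀ u v, v - u ∈ orb0 S x → a v - a u ∈ orb0 S x := by
    rintro a b h u v ⟨c, d, hcd, hc0, hcx⟩
    refine ⟨recen a a u * c, recen a b u * d, (h.recen u).mul hcd, ?_, ?_⟩
    · simp [hc0]
    · simp [hcx]
  intro a b h u v
  refine ⟨key a b h u v, fun hh => ?_⟩
  have := key _ _ h.inv _ _ hh
  simpa using this

theorem isInv_orb1 (x : ZMod n) : IsInv S true (orb1 S x) := by
  have key : ∀ a b, IsTF S a b → ∀ u v, v - u ∈ orb1 S x → b v - a u ∈ orb1 S x := by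
    rintro a b h u v ⟨c, d, hcd, hc0, hcx⟩
    refine ⟨recen a a u * c, recen a b u * d, (h.recen u).mul hcd, ?_, ?_⟩
    · simp [hc0]
    · simp [hcx]
  intro a b h u v
  refine ⟨key a b h u v, fun hh => ?_⟩
  have := key _ _ h.inv _ _ hh
  simpa using this

theorem IsInv.act0 {X : Set (ZMod n)} (hX : IsInv S false X) {a b : Equiv.Perm (ZMod n)}
    (h : IsTF S a b) (h0 : a 0 = 0) (x : ZMod n) : x ∈ X ↔ a x ∈ X := by
  have := hX a b h 0 x
  simpa [h0] using this

theorem IsInv.act1 {X : Set (ZMod n)} (hX : IsInv S true X) {a b : Equiv.Perm (ZMod n)}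
    (h : IsTF S a b) (h0 : a 0 = 0) (x : ZMod n) : x ∈ X ↔ b x ∈ X := by
  have := hX a b h 0 x
  simpa [h0] using this

theorem orb0_subset {X : Set (ZMod n)} (hX : IsInv S false X) {x : ZMod n} (hx : x ∈ X) :
    orb0 S x ⊆ X := by
  rintro y ⟨a, b, h, h0, rfl⟩
  exact (hX.act0 h h0 x).1 hx

theorem orb1_subset {X : Set (ZMod n)} (hX : IsInv S true X) {x : ZMod n} (hx : x ∈ X) :
    orb1 S x ⊆ X := by
  rintro y ⟨a, b, h, h0, rfl⟩
  exact (hX.act1 h h0 x).1 hx

theorem orb0_symm {x y : ZMod n} (h : y ∈ orb0 S x) : x ∈ orb0 S y := by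
  obtain ⟨a, b, h, h0, rfl⟩ := h
  refine ⟨a⁻¹, b⁻¹, h.inv, ?_, by simp⟩
  rw [Equiv.Perm.inv_eq_iff_eq, h0]

theorem orb1_symm {x y : ZMod n} (h : y ∈ orb1 S x) : x ∈ orb1 S y := by
  obtain ⟨a, b, h, h0, rfl⟩ := h
  refine ⟨a⁻¹, b⁻¹, h.inv, ?_, by simp⟩
  rw [Equiv.Perm.inv_eq_iff_eq, h0]

/-- A `0`-set meeting an orbit contains it. -/
theorem orb0_subset_of_mem {X : Set (ZMod n)} (hX : IsInv S false X) {x y : ZMod n}
    (hy : y ∈ orb0 S x) (hyX : y ∈ X) : orb0 S x ⊆ X :=
  orb0_subset hX (orb0_subset hX hyX (orb0_symm hy))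

theorem orb1_subset_of_mem {X : Set (ZMod n)} (hX : IsInv S true X) {x y : ZMod n}
    (hy : y ∈ orb1 S x) (hyX : y ∈ X) : orb1 S x ⊆ X :=
  orb1_subset hX (orb1_subset hX hyX (orb1_symm hy))

/-! ### Counting functions -/

/-- `#{z ∈ X : z + g ∈ X}` -/
noncomputable def cm (X : Set (ZMod n)) (g : ZMod n) : ℕ :=
  (Finset.univ.filter fun z => z ∈ X ∧ z + g ∈ X).card

/-- `#{z ∈ X : g - z ∈ X}` -/
noncomputable def cp (X : Set (ZMod n)) (g : ZMod n) : ℕ :=
  (Finset.univ.filter fun z => z ∈ X ∧ g - z ∈ X).card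

/-- `#(X ∩ (g + K))` -/
noncomputable def nk (X K : Set (ZMod n)) (g : ZMod n) : ℕ :=
  (Finset.univ.filter fun z => z ∈ X ∧ z - g ∈ K).card

/-- `#X` -/
noncomputable def num (X : Set (ZMod n)) : ℕ := (Finset.univ.filter fun z => z ∈ X).card

theorem cm_eq (X : Set (ZMod n)) (x y : ZMod n) :
    cm X (y - x) = (Finset.univ.filter fun w => w - x ∈ X ∧ w - y ∈ X).card := by
  unfold cm
  refine Finset.card_equiv (Equiv.addRight y) fun z => ?_
  simp only [Finset.mem_filter, Finset.mem_univ, true_and, Equiv.coe_addRight]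
  rw [add_sub_cancel_right, and_comm, add_sub_assoc]

theorem cp_eq (X : Set (ZMod n)) (x y : ZMod n) :
    cp X (y - x) = (Finset.univ.filter fun w => w - x ∈ X ∧ y - w ∈ X).card := by
  unfold cp
  refine Finset.card_equiv (Equiv.addRight x) fun z => ?_
  simp only [Finset.mem_filter, Finset.mem_univ, true_and, Equiv.coe_addRight]
  rw [add_sub_cancel_right, sub_add_eq_sub_sub_swap]

theorem nk_eq (X K : Set (ZMod n)) (x y : ZMod n) :
    nk X K (y - x) = (Finset.univ.filter fun w => w - x ∈ X ∧ w - y ∈ K).card := by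
  unfold nk
  refine Finset.card_equiv (Equiv.addRight x) fun z => ?_
  simp only [Finset.mem_filter, Finset.mem_univ, true_and, Equiv.coe_addRight]
  rw [add_sub_cancel_right]
  have : z - (y - x) = z + x - y := by ring
  rw [this]

/-- The function `cm X` is invariant on the `a`-side. -/
theorem cm_inv {i : Bool} {X : Set (ZMod n)} (hX : IsInv S i X) {a b : Equiv.Perm (ZMod n)}
    (h : IsTF S a b) (x y : ZMod n) : cm X (y - x) = cm X (a y - a x) := by
  rw [cm_eq, cm_eq]
  refine Finset.card_equiv (bif i then b else a) fun w => ?_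
  simp only [Finset.mem_filter, Finset.mem_univ, true_and]
  rw [hX a b h x w, hX a b h y w]

theorem cp_inv (hS : Sym S) {i : Bool} {X : Set (ZMod n)} (hX : IsInv S i X)
    {a b : Equiv.Perm (ZMod n)}
    (h : IsTF S a b) (x y : ZMod n) : cp X (y - x) = cp X (a y - a x) := by
  rw [cp_eq, cp_eq]
  refine Finset.card_equiv (bif i then b else a) fun w => ?_
  simp only [Finset.mem_filter, Finset.mem_univ, true_and]
  cases i
  · rw [hX a b h x w, hX a b h w y]; rfl
  · rw [hX a b h x w, hX b a (h.swap hS) w y]; rfl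

theorem nk_inv (hS : Sym S) {i : Bool} {X K : Set (ZMod n)} (hX : IsInv S i X)
    (hK : IsInv S false K) {a b : Equiv.Perm (ZMod n)}
    (h : IsTF S a b) (x y : ZMod n) :
    nk X K (y - x) = nk X K ((bif i then b else a) y - a x) := by
  rw [nk_eq, nk_eq]
  refine Finset.card_equiv (bif i then b else a) fun w => ?_
  simp only [Finset.mem_filter, Finset.mem_univ, true_and]
  rw [hX a b h x w]
  cases i
  · rw [hK a b h y w]; rfl
  · rw [hK b a (h.swap hS) y w]; rfl

theorem isInv_cm {i : Bool} {X : Set (ZMod n)} (hX : IsInv S i X) (P : ℕ → Prop) :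
    IsInv S false {g | P (cm X g)} := fun a b h x y => by
  change P (cm X (y - x)) ↔ P (cm X (a y - a x))
  rw [cm_inv hX h]

theorem isInv_cp (hS : Sym S) {i : Bool} {X : Set (ZMod n)} (hX : IsInv S i X) (P : ℕ → Prop) :
    IsInv S false {g | P (cp X g)} := fun a b h x y => by
  change P (cp X (y - x)) ↔ P (cp X (a y - a x))
  rw [cp_inv hS hX h]

theorem isInv_nk (hS : Sym S) {i : Bool} {X K : Set (ZMod n)} (hX : IsInv S i X)
    (hK : IsInv S false K) (P : ℕ → Prop) :
    IsInv S i {g | P (nk X K g)} := fun a b h x y => by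
  change P (nk X K (y - x)) ↔ P (nk X K ((bif i then b else a) y - a x))
  rw [nk_inv hS hX hK h]

/-! ### The radical -/

/-- `rad X = {g : X + g = X}` -/
def rad (X : Set (ZMod n)) : AddSubgroup (ZMod n) where
  carrier := {g | ∀ x, x ∈ X ↔ x + g ∈ X}
  zero_mem' := fun x => by simp
  add_mem' := fun {g g'} hg hg' x => by
    rw [hg x, hg' (x + g), add_assoc]
  neg_mem' := fun {g} hg x => by
    rw [hg (x + -g), neg_add_cancel_right]

theorem mem_rad {X : Set (ZMod n)} {g : ZMod n} : g ∈ rad X ↔ ∀ x, x ∈ X ↔ x + g ∈ X := Iff.rfl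

/-- One inclusion suffices. -/
theorem mem_rad_of {X : Set (ZMod n)} {g : ZMod n} (h : ∀ x ∈ X, x + g ∈ X) : g ∈ rad X := by
  intro x
  refine ⟨h x, fun hx => ?_⟩
  have key : ∀ k : ℕ, x + g + k • g ∈ X := by
    intro k
    induction k with
    | zero => simpa using hx
    | succ k ih =>
      have := h _ ih
      rwa [add_assoc, ← succ_nsmul] at this
  have hn : n ≠ 0 := NeZero.ne n
  have := key (n - 1)
  have e : x + g + (n - 1) • g = x := by
    rw [add_assoc, ← succ_nsmul', Nat.sub_add_cancel (Nat.pos_of_ne_zero hn)]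
    simp
  rwa [e] at this

theorem mem_rad_iff_cm {X : Set (ZMod n)} {g : ZMod n} : g ∈ rad X ↔ cm X g = num X := by
  unfold cm num
  constructor
  · intro h
    congr 1
    ext z
    simp only [Finset.mem_filter, Finset.mem_univ, true_and]
    exact ⟨fun h => h.1, fun hz => ⟨hz, (h z).1 hz⟩⟩
  · intro h
    apply mem_rad_of
    intro x hx
    have hsub : (Finset.univ.filter fun z => z ∈ X ∧ z + g ∈ X) ⊆
        Finset.univ.filter fun z => z ∈ X := by
      intro z
      simp only [Finset.mem_filter, Finset.mem_univ, true_and]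
      exact fun h => h.1
    have := Finset.eq_of_subset_of_card_le hsub h.ge
    have hx' : x ∈ Finset.univ.filter fun z => z ∈ X := by simpa using hx
    rw [← this] at hx'
    simp only [Finset.mem_filter, Finset.mem_univ, true_and] at hx'
    exact hx'.2

/-- The radical of an `i`-set is an A-subgroup. -/
theorem isInv_rad {i : Bool} {X : Set (ZMod n)} (hX : IsInv S i X) :
    IsInv S false (rad X : Set (ZMod n)) := by
  have : (rad X : Set (ZMod n)) = {g | cm X g = num X} := by
    ext g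
    exact mem_rad_iff_cm
  rw [this]
  exact isInv_cm hX (fun k => k = num X)

end Pool.Agent.Lib.MP_d9b9c4_co.Circ
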