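import Mathlib

/-!
Definitions for MP_d9b9c4_co: circulant graphs, the direct product with `K₂`, stability and
Type I.
-/

namespace Pool.Agent.Lib.MP_d9b9c4_co

/-- Connection sets: subsets `S` of `ℤ_n` with `0 ∉ S` and `S = -S`. -/
structure ConnSet (n : ℕ) where
  carrier : Set (ZMod n)
  zero_notMem : (0 : ZMod n) ∉ carrier
  neg_mem : ∀ x ∈ carrier, -x ∈ carrier

/-- The circulant graph `Cay(ℤ_n, S)`: `x ∼ y` iff `y - x ∈ S`. -/
def Cay {n : ℕ} (S : ConnSet n) : SimpleGraph (ZMod n) where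
  Adj x y := y - x ∈ S.carrier
  symm := ⟨fun x y h => by
    have := S.neg_mem _ h
    rwa [neg_sub] at this⟩
  loopless := ⟨fun x h => S.zero_notMem (by rwa [sub_self] at h)⟩

/-- The direct product `Γ × K₂`: vertex set `V × {0,1}`, with `(a,i) ∼ (b,j)` iff `a ∼ b` in `Γ`
and `i ≠ j`. -/
def directK2 {V : Type*} (Γ : SimpleGraph V) : SimpleGraph (V × Fin 2) where
  Adj p q := Γ.Adj p.1 q.1 ∧ p.2 ≠ q.2
  symm := ⟨fun _ _ h => ⟨h.1.symm, h.2.symm⟩⟩
  loopless := ⟨fun _ h => h.2 rfl⟩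

/-- `Γ` is stable if every automorphism of `Γ × K₂` is of the form `(v, i) ↦ (σ v, τ i)` with
`σ` an automorphism of `Γ` and `τ` an automorphism of `K₂`. -/
def Stable {V : Type*} (Γ : SimpleGraph V) : Prop :=
  ∀ φ : directK2 Γ ≃g directK2 Γ,
    ∃ (σ : Γ ≃g Γ) (τ : (⊤ : SimpleGraph (Fin 2)) ≃g (⊤ : SimpleGraph (Fin 2))),
      ∀ (v : V) (i : Fin 2), φ (v, i) = (σ v, τ i)

/-- Nontrivially unstable: unstable, connected, non-bipartite, and no two distinct vertices have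
the same neighbourhood. -/
def NontriviallyUnstable {V : Type*} (Γ : SimpleGraph V) : Prop :=
  ¬ Stable Γ ∧ Γ.Connected ∧ ¬ Γ.IsBipartite ∧
    ∀ x y : V, Γ.neighborSet x = Γ.neighborSet y → x = y

/-- The set `2ℤ_n`. -/
def evens (n : ℕ) : Set (ZMod n) := {x | ∃ y : ZMod n, x = 2 * y}

theorem neg_mem_evens {n : ℕ} {x : ZMod n} (h : -x ∈ evens n) : x ∈ evens n := by
  obtain ⟨y, hy⟩ := h
  exact ⟨-y, by rw [mul_neg, ← hy, neg_neg]⟩

/-- `S_o = S \ 2ℤ_n`, again a connection set. -/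
def ConnSet.odd {n : ℕ} (S : ConnSet n) : ConnSet n where
  carrier := S.carrier \ evens n
  zero_notMem := fun h => S.zero_notMem h.1
  neg_mem := fun x h => ⟨S.neg_mem x h.1, fun h' => h.2 (neg_mem_evens h')⟩

/-- `S_e = S ∩ 2ℤ_n`. -/
def ConnSet.even {n : ℕ} (S : ConnSet n) : Set (ZMod n) := S.carrier ∩ evens n

/-- Type I: `Γ_o = Cay(ℤ_n, S_o)` has two distinct automorphisms `σ ≠ ρ`, both mapping `2ℤ_n`
onto itself, such that `y - x ∈ S_e` implies `ρ y - σ x ∈ S_e`. -/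
def TypeI {n : ℕ} (S : ConnSet n) : Prop :=
  ∃ σ ρ : Cay S.odd ≃g Cay S.odd, σ ≠ ρ ∧
    σ '' evens n = evens n ∧ ρ '' evens n = evens n ∧
    ∀ x y : ZMod n, y - x ∈ S.even → ρ y - σ x ∈ S.even

end Pool.Agent.Lib.MP_d9b9c4_co
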