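import Pool.Agent.Lib.MP_d9b9c4_co.Step4

/-!
# Step 4: `e ∉ B`, case (i), and the conclusion
-/

set_option autoImplicit false
set_option linter.unusedSectionVars false
set_option linter.unusedVariables false

open scoped Classical

namespace Pool.Agent.Lib.MP_d9b9c4_co.Circ

variable {n : ℕ} [NeZero n] {S : Set (ZMod n)}

theorem nk_coset {X : Set (ZMod n)} {K : AddSubgroup (ZMod n)} {x y : ZMod n} (h : x - y ∈ K) :
    nk X (K : Set (ZMod n)) x = nk X (K : Set (ZMod n)) y := by
  unfold nk
  congr 1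
  ext z
  simp only [Finset.mem_filter, Finset.mem_univ, true_and, SetLike.mem_coe]
  refine and_congr_right fun _ => ?_
  constructor
  · intro h'
    have := add_mem h' h
    have e : z - x + (x - y) = z - y := by ring
    rwa [e] at this
  · intro h'
    have := sub_mem h' h
    have e : z - y - (x - y) = z - x := by ring
    rwa [e] at this

/-- double counting in cosets -/
theorem nk_mul (X : Set (ZMod n)) {K H : AddSubgroup (ZMod n)} (hKH : K ≤ H) (x : ZMod n) :
    nk X (H : Set (ZMod n)) x * num (K : Set (ZMod n)) =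
      ∑ y ∈ Finset.univ.filter (fun y => y - x ∈ H), nk X (K : Set (ZMod n)) y := by
  have h := Finset.sum_card_bipartiteAbove_eq_sum_card_bipartiteBelow
    (s := Finset.univ.filter fun z : ZMod n => z ∈ X ∧ z - x ∈ H)
    (t := Finset.univ.filter fun y : ZMod n => y - x ∈ H) (fun z y : ZMod n => z - y ∈ K)
  have h1 : ∀ z ∈ Finset.univ.filter fun z : ZMod n => z ∈ X ∧ z - x ∈ H,
      (Finset.bipartiteAbove (fun z y : ZMod n => z - y ∈ K)
      (Finset.univ.filter fun y : ZMod n => y - x ∈ H) z).card = num (K : Set (ZMod n)) := by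
    intro z hz
    simp only [Finset.mem_filter, Finset.mem_univ, true_and] at hz
    unfold Finset.bipartiteAbove num
    rw [Finset.filter_filter]
    refine Finset.card_equiv (Equiv.subLeft z) fun y => ?_
    simp only [Finset.mem_filter, Finset.mem_univ, true_and, Equiv.subLeft_apply,
      SetLike.mem_coe]
    refine ⟨fun h => h.2, fun h => ⟨?_, h⟩⟩
    have := sub_mem hz.2 (hKH h)
    have e : z - x - (z - y) = y - x := by ring
    rwa [e] at this
  have h2 : ∀ y ∈ Finset.univ.filter fun y : ZMod n => y - x ∈ H,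
      (Finset.bipartiteBelow (fun z y : ZMod n => z - y ∈ K)
      (Finset.univ.filter fun z : ZMod n => z ∈ X ∧ z - x ∈ H) y).card =
        nk X (K : Set (ZMod n)) y := by
    intro y hy
    simp only [Finset.mem_filter, Finset.mem_univ, true_and] at hy
    unfold Finset.bipartiteBelow nk
    rw [Finset.filter_filter]
    congr 1
    ext z
    simp only [Finset.mem_filter, Finset.mem_univ, true_and, SetLike.mem_coe]
    refine ⟨fun h => ⟨h.1.1, h.2⟩, fun h => ⟨⟨h.1, ?_⟩, h.2⟩⟩
    have := add_mem (hKH h.2) hy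
    have e : z - y + (y - x) = z - x := by ring
    rwa [e] at this
  rw [Finset.sum_const_nat h1, Finset.sum_congr rfl h2] at h
  exact h

theorem card_coset (H : AddSubgroup (ZMod n)) (x : ZMod n) :
    (Finset.univ.filter (fun y : ZMod n => y - x ∈ H)).card = num (H : Set (ZMod n)) :=
  num_translate (H : Set (ZMod n)) x

theorem orb_nk_eq (hS : Sym S) {K : Set (ZMod n)} (hK : IsInv S false K)
    {x z : ZMod n} (hz : z ∈ orb1 S x) :
    nk (orb1 S x) K z = nk (orb1 S x) K x :=
  orb1_subset (isInv_nk hS (isInv_orb1 x) hK (fun k => k = nk (orb1 S x) K x)) (x := x) rfl hz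

theorem orb_nk_le (hS : Sym S) {K : AddSubgroup (ZMod n)}
    (hK : IsInv S false (K : Set (ZMod n))) (x y : ZMod n) :
    nk (orb1 S x) (K : Set (ZMod n)) y ≤ nk (orb1 S x) (K : Set (ZMod n)) x := by
  by_cases h : ∃ z, z ∈ orb1 S x ∧ z - y ∈ K
  · obtain ⟨z, hz, hzy⟩ := h
    rw [← nk_coset hzy, orb_nk_eq hS hK hz]
  · push Not at h
    have : nk (orb1 S x) (K : Set (ZMod n)) y = 0 := by
      unfold nk
      rw [Finset.card_eq_zero, Finset.filter_eq_empty_iff]
      intro z _ hz
      exact h z hz.1 hz.2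
    rw [this]; exact Nat.zero_le _

theorem nk_pos {X K : Set (ZMod n)} {x : ZMod n} (hx : x ∈ X) (h0 : (0 : ZMod n) ∈ K) :
    0 < nk X K x := by
  unfold nk
  exact Finset.card_pos.2 ⟨x, by simpa using ⟨hx, h0⟩⟩

/-- Two orbits which are large in every coset. -/
theorem coset_single {H : AddSubgroup (ZMod n)}
    (h : ∀ x, num (H : Set (ZMod n)) < 2 * nk (orb1 S x) (H : Set (ZMod n)) x) {x y : ZMod n}
    (hxy : y - x ∈ H) : y ∈ orb1 S x := by
  by_contra hcon
  have hdisj : ∀ z, z ∈ orb1 S x → z ∉ orb1 S y := by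
    intro z hz hz'
    apply hcon
    exact orb1_subset_of_mem (isInv_orb1 x) hz' hz (self_mem_orb1 y)
  have h1 := h x
  have h2 := h y
  rw [nk_coset hxy] at h2
  have h3 : nk (orb1 S x) (H : Set (ZMod n)) x + nk (orb1 S y) (H : Set (ZMod n)) x ≤
      num (H : Set (ZMod n)) := by
    rw [← card_coset H x]
    unfold nk
    rw [← Finset.card_union_of_disjoint]
    · apply Finset.card_le_card
      intro z
      simp only [Finset.mem_union, Finset.mem_filter, Finset.mem_univ, true_and,
        SetLike.mem_coe]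
      rintro (hz | hz)
      · exact hz.2
      · exact hz.2
    · rw [Finset.disjoint_left]
      intro z
      simp only [Finset.mem_filter, Finset.mem_univ, true_and]
      intro hz hz'
      exact hdisj z hz.1 hz'.1
  omega

theorem arith1 {q NR sR p : ℕ} (hNR : 0 < NR)
    (h1 : (q + 2) * (q + 3) * NR ≤ (q + 4) * p) (h2 : p ≤ (q + 3) * sR) : NR ≤ 2 * sR := by
  have h3 : (q + 3) * ((q + 2) * NR) ≤ (q + 3) * ((q + 4) * sR) := by
    calc (q + 3) * ((q + 2) * NR) = (q + 2) * (q + 3) * NR := by ring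
      _ ≤ (q + 4) * p := h1
      _ ≤ (q + 4) * ((q + 3) * sR) := Nat.mul_le_mul_left _ h2
      _ = (q + 3) * ((q + 4) * sR) := by ring
  have h4 := Nat.le_of_mul_le_mul_left h3 (by omega)
  by_contra hcon
  push Not at hcon
  have h5 : (q + 2) * (2 * sR + 1) ≤ (q + 2) * NR := Nat.mul_le_mul_left _ hcon
  nlinarith

theorem arith2 {q NR p : ℕ} (hNR : 0 < NR)
    (h1 : (q + 2) * (q + 3) * NR ≤ (q + 4) * p) : (q + 4) * NR < 2 * (p + NR) := by
  by_contra hcon
  push Not at hcon
  have h2 : 2 * p ≤ (q + 2) * NR := by nlinarith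
  have h3 : (q + 4) * (2 * p) ≤ (q + 4) * ((q + 2) * NR) := Nat.mul_le_mul_left _ h2
  have h4 : (q + 2) * NR * (2 * (q + 3)) ≤ (q + 2) * NR * (q + 4) := by nlinarith
  have h5 := Nat.le_of_mul_le_mul_left h4 (by positivity)
  omega

theorem num_card (H : AddSubgroup (ZMod n)) : num (H : Set (ZMod n)) = Nat.card H := by
  unfold num
  rw [Nat.card_eq_fintype_card, Fintype.card_subtype]
  rfl

namespace Ctx4

theorem card_rel (c : Ctx4 S) : num (c.J : Set (ZMod n)) * num (BB S : Set (ZMod n)) =
    num (B1 S (ee n) : Set (ZMod n)) *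
      num ((c.J ⊓ BB S : AddSubgroup (ZMod n)) : Set (ZMod n)) := by
  have hJB1 : c.J ≤ B1 S (ee n) := c.t.J_le_B1
  have h1 := nk_mul (c.J : Set (ZMod n)) (BB_le_B1 (S := S) (ee n)) 0
  have h2 : nk (c.J : Set (ZMod n)) (B1 S (ee n) : Set (ZMod n)) 0 =
      num (c.J : Set (ZMod n)) := by
    unfold nk num
    congr 1
    ext z
    simp only [Finset.mem_filter, Finset.mem_univ, true_and, SetLike.mem_coe, sub_zero]
    exact ⟨fun h => h.1, fun h => ⟨h, hJB1 h⟩⟩
  rw [h2] at h1
  rw [h1, Finset.sum_const_nat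
    (m := num ((c.J ⊓ BB S : AddSubgroup (ZMod n)) : Set (ZMod n))), card_coset]
  intro y hy
  simp only [Finset.mem_filter, Finset.mem_univ, true_and, sub_zero] at hy
  obtain ⟨j, hj, hyj⟩ := c.t.J_add_B hy
  have hj' : j ∈ c.J := hj
  rw [nk_coset hyj]
  unfold nk num
  refine Finset.card_equiv (Equiv.addRight (-j)) fun z => ?_
  simp only [Finset.mem_filter, Finset.mem_univ, true_and, SetLike.mem_coe,
    Equiv.coe_addRight, AddSubgroup.mem_inf]
  rw [← sub_eq_add_neg]
  refine and_congr ?_ Iff.rfl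
  exact ⟨fun h => sub_mem h hj', fun h => by simpa using add_mem h hj'⟩

/-- The basic inequality. -/
theorem ineq (c : Ctx4 S) (hf : ee n ∈ Wh S) {q : ℕ}
    (hm : num (c.J : Set (ZMod n)) =
      (q + 4) * num ((c.J ⊓ BB S : AddSubgroup (ZMod n)) : Set (ZMod n))) (x : ZMod n) :
    (q + 2) * (q + 3) * num ((c.J ⊓ BB S : AddSubgroup (ZMod n)) : Set (ZMod n)) ≤
      (q + 4) * nk (orb1 S x) (orb0 S (ee n)) x ∧
    nk (orb1 S x) (orb0 S (ee n)) x +
      nk (orb1 S x) ((c.J ⊓ BB S : AddSubgroup (ZMod n)) : Set (ZMod n)) x =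
      nk (orb1 S x) (c.J : Set (ZMod n)) x ∧
    nk (orb1 S x) (orb0 S (ee n)) x ≤
      (q + 3) * nk (orb1 S x) ((c.J ⊓ BB S : AddSubgroup (ZMod n)) : Set (ZMod n)) x := by
  have hS := c.hS
  have hxX : x ∈ orb1 S x := self_mem_orb1 x
  have hXinv : IsInv S true (orb1 S x) := isInv_orb1 x
  have hJinv : IsInv S false (c.J : Set (ZMod n)) := c.t.inv_J
  have hRinv : IsInv S false ((c.J ⊓ BB S : AddSubgroup (ZMod n)) : Set (ZMod n)) :=
    hJinv.inter isInv_BB
  have hOinv : IsInv S false (orb0 S (ee n)) := isInv_orb0 _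
  have hJB1 : c.J ≤ B1 S (ee n) := c.t.J_le_B1
  -- `J = O ∪ R`
  have hXfO : ∀ g, g ∈ Xf S (ee n) ⊥ ↔ g ∈ orb0 S (ee n) := by
    intro g
    constructor
    · rintro ⟨w, hw, hgw⟩
      have : g - w = 0 := by simpa using hgw
      rw [sub_eq_zero] at this
      rw [this]; exact hw
    · exact fun h => orb_sub_Xf h
  have hJO : ∀ g, g ∈ c.J ↔ g ∈ orb0 S (ee n) ∨ g ∈ c.J ⊓ BB S := by
    intro g
    constructor
    · intro hg
      rcases hg with h | h
      · exact Or.inl ((hXfO g).1 h)
      · exact Or.inr ⟨Or.inr h, h.2⟩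
    · rintro (h | h)
      · exact Or.inl ((hXfO g).2 h)
      · exact h.1
  have hOB : ∀ g, g ∈ orb0 S (ee n) → g ∉ BB S := fun g hg => c.c.orb_notMem hg
  set R : AddSubgroup (ZMod n) := c.J ⊓ BB S with hR
  set X := orb1 S x with hX
  set O := orb0 S (ee n) with hO
  set NJ := num (c.J : Set (ZMod n)) with hNJ
  set NR := num (R : Set (ZMod n)) with hNR
  set NB := num (BB S : Set (ZMod n)) with hNB
  set N1 := num (B1 S (ee n) : Set (ZMod n)) with hN1
  set NO := num O with hNO
  set NX := num X with hNX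
  set k := nk X (BB S : Set (ZMod n)) x with hk
  set p := nk X O x with hp
  set sR := nk X (R : Set (ZMod n)) x with hsR
  set s := nk X (c.J : Set (ZMod n)) x with hs
  have hNRpos : 0 < NR := num_pos (zero_mem R)
  have hNBpos : 0 < NB := num_pos (zero_mem (BB S))
  have hNXpos : 0 < NX := num_pos hxX
  -- (f)
  have f1 : NO + NR = NJ := by
    rw [hNJ, hNO, hNR, ← num_union_disj]
    · congr 1
      ext g
      rw [Set.mem_union, SetLike.mem_coe, SetLike.mem_coe]
      exact (hJO g).symm
    · intro z hz hz'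
      exact hOB z hz hz'.2
  have f2 : p + sR = s := by
    rw [hp, hsR, hs]
    unfold nk
    rw [← Finset.card_union_of_disjoint]
    · congr 1
      ext z
      simp only [Finset.mem_union, Finset.mem_filter, Finset.mem_univ, true_and,
        SetLike.mem_coe]
      rw [hJO (z - x)]
      tauto
    · rw [Finset.disjoint_left]
      intro z
      simp only [Finset.mem_filter, Finset.mem_univ, true_and, SetLike.mem_coe]
      intro hz hz'
      exact hOB _ hz.2 hz'.2.2
  -- (a)
  have a1 : s * NR ≤ NJ * sR := by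
    rw [hs, hNR, nk_mul X (inf_le_left : R ≤ c.J) x]
    refine (Finset.sum_le_card_nsmul _ _ sR fun y _ => orb_nk_le hS hRinv x y).trans ?_
    rw [card_coset, smul_eq_mul]
  -- (b)
  have b1 : N1 * k ≤ NX * NB := by
    have h1 : nk X (B1 S (ee n) : Set (ZMod n)) x * NB = N1 * k := by
      rw [hNB, nk_mul X (BB_le_B1 _) x, Finset.sum_const_nat (m := k), card_coset]
      intro y hy
      simp only [Finset.mem_filter, Finset.mem_univ, true_and] at hy
      have h2 := c.c.case_i hf (X := addSet X (BB S : Set (ZMod n)))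
        (IsInv.addSet hS hXinv isInv_BB) (BB_le_rad_addSet _ _)
      have h3 : x ∈ addSet X (BB S : Set (ZMod n)) := ⟨x, hxX, by simp⟩
      have h4 := (h2 hy x).1 h3
      rw [add_sub_cancel] at h4
      obtain ⟨w, hw, hyw⟩ := h4
      rw [nk_coset hyw]
      exact orb_nk_eq hS isInv_BB hw
    rw [← h1]
    apply Nat.mul_le_mul_right
    rw [hNX]
    unfold nk num
    apply Finset.card_le_card
    intro z
    simp only [Finset.mem_filter, Finset.mem_univ, true_and]
    exact fun h => h.1
  -- (c)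
  have c1 : NJ * NB = N1 * NR := c.card_rel
  -- (e)
  have e1 : NO * cm X (ee n) = NX * p := by
    have h1 := sum_cm X O
    rw [Finset.sum_const_nat (m := cm X (ee n)), Finset.sum_const_nat (m := p)] at h1
    · exact h1
    · intro z hz
      simp only [Finset.mem_filter, Finset.mem_univ, true_and] at hz
      exact orb_nk_eq hS hOinv hz
    · intro g hg
      simp only [Finset.mem_filter, Finset.mem_univ, true_and] at hg
      exact orb0_subset (isInv_cm hXinv (fun k => k = cm X (ee n))) (x := ee n) rfl hg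
  -- (d)
  have d1 : NX ≤ cm X (ee n) + 2 * k := by
    have h1 : NX = cm X (ee n) +
        (Finset.univ.filter fun z => z ∈ X ∧ z + ee n ∉ X).card := by
      rw [hNX]
      unfold cm num
      rw [← Finset.card_union_of_disjoint]
      · congr 1
        ext z
        simp only [Finset.mem_union, Finset.mem_filter, Finset.mem_univ, true_and]
        tauto
      · rw [Finset.disjoint_left]
        intro z
        simp only [Finset.mem_filter, Finset.mem_univ, true_and]
        tauto
    rw [h1]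
    apply Nat.add_le_add_left
    have h2 : (Finset.univ.filter fun z => z ∈ X ∧ z + ee n ∉ X) ⊆
        (Finset.univ.filter fun z => z ∈ X ∧ z - 0 ∈ BB S) ∪
        (Finset.univ.filter fun z => z ∈ X ∧ z - ee n ∈ BB S) := by
      intro z
      simp only [Finset.mem_union, Finset.mem_filter, Finset.mem_univ, true_and, sub_zero]
      rintro ⟨hz, hze⟩
      rcases c.c.Pe hXinv hz hze with h | h
      · exact Or.inl ⟨hz, h⟩
      · exact Or.inr ⟨hz, h⟩
    refine (Finset.card_le_card h2).trans ((Finset.card_union_le _ _).trans ?_)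
    rw [two_mul]
    exact Nat.add_le_add (orb_nk_le hS isInv_BB x 0) (orb_nk_le hS isInv_BB x (ee n))
  -- arithmetic
  clear_value NJ NR NB N1 NO NX k p sR s
  have hNO' : NO = (q + 3) * NR := by
    have : NO + NR = (q + 4) * NR := by rw [f1, hm]
    nlinarith
  have hN1' : N1 = (q + 4) * NB := by
    have : NR * N1 = NR * ((q + 4) * NB) := by
      rw [hm] at c1
      linarith [c1]
    exact Nat.eq_of_mul_eq_mul_left hNRpos this
  have hb : (q + 4) * k ≤ NX := by
    have : NB * ((q + 4) * k) ≤ NB * NX := by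
      rw [hN1'] at b1
      linarith [b1]
    exact Nat.le_of_mul_le_mul_left this hNBpos
  refine ⟨?_, f2, ?_⟩
  · -- m * NO ≤ m * p + 2 * NO
    have h1 : NX * NO ≤ NX * p + 2 * k * NO := by
      calc NX * NO ≤ (cm X (ee n) + 2 * k) * NO := Nat.mul_le_mul_right _ d1
        _ = NO * cm X (ee n) + 2 * k * NO := by ring
        _ = NX * p + 2 * k * NO := by rw [e1]
    have h2 : NX * ((q + 4) * NO) ≤ NX * ((q + 4) * p + 2 * NO) := by
      calc NX * ((q + 4) * NO) = (q + 4) * (NX * NO) := by ring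
        _ ≤ (q + 4) * (NX * p + 2 * k * NO) := Nat.mul_le_mul_left _ h1
        _ = NX * ((q + 4) * p) + ((q + 4) * k) * (2 * NO) := by ring
        _ ≤ NX * ((q + 4) * p) + NX * (2 * NO) :=
          Nat.add_le_add_left (Nat.mul_le_mul_right _ hb) _
        _ = NX * ((q + 4) * p + 2 * NO) := by ring
    have h3 := Nat.le_of_mul_le_mul_left h2 hNXpos
    rw [hNO'] at h3
    nlinarith
  · have h1 : NR * s ≤ NR * ((q + 4) * sR) := by
      rw [hm] at a1
      linarith [a1]
    have h2 := Nat.le_of_mul_le_mul_left h1 hNRpos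
    rw [← f2] at h2
    nlinarith

theorem odd_BB (c : Ctx4 S) : Odd (num (BB S : Set (ZMod n))) := by
  rw [← Nat.not_even_iff_odd]
  rintro ⟨k, hk⟩
  apply c.he
  apply mem_of_card_nsmul
  rw [← num_card, hk, add_nsmul, ← nsmul_add, c.hee, smul_zero]

theorem four_dvd (c : Ctx4 S) : 4 ∣ num (B1 S (ee n) : Set (ZMod n)) := by
  obtain ⟨y, hy⟩ := ee_mem_ev c.h4
  have hyB : y ∈ B1 S (ee n) := c.c.half_B1 (by rw [← hy]; exact f_mem_B1 _)
  have hord : addOrderOf y = 2 ^ (1 + 1) := by
    apply addOrderOf_eq_prime_pow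
    · rw [pow_one, two_nsmul, ← hy]
      exact ee_ne c.h2n
    · rw [pow_succ, pow_one, mul_nsmul', two_nsmul, two_nsmul, ← hy]
      exact c.hee
  have h1 : addOrderOf y ∣ Nat.card (B1 S (ee n)) := by
    have := addOrderOf_dvd_natCard (G := B1 S (ee n)) ⟨y, hyB⟩
    rwa [← AddSubgroup.addOrderOf_coe] at this
  rw [hord] at h1
  rw [num_card]
  exact h1

/-- **Step 4i**: case (i) is impossible. -/
theorem false_i (c : Ctx4 S) (hf : ee n ∈ Wh S) : False := by
  set R : AddSubgroup (ZMod n) := c.J ⊓ BB S with hR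
  have hNRpos : 0 < num (R : Set (ZMod n)) := num_pos (zero_mem R)
  have hNBpos : 0 < num (BB S : Set (ZMod n)) := num_pos (zero_mem (BB S))
  obtain ⟨m, hm⟩ : num (R : Set (ZMod n)) ∣ num (c.J : Set (ZMod n)) := by
    rw [num_card, num_card]
    exact AddSubgroup.card_dvd_of_le inf_le_left
  have hrel := c.card_rel
  rw [← hR, hm] at hrel
  have hN1 : num (B1 S (ee n) : Set (ZMod n)) = m * num (BB S : Set (ZMod n)) := by
    apply Nat.eq_of_mul_eq_mul_left hNRpos
    linarith [hrel]
  have h4m : 4 ∣ m := by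
    have h1 := c.four_dvd
    rw [hN1] at h1
    have hcop : Nat.Coprime 4 (num (BB S : Set (ZMod n))) := by
      have : Nat.Coprime (2 ^ 2) (num (BB S : Set (ZMod n))) :=
        Nat.Coprime.pow_left _ (Nat.coprime_two_left.2 c.odd_BB)
      simpa using this
    exact hcop.dvd_of_dvd_mul_right h1
  have hmpos : 0 < m := by
    rcases Nat.eq_zero_or_pos m with h0 | h0
    · rw [h0, mul_zero] at hm
      have h5 : 0 < num (c.J : Set (ZMod n)) := num_pos (zero_mem c.J)
      rw [hm] at h5
      exact absurd h5 (lt_irrefl 0)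
    · exact h0
  obtain ⟨q, rfl⟩ := Nat.exists_eq_add_of_le (Nat.le_of_dvd hmpos h4m)
  have hm' : num (c.J : Set (ZMod n)) = (q + 4) * num (R : Set (ZMod n)) := by
    rw [hm]; ring
  have hRodd : Odd (num (R : Set (ZMod n))) := by
    have h1 : num (R : Set (ZMod n)) ∣ num (BB S : Set (ZMod n)) := by
      rw [num_card, num_card]
      exact AddSubgroup.card_dvd_of_le inf_le_right
    exact Odd.of_dvd_nat c.odd_BB h1
  have hbig : ∀ x, num (R : Set (ZMod n)) < 2 * nk (orb1 S x) (R : Set (ZMod n)) x := by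
    intro x
    obtain ⟨h1, _, h3⟩ := c.ineq hf hm' x
    have h4 := arith1 hNRpos h1 h3
    rcases h4.lt_or_eq with h5 | h5
    · exact h5
    · exfalso
      rw [h5] at hRodd
      exact (Nat.not_even_iff_odd.2 hRodd) (even_two_mul _)
  have hR1 : ∀ x, nk (orb1 S x) (R : Set (ZMod n)) x = num (R : Set (ZMod n)) := by
    intro x
    rw [← card_coset R x]
    unfold nk
    congr 1
    ext z
    simp only [Finset.mem_filter, Finset.mem_univ, true_and, SetLike.mem_coe]
    exact ⟨fun h => h.2, fun h => ⟨coset_single hbig h, h⟩⟩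
  have hbig2 : ∀ x, num (c.J : Set (ZMod n)) <
      2 * nk (orb1 S x) (c.J : Set (ZMod n)) x := by
    intro x
    obtain ⟨h1, h2, _⟩ := c.ineq hf hm' x
    rw [← hR, hR1] at h2
    rw [← h2, hm']
    exact arith2 hNRpos h1
  obtain ⟨s, hs, hse⟩ := c.htf
  apply hse
  apply orb1_subset (X := S) isInv_self hs
  exact coset_single hbig2 (by rw [add_sub_cancel_left]; exact c.t.f_mem_J)

/-- **Step 4** -/
theorem false_of (c : Ctx4 S) (h8 : 8 ∣ n) : False := by
  by_cases hf : ee n ∈ Wh S
  · exact c.false_i hf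
  · rcases c.c.case_ii_iii hf with h | h
    · exact c.not_ii h
    · exact Ctx43.false_of ⟨c, h⟩ h8

end Ctx4

/-- **The main theorem on TF-pairs**: if `8 ∣ n`, `S = -S`, `S + n/2 ≠ S` and there is a
nontrivial TF-pair, then there is a nontrivial parity preserving TF-pair. -/
theorem not_typeII (h8 : 8 ∣ n) (hS : Sym S) (hnt : ∃ a b, IsTF S a b ∧ a ≠ b)
    (htf : ∃ s ∈ S, s + ee n ∉ S) : ¬ TypeII S := by
  intro hII
  by_cases he : ee n ∈ BB S
  · obtain ⟨f, c⟩ := exists_ctx (dvd_trans (by norm_num) h8) hS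
    exact Ctx3.false_of ⟨c, hII, hnt, he, htf⟩
  · exact Ctx4.false_of ⟨dvd_trans (by norm_num) h8, hS, hII, hnt, he, htf⟩ h8

end Pool.Agent.Lib.MP_d9b9c4_co.Circ
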