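import Pool.Agent.Lib.MP_d9b9c4_co.Defs
import Pool.Agent.Lib.MP_d9b9c4_co.Step4i

/-!
# From graphs to TF-pairs and back
-/

set_option autoImplicit false
set_option linter.unusedSectionVars false
set_option linter.unusedVariables false

open scoped Classical

namespace Pool.Agent.Lib.MP_d9b9c4_co

section stab

variable {V : Type*} {Γ : SimpleGraph V}

theorem fin2_ne (a b : Fin 2) (h : a ≠ b) : a = b + 1 := by
  revert a b; decide

/-- A connected, non-bipartite, unstable graph has a nontrivial TF-pair. -/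
theorem exists_TF [Finite V] (hc : Γ.Connected) (hb : ¬ Γ.IsBipartite) (hu : ¬ Stable Γ) :
    ∃ α β : Equiv.Perm V, (∀ x y, Γ.Adj x y ↔ Γ.Adj (α x) (β y)) ∧ α ≠ β := by
  by_contra hcon
  push Not at hcon
  apply hu
  intro φ
  obtain ⟨v0⟩ := hc.nonempty
  have hadj : ∀ p q : V × Fin 2, (directK2 Γ).Adj (φ p) (φ q) ↔ (directK2 Γ).Adj p q :=
    fun p q => φ.map_adj_iff
  have h01 : ∀ a b, Γ.Adj a b → (φ (a, 0)).2 = (φ (b, 1)).2 + 1 := by
    intro a b hab
    have h1 : (directK2 Γ).Adj (a, 0) (b, 1) := ⟨hab, (by decide : (0 : Fin 2) ≠ 1)⟩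
    exact fin2_ne _ _ ((hadj _ _).2 h1).2
  have hdadj : ∀ a b, Γ.Adj a b →
      (φ (a, 0)).2 + (φ (a, 1)).2 = (φ (b, 0)).2 + (φ (b, 1)).2 := by
    intro a b hab
    have h1 := h01 a b hab
    have h2 := h01 b a hab.symm
    rw [h1, h2]
    have : ∀ x y : Fin 2, x + 1 + y = y + 1 + x := by decide
    exact this _ _
  have hconst : ∀ {f : V → Fin 2}, (∀ a b, Γ.Adj a b → f a = f b) → ∀ v, f v = f v0 := by
    intro f hf v
    have hr : Γ.Reachable v v0 := hc.preconnected v v0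
    obtain ⟨w⟩ := hr
    induction w with
    | nil => rfl
    | cons h _ ih => rw [hf _ _ h, ih]
  have hd0 : ∀ v, (φ (v, 0)).2 + (φ (v, 1)).2 = (φ (v0, 0)).2 + (φ (v0, 1)).2 :=
    hconst (f := fun v => (φ (v, 0)).2 + (φ (v, 1)).2) hdadj
  have hd1 : (φ (v0, 0)).2 + (φ (v0, 1)).2 ≠ 0 := by
    intro hz
    apply hb
    have hcol : ∀ a b, Γ.Adj a b → (φ (a, 0)).2 ≠ (φ (b, 0)).2 := by
      intro a b hab hc'
      have h1 := h01 a b hab
      have h2 := hd0 b
      rw [hz, ← hc', h1] at h2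
      have : ∀ y : Fin 2, y + 1 + y ≠ 0 := by decide
      exact this _ h2
    have hC : Γ.Coloring (Fin 2) :=
      SimpleGraph.Coloring.mk (fun v => (φ (v, 0)).2) (fun {a b} hab => hcol a b hab)
    have := hC.colorable
    simpa [SimpleGraph.IsBipartite] using this
  have hd1' : ∀ v, (φ (v, 1)).2 = (φ (v, 0)).2 + 1 := by
    intro v
    have h1 := hd0 v
    have h2 : ∀ x y z : Fin 2, z ≠ 0 → x + y = z → y = x + 1 := by decide
    exact h2 _ _ _ hd1 h1
  have hs : ∀ v, (φ (v, 0)).2 = (φ (v0, 0)).2 := by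
    apply hconst (f := fun v => (φ (v, 0)).2)
    intro a b hab
    show (φ (a, 0)).2 = (φ (b, 0)).2
    rw [h01 a b hab, hd1' b]
    have : ∀ y : Fin 2, y + 1 + 1 = y := by decide
    exact this _
  obtain ⟨s, hsdef⟩ : ∃ s, s = (φ (v0, 0)).2 := ⟨_, rfl⟩
  rw [← hsdef] at hs
  have hφ0 : ∀ v, φ (v, 0) = ((φ (v, 0)).1, s) := fun v => Prod.ext rfl (hs v)
  have hφ1 : ∀ v, φ (v, 1) = ((φ (v, 1)).1, s + 1) := by
    intro v
    refine Prod.ext rfl ?_
    show (φ (v, 1)).2 = s + 1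
    rw [hd1', hs]
  have inj0 : Function.Injective (fun v => (φ (v, 0)).1) := by
    intro v w hvw
    have h1 : φ (v, 0) = φ (w, 0) := by
      rw [hφ0 v, hφ0 w]
      have hvw' : (φ (v, 0)).1 = (φ (w, 0)).1 := hvw
      rw [hvw']
    have h2 := φ.injective h1
    exact congrArg Prod.fst h2
  have inj1 : Function.Injective (fun v => (φ (v, 1)).1) := by
    intro v w hvw
    have h1 : φ (v, 1) = φ (w, 1) := by
      rw [hφ1 v, hφ1 w]
      have hvw' : (φ (v, 1)).1 = (φ (w, 1)).1 := hvw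
      rw [hvw']
    have h2 := φ.injective h1
    exact congrArg Prod.fst h2
  obtain ⟨α, hα⟩ : ∃ α : Equiv.Perm V, ∀ v, α v = (φ (v, 0)).1 :=
    ⟨Equiv.ofBijective _ (Finite.injective_iff_bijective.1 inj0), fun v => rfl⟩
  obtain ⟨β, hβ⟩ : ∃ β : Equiv.Perm V, ∀ v, β v = (φ (v, 1)).1 :=
    ⟨Equiv.ofBijective _ (Finite.injective_iff_bijective.1 inj1), fun v => rfl⟩
  have hss : s ≠ s + 1 := by
    have : ∀ s : Fin 2, s ≠ s + 1 := by decide
    exact this s
  have hTF : ∀ x y, Γ.Adj x y ↔ Γ.Adj (α x) (β y) := by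
    intro x y
    have h1 := hadj (x, 0) (y, 1)
    rw [hφ0 x, hφ1 y, ← hα, ← hβ] at h1
    have h2 : (directK2 Γ).Adj (α x, s) (β y, s + 1) ↔ Γ.Adj (α x) (β y) :=
      ⟨fun h => h.1, fun h => ⟨h, hss⟩⟩
    have h3 : (directK2 Γ).Adj (x, 0) (y, 1) ↔ Γ.Adj x y :=
      ⟨fun h => h.1, fun h => ⟨h, (by decide : (0 : Fin 2) ≠ 1)⟩⟩
    rw [← h3, ← h1, h2]
  have heq : α = β := hcon α β hTF
  subst heq
  refine ⟨⟨α, fun {x y} => (hTF x y).symm⟩, ⟨Equiv.addRight s, fun {i j} => by simp⟩, ?_⟩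
  intro v i
  show φ (v, i) = (α v, i + s)
  have hi : i = 0 ∨ i = 1 := by revert i; decide
  rcases hi with rfl | rfl
  · rw [hφ0 v, ← hα, zero_add]
  · rw [hφ1 v, ← hβ, add_comm]

end stab

open Circ

section mix

variable {n : ℕ} [NeZero n]

theorem mem_evens_iff {x : ZMod n} : x ∈ evens n ↔ x ∈ ev n := by
  constructor
  · rintro ⟨y, rfl⟩
    exact ⟨y, two_mul y⟩
  · rintro ⟨y, rfl⟩
    exact ⟨y, (two_mul y).symm⟩

theorem mem_ev_of {x y : ZMod n} (h : y - x ∈ ev n) : y ∈ ev n ↔ x ∈ ev n := by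
  constructor
  · intro hy
    have := sub_mem hy h
    have e : y - (y - x) = x := by ring
    rwa [e] at this
  · intro hx
    have := add_mem hx h
    have e : x + (y - x) = y := by ring
    rwa [e] at this

/-- `a` on the even elements and `b` on the odd elements. -/
theorem exists_mix {a b : Equiv.Perm (ZMod n)} (ha : ∀ x, a x - x ∈ ev n)
    (hb : ∀ x, b x - x ∈ ev n) :
    ∃ σ : Equiv.Perm (ZMod n), ∀ x, σ x = if x ∈ ev n then a x else b x := by
  have hmem : ∀ x, (if x ∈ ev n then a x else b x) ∈ ev n ↔ x ∈ ev n := by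
    intro x
    split_ifs with h
    · exact mem_ev_of (ha x)
    · exact mem_ev_of (hb x)
  have hinj : Function.Injective fun x => if x ∈ ev n then a x else b x := by
    intro x y hxy
    have hxy' : (if x ∈ ev n then a x else b x) = (if y ∈ ev n then a y else b y) := hxy
    have h1 : x ∈ ev n ↔ y ∈ ev n := by rw [← hmem x, hxy', hmem y]
    by_cases h : x ∈ ev n
    · rw [if_pos h, if_pos (h1.1 h)] at hxy'
      exact a.injective hxy'
    · rw [if_neg h, if_neg (fun h' => h (h1.2 h'))] at hxy'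
      exact b.injective hxy'
  exact ⟨Equiv.ofBijective _ (Finite.injective_iff_bijective.1 hinj), fun x => rfl⟩

theorem mix_par {a b σ : Equiv.Perm (ZMod n)} (ha : ∀ x, a x - x ∈ ev n)
    (hb : ∀ x, b x - x ∈ ev n) (hσ : ∀ x, σ x = if x ∈ ev n then a x else b x) (x : ZMod n) :
    σ x - x ∈ ev n := by
  rw [hσ]
  split_ifs
  · exact ha x
  · exact hb x

theorem image_evens {σ : Equiv.Perm (ZMod n)} (hσ : ∀ x, σ x - x ∈ ev n) :
    σ '' evens n = evens n := by
  ext y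
  constructor
  · rintro ⟨x, hx, rfl⟩
    rw [mem_evens_iff] at hx ⊢
    exact (mem_ev_of (hσ x)).2 hx
  · intro hy
    refine ⟨σ.symm y, ?_, by simp⟩
    rw [mem_evens_iff] at hy ⊢
    have := mem_ev_of (hσ (σ.symm y))
    rw [Equiv.apply_symm_apply] at this
    exact this.1 hy

/-- the mixed permutation is an automorphism of `Γ_o`. -/
theorem mix_adj (h2n : 2 ∣ n) (S : ConnSet n) {a b σ : Equiv.Perm (ZMod n)}
    (h : IsTF S.carrier a b) (ha : ∀ x, a x - x ∈ ev n)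
    (hb : ∀ x, b x - x ∈ ev n) (hσ : ∀ x, σ x = if x ∈ ev n then a x else b x) (x y : ZMod n) :
    (Cay S.odd).Adj (σ x) (σ y) ↔ (Cay S.odd).Adj x y := by
  have hS : Sym S.carrier := S.neg_mem
  show (σ y - σ x ∈ S.carrier ∧ σ y - σ x ∉ evens n) ↔ (y - x ∈ S.carrier ∧ y - x ∉ evens n)
  rw [mem_evens_iff, mem_evens_iff]
  have hpar : σ y - σ x ∈ ev n ↔ y - x ∈ ev n := by
    apply mem_ev_of
    have := sub_mem (mix_par ha hb hσ y) (mix_par ha hb hσ x)
    have e : σ y - y - (σ x - x) = σ y - σ x - (y - x) := by ring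
    rwa [e] at this
  rw [hpar]
  refine and_congr_left fun hodd => ?_
  rw [hσ, hσ]
  by_cases hx : x ∈ ev n
  · by_cases hy : y ∈ ev n
    · exact absurd (sub_mem hy hx) hodd
    · rw [if_pos hx, if_neg hy]
      exact (h x y).symm
  · by_cases hy : y ∈ ev n
    · rw [if_neg hx, if_pos hy]
      exact (h.swap hS x y).symm
    · exact absurd (odd_sub_odd h2n hy hx) hodd

theorem mix_even (S : ConnSet n) {a b σ ρ : Equiv.Perm (ZMod n)}
    (h : IsTF S.carrier a b) (ha : ∀ x, a x - x ∈ ev n)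
    (hb : ∀ x, b x - x ∈ ev n) (hσ : ∀ x, σ x = if x ∈ ev n then a x else b x)
    (hρ : ∀ x, ρ x = if x ∈ ev n then b x else a x) (x y : ZMod n)
    (hxy : y - x ∈ S.even) : ρ y - σ x ∈ S.even := by
  have hS : Sym S.carrier := S.neg_mem
  obtain ⟨h1, h2⟩ := hxy
  rw [mem_evens_iff] at h2
  have hpar : ρ y - σ x ∈ ev n ↔ y - x ∈ ev n := by
    apply mem_ev_of
    have := sub_mem (mix_par hb ha hρ y) (mix_par ha hb hσ x)
    have e : ρ y - y - (σ x - x) = ρ y - σ x - (y - x) := by ring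
    rwa [e] at this
  refine ⟨?_, mem_evens_iff.2 (hpar.2 h2)⟩
  have h3 := mem_ev_of h2
  rw [hσ, hρ]
  by_cases hx : x ∈ ev n
  · rw [if_pos hx, if_pos (h3.2 hx)]
    exact (h x y).1 h1
  · rw [if_neg hx, if_neg (fun h' => hx (h3.1 h'))]
    exact (h.swap hS x y).1 h1

end mix

/-- **Main theorem.** -/
theorem typeI_of {n : ℕ} (hn : 0 < n) (h8 : 8 ∣ n) (S : ConnSet n)
    (h : NontriviallyUnstable (Cay S)) : TypeI S := by
  have : NeZero n := ⟨hn.ne'⟩
  have h2n : 2 ∣ n := dvd_trans (by norm_num) h8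
  have hS : Sym S.carrier := S.neg_mem
  obtain ⟨hu, hc, hb, ht⟩ := h
  obtain ⟨α, β, hTF, hne⟩ := exists_TF hc hb hu
  have htf : ∃ s ∈ S.carrier, s + ee n ∉ S.carrier := by
    by_contra hcon
    push Not at hcon
    apply ee_ne h2n
    apply ht
    ext y
    show y - ee n ∈ S.carrier ↔ y - 0 ∈ S.carrier
    rw [sub_zero]
    constructor
    · intro hy
      have := hcon _ hy
      simpa using this
    · intro hy
      have := hcon _ hy
      rwa [sub_eq_add_neg, neg_ee h2n]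
  have hnot := not_typeII h8 hS ⟨α, β, fun x y => hTF x y, hne⟩ htf
  unfold TypeII at hnot
  push Not at hnot
  obtain ⟨a, b, hab, ha, hb', hne'⟩ := hnot
  obtain ⟨σ, hσ⟩ := exists_mix ha hb'
  obtain ⟨ρ, hρ⟩ := exists_mix hb' ha
  refine ⟨⟨σ, fun {x y} => mix_adj h2n S hab ha hb' hσ x y⟩,
    ⟨ρ, fun {x y} => mix_adj h2n S (hab.swap hS) hb' ha hρ x y⟩, ?_,
    image_evens (mix_par ha hb' hσ), image_evens (mix_par hb' ha hρ),
    mix_even S hab ha hb' hσ hρ⟩
  intro heq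
  apply hne'
  ext1 x
  have h1 : σ x = ρ x := congrArg (fun g : Cay S.odd ≃g Cay S.odd => g x) heq
  rw [hσ, hρ] at h1
  by_cases hx : x ∈ ev n
  · rwa [if_pos hx, if_pos hx] at h1
  · rw [if_neg hx, if_neg hx] at h1
    exact h1.symm

end Pool.Agent.Lib.MP_d9b9c4_co
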