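import Pool.Agent.Lib.MP_d9b9c4_co.Sub

/-!
# Step 1: the subgroup `B₁` and the three cases
-/

set_option autoImplicit false
set_option linter.unusedSectionVars false
set_option linter.unusedVariables false

open scoped Classical

namespace Pool.Agent.Lib.MP_d9b9c4_co.Circ

variable {n : ℕ} [NeZero n] {S : Set (ZMod n)}

/-! ### `num` -/

theorem num_le {X Y : Set (ZMod n)} (h : X ⊆ Y) : num X ≤ num Y :=
  Finset.card_le_card fun z => by
    simp only [Finset.mem_filter, Finset.mem_univ, true_and]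
    exact fun hz => h hz

theorem eq_of_num_le {X Y : Set (ZMod n)} (h : X ⊆ Y) (hn : num Y ≤ num X) : X = Y := by
  have h1 : (Finset.univ.filter fun z => z ∈ X) = Finset.univ.filter fun z => z ∈ Y :=
    Finset.eq_of_subset_of_card_le (fun z => by
      simp only [Finset.mem_filter, Finset.mem_univ, true_and]
      exact fun hz => h hz) hn
  ext z
  have := congrArg (fun s => z ∈ s) h1
  simpa using this

theorem num_translate (X : Set (ZMod n)) (g : ZMod n) : num {z | z - g ∈ X} = num X := by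
  unfold num
  refine (Finset.card_equiv (Equiv.addRight g) fun z => ?_).symm
  simp

theorem num_equiv {X Y : Set (ZMod n)} (p : Equiv.Perm (ZMod n)) (h : ∀ z, z ∈ X ↔ p z ∈ Y) :
    num X = num Y := by
  unfold num
  refine Finset.card_equiv p fun z => ?_
  simpa using h z

theorem num_pos {X : Set (ZMod n)} {x : ZMod n} (hx : x ∈ X) : 0 < num X :=
  Finset.card_pos.2 ⟨x, by simpa using hx⟩

theorem num_union_disj {X Y : Set (ZMod n)} (h : ∀ z ∈ X, z ∉ Y) :
    num (X ∪ Y) = num X + num Y := by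
  unfold num
  rw [← Finset.card_union_of_disjoint]
  · congr 1
    ext z; simp
  · rw [Finset.disjoint_left]
    intro z
    simpa using h z

theorem num_sdiff {X Y : Set (ZMod n)} (h : X ⊆ Y) : num (Y \ X) + num X = num Y := by
  rw [← num_union_disj]
  · congr 1
    ext z
    simp only [Set.mem_union, Set.mem_sdiff]
    constructor
    · rintro (h1 | h1)
      · exact h1.1
      · exact h h1
    · intro h1
      by_cases h2 : z ∈ X
      · exact Or.inr h2
      · exact Or.inl ⟨h1, h2⟩
  · intro z hz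
    exact hz.2

/-- double counting -/
theorem sum_cm (X Y : Set (ZMod n)) :
    ∑ g ∈ Finset.univ.filter (fun g => g ∈ Y), cm X g =
      ∑ x ∈ Finset.univ.filter (fun x => x ∈ X), nk X Y x := by
  have h := Finset.sum_card_bipartiteAbove_eq_sum_card_bipartiteBelow
    (s := Finset.univ.filter fun x : ZMod n => x ∈ X)
    (t := Finset.univ.filter fun g : ZMod n => g ∈ Y) (fun x g : ZMod n => x + g ∈ X)
  have h1 : ∀ g, (Finset.bipartiteBelow (fun x g : ZMod n => x + g ∈ X)
      (Finset.univ.filter fun x : ZMod n => x ∈ X) g).card = cm X g := by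
    intro g
    unfold cm Finset.bipartiteBelow
    rw [Finset.filter_filter]
  have h2 : ∀ x, (Finset.bipartiteAbove (fun x g : ZMod n => x + g ∈ X)
      (Finset.univ.filter fun g : ZMod n => g ∈ Y) x).card = nk X Y x := by
    intro x
    unfold nk Finset.bipartiteAbove
    rw [Finset.filter_filter]
    refine Finset.card_equiv (Equiv.addLeft x) fun z => ?_
    simp only [Finset.mem_filter, Finset.mem_univ, true_and, Equiv.coe_addLeft,
      add_sub_cancel_left]
    exact and_comm
  simp only [h1, h2] at h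
  exact h.symm

/-! ### The context -/

/-- The standing assumptions on `f`: `f ∉ B`, `2f ∈ B`, `f` has 2-power order. -/
structure Ctx (S : Set (ZMod n)) (f : ZMod n) : Prop where
  h2n : 2 ∣ n
  hS : Sym S
  f_notMem : f ∉ BB S
  ff_mem : f + f ∈ BB S
  f_pow : ∃ k : ℕ, 2 ^ k • f = 0

theorem exists_ctx (h2n : 2 ∣ n) (hS : Sym S) : ∃ f, Ctx S f := by
  have h1 : (1 : ZMod n) ∉ BB S := fun h => one_notMem_ev h2n (BB_le h)
  set N := addOrderOf (QuotientAddGroup.mk (1 : ZMod n) : ZMod n ⧸ BB S) with hN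
  have hN1 : N • (1 : ZMod n) ∈ BB S := by
    have := addOrderOf_nsmul_eq_zero (QuotientAddGroup.mk (1 : ZMod n) : ZMod n ⧸ BB S)
    rw [← QuotientAddGroup.mk_nsmul, QuotientAddGroup.eq_zero_iff] at this
    exact this
  have hNe : Even N := by
    by_contra hodd
    rw [Nat.not_even_iff_odd] at hodd
    exact nsmul_odd h2n (one_notMem_ev h2n) hodd (BB_le hN1)
  have hNpos : 0 < N := addOrderOf_pos _
  obtain ⟨M, hM⟩ := hNe
  set g : ZMod n := M • (1 : ZMod n) with hg
  have hgB : g ∉ BB S := by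
    intro h
    have h2 : M • (QuotientAddGroup.mk (1 : ZMod n) : ZMod n ⧸ BB S) = 0 := by
      rw [← QuotientAddGroup.mk_nsmul, QuotientAddGroup.eq_zero_iff]
      exact h
    have := addOrderOf_dvd_of_nsmul_eq_zero h2
    have := Nat.le_of_dvd (by omega) this
    omega
  have hggB : g + g ∈ BB S := by
    rw [hg, ← add_nsmul, ← hM]
    exact hN1
  -- odd part
  obtain ⟨r, m, hm, hnm⟩ := Nat.exists_eq_two_pow_mul_odd (NeZero.ne n)
  obtain ⟨k, rfl⟩ := hm
  refine ⟨(2 * k + 1) • g, h2n, hS, ?_, ?_, ⟨r, ?_⟩⟩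
  · intro h
    apply hgB
    have e : (2 * k + 1) • g = k • (g + g) + g := by
      rw [add_smul, one_smul, mul_comm, mul_smul, two_smul]
    rw [e] at h
    have := sub_mem h (AddSubgroup.nsmul_mem _ hggB k)
    simpa using this
  · rw [← nsmul_add]
    exact AddSubgroup.nsmul_mem _ hggB _
  · rw [← mul_nsmul', ← hnm]
    simp

namespace Ctx

variable {f : ZMod n}

/-- (P) -/
theorem P (c : Ctx S f) {i : Bool} {X : Set (ZMod n)} (hX : IsInv S i X)
    {K : AddSubgroup (ZMod n)} (hKB : K ≤ BB S) (hK : K ≤ rad X) (hff : f + f ∈ K) {x : ZMod n}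
    (hx : x ∈ X) (hxf : x + f ∉ X) : x ∈ BB S ∨ x - f ∈ BB S :=
  coset_two _ c.f_notMem c.ff_mem
    (schurB c.h2n c.hS hX (hKB.trans BB_le) hK (fun h => c.f_notMem (hKB h)) hff hx hxf)

/-- Schur with `e`: for every `i`-set. -/
theorem Pe (c : Ctx S f) {i : Bool} {X : Set (ZMod n)} (hX : IsInv S i X) {x : ZMod n}
    (hx : x ∈ X) (hxf : x + ee n ∉ X) : x ∈ BB S ∨ x - f ∈ BB S :=
  coset_two _ c.f_notMem c.ff_mem
    (schurB c.h2n c.hS hX (K := ⊥) bot_le bot_le (by simpa using ee_ne c.h2n)
      (by simpa using ee_add_ee c.h2n) hx hxf)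

end Ctx

/-- `B₁` -/
def B1 (S : Set (ZMod n)) (f : ZMod n) : AddSubgroup (ZMod n) :=
  AddSubgroup.closure (orb0 S f ∪ (BB S : Set (ZMod n)))

theorem isInv_B1 (f : ZMod n) : IsInv S false (B1 S f : Set (ZMod n)) :=
  IsInv.closure ((isInv_orb0 f).union isInv_BB)

theorem BB_le_B1 (f : ZMod n) : BB S ≤ B1 S f := fun x hx =>
  AddSubgroup.subset_closure (Or.inr hx)

theorem orb_sub_B1 (f : ZMod n) : orb0 S f ⊆ B1 S f := fun x hx =>
  AddSubgroup.subset_closure (Or.inl hx)

theorem f_mem_B1 (f : ZMod n) : f ∈ B1 S f := orb_sub_B1 f (self_mem_orb0 f)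

theorem B1_le_rad {i : Bool} {X : Set (ZMod n)} (hX : IsInv S i X) (hB : BB S ≤ rad X)
    {f : ZMod n} (hf : f ∈ rad X) : B1 S f ≤ rad X := by
  unfold B1
  rw [AddSubgroup.closure_le]
  rintro x (hx | hx)
  · exact orb0_subset (isInv_rad hX) hf hx
  · exact hB hx

namespace Ctx

variable {f : ZMod n}

theorem orb_notMem (c : Ctx S f) {x : ZMod n} (hx : x ∈ orb0 S f) : x ∉ BB S := fun h =>
  c.f_notMem (orb0_subset isInv_BB h (orb0_symm hx))

/-- `B₁ \ B = O(f) + B`. -/
theorem mem_B1 (c : Ctx S f) {x : ZMod n} (hx : x ∈ B1 S f) (hxB : x ∉ BB S) :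
    ∃ w, w ∈ orb0 S f ∧ x - w ∈ BB S := by
  by_contra hcon
  set O := addSet (orb0 S f) (BB S : Set (ZMod n)) with hO
  have hOinv : IsInv S false O := IsInv.addSet c.hS (isInv_orb0 f) isInv_BB
  set X : Set (ZMod n) := (B1 S f : Set (ZMod n)) \ ((BB S : Set (ZMod n)) ∪ O) with hXdef
  have hX : IsInv S false X := (isInv_B1 f).sdiff (isInv_BB.union hOinv)
  have hxX : x ∈ X := ⟨hx, fun h => h.elim hxB (fun h => hcon h)⟩
  have hrB : BB S ≤ rad X := by
    intro β hβ
    apply mem_rad_of
    rintro z ⟨hz1, hz2⟩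
    refine ⟨add_mem hz1 (BB_le_B1 f hβ), ?_⟩
    rintro (h | ⟨w, hw, hwz⟩)
    · apply hz2; left
      have := sub_mem h hβ
      simpa using this
    · apply hz2; right
      refine ⟨w, hw, ?_⟩
      have := sub_mem hwz hβ
      have e : z + β - w - β = z - w := by ring
      rw [e] at this
      exact this
  have hrf : f ∈ rad X := by
    apply mem_rad_of
    intro z hz
    by_contra hzf
    rcases c.P hX le_rfl hrB c.ff_mem hz hzf with h | h
    · exact hz.2 (Or.inl h)
    · exact hz.2 (Or.inr ⟨f, self_mem_orb0 f, h⟩)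
  have := B1_le_rad hX hrB hrf (neg_mem hx)
  have h0 := (this x).1 hxX
  rw [add_neg_cancel] at h0
  exact h0.2 (Or.inl (zero_mem _))

theorem exists_odd_B1 (c : Ctx S f) : ∃ d ∈ B1 S f, d ∉ ev n :=
  exists_odd (isInv_B1 f) (fun h => c.f_notMem (h (f_mem_B1 f)))

theorem half_B1 (c : Ctx S f) {w : ZMod n} (hw : w + w ∈ B1 S f) : w ∈ B1 S f := by
  obtain ⟨d, hd, hde⟩ := c.exists_odd_B1
  exact half_mem c.h2n hde hd hw

theorem ee_mem_B1 (c : Ctx S f) : ee n ∈ B1 S f := by
  obtain ⟨d, hd, hde⟩ := c.exists_odd_B1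
  exact ee_mem_of_odd c.h2n hde hd

/-- Transitivity on the cosets of `B` in `B₁ \ B`. -/
theorem trans_cosets (c : Ctx S f) {x : ZMod n} (hx : x ∈ B1 S f) (hxB : x ∉ BB S) :
    ∃ a b, IsTF S a b ∧ a 0 = 0 ∧ x - a f ∈ BB S := by
  obtain ⟨w, ⟨a, b, h, h0, rfl⟩, hw⟩ := c.mem_B1 hx hxB
  exact ⟨a, b, h, h0, hw⟩

end Ctx

/-- `W`, the basic `1`-set of `0`. -/
def WW (S : Set (ZMod n)) : Set (ZMod n) := orb1 S 0

/-- `Ŵ = W + B`. -/
def Wh (S : Set (ZMod n)) : Set (ZMod n) := addSet (WW S) (BB S : Set (ZMod n))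

theorem zero_mem_WW : (0 : ZMod n) ∈ WW S := self_mem_orb1 0

theorem isInv_WW : IsInv S true (WW S) := isInv_orb1 0

theorem WW_sub : WW S ⊆ Wh S := fun x hx => ⟨x, hx, by simp⟩

theorem BB_sub_Wh : (BB S : Set (ZMod n)) ⊆ Wh S := fun x hx =>
  ⟨0, zero_mem_WW, by simpa using hx⟩

theorem isInv_Wh (hS : Sym S) : IsInv S true (Wh S) := IsInv.addSet hS isInv_WW isInv_BB

theorem BB_le_rad_addSet (X : Set (ZMod n)) (K : AddSubgroup (ZMod n)) :
    K ≤ rad (addSet X (K : Set (ZMod n))) := by
  intro k hk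
  apply mem_rad_of
  rintro z ⟨w, hw, hz⟩
  refine ⟨w, hw, ?_⟩
  have := add_mem hz hk
  have e : z - w + k = z + k - w := by ring
  rw [e] at this
  exact this

theorem Wh_sub {X : Set (ZMod n)} (hX : IsInv S true X) (hB : BB S ≤ rad X) (h0 : 0 ∈ X) :
    Wh S ⊆ X := by
  rintro z ⟨w, hw, hz⟩
  have h1 : w ∈ X := orb1_subset hX h0 hw
  have := (hB hz w).1 h1
  simpa using this

theorem zero_mem_of_WW {X : Set (ZMod n)} (hX : IsInv S true X) {w : ZMod n} (hw : w ∈ WW S)
    (hwX : w ∈ X) : (0 : ZMod n) ∈ X := orb1_subset_of_mem hX hw hwX zero_mem_WW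

namespace Ctx

variable {f : ZMod n}

/-- Case (i) -/
theorem case_i (c : Ctx S f) (hf : f ∈ Wh S) {X : Set (ZMod n)} (hX : IsInv S true X)
    (hB : BB S ≤ rad X) : B1 S f ≤ rad X := by
  apply B1_le_rad hX hB
  apply mem_rad_of
  intro x hx
  by_contra hxf
  rcases c.P hX le_rfl hB c.ff_mem hx hxf with h | h
  · have h0 : (0 : ZMod n) ∈ X := by
      have := (hB (neg_mem h) x).1 hx
      simpa using this
    have hfX : f ∈ X := Wh_sub hX hB h0 hf
    have := (hB h f).1 hfX
    apply hxf
    rwa [add_comm]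
  · have hfX : f ∈ X := by
      have := (hB (neg_mem h) x).1 hx
      simpa using this
    obtain ⟨w, hw, hfw⟩ := hf
    have hwX : w ∈ X := by
      have := (hB (neg_mem hfw) f).1 hfX
      simpa using this
    have h0 : (0 : ZMod n) ∈ X := zero_mem_of_WW hX hw hwX
    apply hxf
    have hxB : x + f ∈ BB S := by
      have := add_mem h c.ff_mem
      have e : x - f + (f + f) = x + f := by ring
      rwa [e] at this
    have := (hB hxB 0).1 h0
    simpa using this

theorem sub_f_iff (c : Ctx S f) {x : ZMod n} : x - f ∈ BB S ↔ x + f ∈ BB S := by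
  constructor
  · intro h
    have := add_mem h c.ff_mem
    have e : x - f + (f + f) = x + f := by ring
    rwa [e] at this
  · intro h
    have := sub_mem h c.ff_mem
    have e : x + f - (f + f) = x - f := by ring
    rwa [e] at this

theorem arith {b m' b1' s : ℕ} (hb : 0 < b) (h : (b + m') * s = b * (b + m') + b1' * m')
    (hs1 : s ≤ b1') (hs2 : s ≤ b + m') : s = b + m' ∧ (m' = 0 ∨ b + m' = b1') := by
  have h1 : s * m' ≤ b1' * m' := Nat.mul_le_mul_right _ hs1
  have h2 : b * (b + m') ≤ b * s := by nlinarith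
  have h3 : b + m' ≤ s := Nat.le_of_mul_le_mul_left h2 hb
  have h4 : s = b + m' := le_antisymm hs2 h3
  refine ⟨h4, ?_⟩
  rw [h4] at h
  by_cases hm : m' = 0
  · exact Or.inl hm
  · right
    have h5 : (b + m') * m' = b1' * m' := by nlinarith
    exact Nat.eq_of_mul_eq_mul_right (Nat.pos_of_ne_zero hm) h5

theorem nk_const {X : Set (ZMod n)} (hS : Sym S) (hX : IsInv S true X)
    {K : AddSubgroup (ZMod n)} (hK : IsInv S false (K : Set (ZMod n))) (hBK : BB S ≤ K)
    {x : ZMod n} (hx : x ∈ Wh S) : nk X K x = nk X K 0 := by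
  obtain ⟨w, hw, hxw⟩ := hx
  have h1 : nk X K w = nk X K 0 :=
    orb1_subset (isInv_nk hS hX hK (fun k => k = nk X K 0)) (x := 0) rfl hw
  rw [← h1]
  unfold nk
  congr 1
  ext z
  simp only [Finset.mem_filter, Finset.mem_univ, true_and, SetLike.mem_coe]
  refine and_congr_right fun _ => ?_
  have hk := hBK hxw
  constructor
  · intro h
    have := add_mem h hk
    have e : z - x + (x - w) = z - w := by ring
    rwa [e] at this
  · intro h
    have := sub_mem h hk
    have e : z - w - (x - w) = z - x := by ring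
    rwa [e] at this

/-- Cases (ii) and (iii) -/
theorem case_ii_iii (c : Ctx S f) (hf : f ∉ Wh S) :
    (∀ x, x ∈ Wh S ↔ x ∈ BB S) ∨ (∀ x, x ∈ Wh S ↔ x ∈ B1 S f ∧ x - f ∉ BB S) := by
  have hWinv := isInv_Wh c.hS
  have hradB : BB S ≤ rad (Wh S) := BB_le_rad_addSet _ _
  set m := num (Wh S) with hm
  set b := num (BB S : Set (ZMod n)) with hb
  set b1 := num (B1 S f : Set (ZMod n)) with hb1
  set s := nk (Wh S) (B1 S f) 0 with hs
  have hbm : b ≤ m := num_le BB_sub_Wh
  have hbb1 : b ≤ b1 := num_le (BB_le_B1 f)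
  have hbpos : 0 < b := num_pos (zero_mem (BB S))
  -- `B + f` is disjoint from `Wh`
  have hBf : ∀ x, x - f ∈ BB S → x ∉ Wh S := by
    intro x hx hxW
    apply hf
    have := (hradB (neg_mem hx) x).1 hxW
    simpa using this
  -- the values of `cm`
  have hcB : ∀ g ∈ BB S, cm (Wh S) g = m := fun g hg => mem_rad_iff_cm.1 (hradB hg)
  have hcf : cm (Wh S) f + b = m := by
    have h1 : num ({z | z ∈ Wh S ∧ z + f ∈ Wh S} ∪ (BB S : Set (ZMod n))) =
        cm (Wh S) f + b := by
      rw [num_union_disj]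
      · congr 1
        unfold num cm
        congr 1
        ext z
        simp
      · rintro z ⟨hz1, hz2⟩ hzB
        apply hBf (z + f) (by simpa using hzB) hz2
    rw [← h1, hm]
    congr 1
    ext z
    simp only [Set.mem_union, SetLike.mem_coe]
    constructor
    · rintro (h | h)
      · exact h.1
      · exact BB_sub_Wh h
    · intro hz
      by_cases hzf : z + f ∈ Wh S
      · exact Or.inl ⟨hz, hzf⟩
      · right
        rcases c.P hWinv le_rfl hradB c.ff_mem hz hzf with h | h
        · exact h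
        · exact absurd hz (hBf z h)
  have hcO : ∀ g, g ∈ B1 S f → g ∉ BB S → cm (Wh S) g + b = m := by
    intro g hg hgB
    obtain ⟨w, hw, hgw⟩ := c.mem_B1 hg hgB
    have h1 : cm (Wh S) w = cm (Wh S) f :=
      orb0_subset (isInv_cm hWinv (fun k => k = cm (Wh S) f)) (x := f) rfl hw
    have h2 : cm (Wh S) g = cm (Wh S) w := by
      unfold cm
      congr 1
      ext z
      simp only [Finset.mem_filter, Finset.mem_univ, true_and]
      refine and_congr_right fun _ => ?_
      have := hradB hgw (z + w)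
      have e : z + w + (g - w) = z + g := by ring
      rw [e] at this
      exact this.symm
    rw [h2, h1, hcf]
  -- the double count
  have hdc := sum_cm (Wh S) (B1 S f : Set (ZMod n))
  have hR : ∑ x ∈ Finset.univ.filter (fun x => x ∈ Wh S), nk (Wh S) (B1 S f) x = m * s := by
    rw [Finset.sum_const_nat (m := s)]
    · rfl
    · intro x hx
      simp only [Finset.mem_filter, Finset.mem_univ, true_and] at hx
      exact nk_const c.hS hWinv (isInv_B1 f) (BB_le_B1 f) hx
  have hL : ∑ g ∈ Finset.univ.filter (fun g => g ∈ (B1 S f : Set (ZMod n))), cm (Wh S) g =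
      b * m + (b1 - b) * (m - b) := by
    rw [← Finset.sum_filter_add_sum_filter_not _ (fun g => g ∈ BB S)]
    congr 1
    · rw [Finset.sum_const_nat (m := m)]
      · congr 1
        rw [hb, num, Finset.filter_filter]
        congr 1
        ext z
        simp only [Finset.mem_filter, Finset.mem_univ, true_and, SetLike.mem_coe]
        exact ⟨fun h => h.2, fun h => ⟨BB_le_B1 f h, h⟩⟩
      · intro g hg
        exact hcB g (Finset.mem_filter.1 hg).2
    · rw [Finset.sum_const_nat (m := m - b)]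
      · congr 1
        have h1 := num_sdiff (X := (BB S : Set (ZMod n))) (Y := (B1 S f : Set (ZMod n)))
          (BB_le_B1 f)
        rw [← hb, ← hb1] at h1
        have h2 : (Finset.filter (fun g => ¬ g ∈ BB S)
            (Finset.univ.filter fun g => g ∈ (B1 S f : Set (ZMod n)))).card =
            num ((B1 S f : Set (ZMod n)) \ (BB S : Set (ZMod n))) := by
          unfold num
          rw [Finset.filter_filter]
          congr 1
          ext z
          simp
        rw [h2]
        omega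
      · intro g hg
        simp only [Finset.mem_filter, Finset.mem_univ, true_and, SetLike.mem_coe] at hg
        have := hcO g hg.1 hg.2
        omega
  rw [hR, hL] at hdc
  -- bounds for `s`
  have hs_num : s = num (Wh S ∩ (B1 S f : Set (ZMod n))) := by
    rw [hs]
    unfold nk num
    congr 1
    ext z
    simp
  have hnumBf : num {z : ZMod n | z - f ∈ BB S} = b :=
    num_translate (BB S : Set (ZMod n)) f
  have hnumT : num ((B1 S f : Set (ZMod n)) \ {z : ZMod n | z - f ∈ BB S}) + b = b1 := by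
    have := num_sdiff (X := {z : ZMod n | z - f ∈ BB S}) (Y := (B1 S f : Set (ZMod n)))
      (fun z hz => by
        have := add_mem (BB_le_B1 f hz) (f_mem_B1 f)
        simpa using this)
    rw [hnumBf] at this
    exact this
  have hs1 : s ≤ b1 - b := by
    have : s ≤ num ((B1 S f : Set (ZMod n)) \ {z : ZMod n | z - f ∈ BB S}) := by
      rw [hs_num]
      exact num_le fun z hz => ⟨hz.2, fun h => hBf z h hz.1⟩
    omega
  have hs2 : s ≤ m := by
    rw [hs_num]
    exact num_le fun z hz => hz.1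
  obtain ⟨m', hm'⟩ := Nat.exists_eq_add_of_le hbm
  obtain ⟨b1', hb1'⟩ := Nat.exists_eq_add_of_le hbb1
  rw [hm', hb1', Nat.add_sub_cancel_left, Nat.add_sub_cancel_left] at hdc
  rw [hb1', Nat.add_sub_cancel_left] at hs1
  rw [hm'] at hs2
  obtain ⟨h1, h2⟩ := arith hbpos hdc.symm hs1 hs2
  have hsub : Wh S ⊆ (B1 S f : Set (ZMod n)) := by
    have : Wh S ∩ (B1 S f : Set (ZMod n)) = Wh S := by
      apply eq_of_num_le Set.inter_subset_left
      rw [← hs_num, h1, ← hm']
    intro z hz
    rw [← this] at hz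
    exact hz.2
  rcases h2 with h2 | h2
  · left
    have : (BB S : Set (ZMod n)) = Wh S := by
      apply eq_of_num_le BB_sub_Wh
      rw [← hm, ← hb, hm', h2, add_zero]
    intro x
    rw [← this]; rfl
  · right
    have : Wh S = (B1 S f : Set (ZMod n)) \ {z : ZMod n | z - f ∈ BB S} := by
      apply eq_of_num_le
      · intro z hz
        exact ⟨hsub hz, fun h => hBf z h hz⟩
      · rw [← hm, hm', h2]
        omega
    intro x
    rw [this]; rfl

end Ctx

end Pool.Agent.Lib.MP_d9b9c4_co.Circ
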