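import Pool.Agent.Lib.MP_d9b9c4_co.Step1

/-!
# Step 2: the normal subgroup `N`, its fixed points, and `{e}` as a `0`-set
-/

set_option autoImplicit false
set_option linter.unusedSectionVars false
set_option linter.unusedVariables false

open scoped Classical

namespace Pool.Agent.Lib.MP_d9b9c4_co.Circ

variable {n : ℕ} [NeZero n] {S : Set (ZMod n)}

/-- Type II: every parity preserving TF-pair is trivial. -/
def TypeII (S : Set (ZMod n)) : Prop :=
  ∀ a b, IsTF S a b → (∀ x, a x - x ∈ ev n) → (∀ x, b x - x ∈ ev n) → a = b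

/-- The group `N` (given by its first components). -/
def InN (S : Set (ZMod n)) (ν : Equiv.Perm (ZMod n)) : Prop :=
  IsTF S ν ν ∧ ∀ x, ν x - x ∈ BB S

theorem N_of (hII : TypeII S) {a b : Equiv.Perm (ZMod n)} (h : IsTF S a b)
    (ha : ∀ x, a x - x ∈ BB S) (hb : ∀ x, b x - x ∈ BB S) : a = b ∧ InN S a := by
  have hab : a = b := hII a b h (fun x => BB_le (ha x)) (fun x => BB_le (hb x))
  subst hab
  exact ⟨rfl, h, ha⟩

theorem InN.trans {β : ZMod n} (hβ : β ∈ BB S) : InN S (Equiv.addRight β) :=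
  ⟨IsTF.trans β, fun x => by simpa using hβ⟩

/-- Normality. -/
theorem InN.conj (hII : TypeII S) (hS : Sym S) {ν : Equiv.Perm (ZMod n)} (hν : InN S ν)
    {a b : Equiv.Perm (ZMod n)} (h : IsTF S a b) :
    a * ν * a⁻¹ = b * ν * b⁻¹ ∧ InN S (a * ν * a⁻¹) := by
  apply N_of hII ((h.mul hν.1).mul h.inv)
  · intro x
    have := (isInv_BB.iff0 h (a⁻¹ x) (ν (a⁻¹ x))).1 (hν.2 _)
    simpa using this
  · intro x
    have := (isInv_BB.iff0' hS h (b⁻¹ x) (ν (b⁻¹ x))).1 (hν.2 _)
    simpa using this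

theorem InN.conj' (hII : TypeII S) (hS : Sym S) {ν : Equiv.Perm (ZMod n)} (hν : InN S ν)
    {a b : Equiv.Perm (ZMod n)} (h : IsTF S a b) :
    a⁻¹ * ν * a = b⁻¹ * ν * b ∧ InN S (a⁻¹ * ν * a) := by
  have := hν.conj hII hS h.inv
  simpa using this

/-- Conjugation by a translation (does not need type II). -/
theorem InN.conjT {ν : Equiv.Perm (ZMod n)} (hν : InN S ν) (x : ZMod n) :
    InN S (Equiv.addRight (-x) * ν * Equiv.addRight x) := by
  refine ⟨((IsTF.trans (-x)).mul hν.1).mul (IsTF.trans x), fun z => ?_⟩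
  have := hν.2 (z + x)
  have e : ν (z + x) + -x - z = ν (z + x) - (z + x) := by ring
  simp only [Equiv.Perm.coe_mul, Function.comp_apply, Equiv.coe_addRight]
  rw [e]
  exact this

/-- The fixed points of the stabiliser of `0` in `N`. -/
def DD (S : Set (ZMod n)) : Set (ZMod n) := {w | ∀ ν, InN S ν → ν 0 = 0 → ν w = w}

/-- If `ν` fixes `x` then it fixes `x + w` for every `w ∈ D`. -/
theorem DD_fix {w : ZMod n} (hw : w ∈ DD S) {ν : Equiv.Perm (ZMod n)} (hν : InN S ν)
    {x : ZMod n} (hx : ν x = x) : ν (x + w) = x + w := by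
  have h := hw _ (hν.conjT x) (by simp [hx])
  simp only [Equiv.Perm.coe_mul, Function.comp_apply, Equiv.coe_addRight] at h
  have e : ν (w + x) = w + x := by
    calc ν (w + x) = ν (w + x) + -x + x := by ring
      _ = w + x := by rw [h]
  rw [add_comm x w]; exact e

theorem DD_add {w v : ZMod n} (hw : w ∈ DD S) (hv : v ∈ DD S) : w + v ∈ DD S :=
  fun ν hν h0 => DD_fix hv hν (hw ν hν h0)

theorem DD_nsmul {w : ZMod n} (hw : w ∈ DD S) (k : ℕ) : k • w ∈ DD S := by
  induction k with
  | zero => rw [zero_smul]; exact fun ν _ h0 => h0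
  | succ k ih => rw [succ_nsmul]; exact DD_add ih hw

/-- `D` as a subgroup. -/
def DS (S : Set (ZMod n)) : AddSubgroup (ZMod n) where
  carrier := DD S
  zero_mem' := fun ν _ h0 => h0
  add_mem' := DD_add
  neg_mem' := by
    intro w hw
    have hn : n ≠ 0 := NeZero.ne n
    have e : (n - 1) • w = -w := by
      rw [eq_neg_iff_add_eq_zero, ← succ_nsmul, Nat.sub_add_cancel (Nat.pos_of_ne_zero hn)]
      simp
    rw [← e]
    exact DD_nsmul hw _

theorem mem_DS {w : ZMod n} : w ∈ DS S ↔ ∀ ν, InN S ν → ν 0 = 0 → ν w = w := Iff.rfl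

theorem isInv_DS (hII : TypeII S) (hS : Sym S) : IsInv S false (DS S : Set (ZMod n)) := by
  have key : ∀ a b, IsTF S a b → ∀ x y, y - x ∈ DS S → a y - a x ∈ DS S := by
    intro a b h x y hxy ν hν h0
    -- `μ = t_{a x} ν t_{-a x}` fixes `a x`
    have hμ := hν.conjT (-(a x))
    set μ := Equiv.addRight (- -(a x)) * ν * Equiv.addRight (-(a x)) with hμdef
    have hμx : μ (a x) = a x := by simp [hμdef, h0]
    have hμ' := (hμ.conj' hII hS h).2
    have h1 : (a⁻¹ * μ * a) x = x := by simp [hμx]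
    have h2 := DD_fix hxy hμ' h1
    rw [add_sub_cancel] at h2
    have h3 : μ (a y) = a y := by
      simp only [Equiv.Perm.coe_mul, Function.comp_apply] at h2
      rwa [Equiv.Perm.inv_eq_iff_eq] at h2
    have h4 : ν (a y - a x) + a x = a y := by
      simpa [hμdef, sub_eq_add_neg] using h3
    exact eq_sub_of_add_eq h4
  intro a b h x y
  refine ⟨key a b h x y, fun hh => ?_⟩
  have := key _ _ h.inv _ _ hh
  simpa using this

theorem WW_sub_DD (hII : TypeII S) (hS : Sym S) {w : ZMod n} (hw : w ∈ WW S) : w ∈ DS S := by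
  obtain ⟨a, b, h, h0, rfl⟩ := hw
  intro ν hν hν0
  have h1 := (hν.conj' hII hS h).1
  have h2 := congrArg (fun p : Equiv.Perm (ZMod n) => p 0) h1
  simp only [Equiv.Perm.coe_mul, Function.comp_apply, h0, hν0] at h2
  have h3 : a⁻¹ 0 = 0 := by rw [Equiv.Perm.inv_eq_iff_eq, h0]
  rw [h3] at h2
  have h4 := h2.symm
  rw [Equiv.Perm.inv_eq_iff_eq] at h4
  exact h4

/-- If `W ⊆ B` then `b x ∈ {a x, a x + e}` for all TF-pairs, and the pairs with `≠` give
`e ∈ B`. -/
theorem W_sub_B (h2n : 2 ∣ n) (hII : TypeII S) (hS : Sym S) (hW : ∀ w ∈ WW S, w ∈ BB S)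
    {a b : Equiv.Perm (ZMod n)} (h : IsTF S a b) (x : ZMod n) :
    b x = a x ∨ (b x = a x + ee n ∧ ee n ∈ BB S) := by
  have hd : ∀ c d, IsTF S c d → ∀ z, d z - c z ∈ BB S := fun c d hcd z => by
    have := (isInv_WW.iff1 hcd z z).1 (by rw [sub_self]; exact zero_mem_WW)
    exact hW _ this
  have hTF : IsTF S (b * a⁻¹) (a * b⁻¹) := (h.swap hS).mul h.inv
  have hm := N_of hII hTF (fun z => by
    have := hd a b h (a⁻¹ z)
    simpa using this) (fun z => by
    have := hd b a (h.swap hS) (b⁻¹ z)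
    simpa using this)
  obtain ⟨hm1, hm2⟩ := hm
  set m := b * a⁻¹ with hmdef
  have hmm : ∀ z, m (m z) = z := by
    intro z
    have h1 : m (m z) = m ((a * b⁻¹) z) := by rw [hm1]
    rw [h1, hmdef]
    simp
  -- `m` commutes with `N`
  have hcomm : ∀ β ∈ BB S, ∀ z, m (z + β) = m z + β := by
    intro β hβ z
    have h1 := ((InN.trans hβ).conj hII hS (h.inv)).1
    -- a⁻¹ t a = b⁻¹ t b
    have h2 := congrArg (fun p : Equiv.Perm (ZMod n) => b (p (a⁻¹ z))) h1
    rw [hmdef]
    simpa using h2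
  set y := a x with hy
  have hmy : m y = b x := by rw [hmdef, hy]; simp
  have hβ : m y - y ∈ BB S := hm2.2 y
  set β := m y - y with hβdef
  have h3 : m (y + β) = m y + β := hcomm β hβ y
  have h4 : y + β = m y := by rw [hβdef]; ring
  rw [h4, hmm] at h3
  have h5 : β + β = 0 := by
    have : y = y + β + β := by rw [h4]; exact h3
    have e : y + (β + β) = y + 0 := by rw [add_zero, ← add_assoc]; exact this.symm
    exact add_left_cancel e
  rcases two_tor h2n h5 with h6 | h6
  · left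
    rw [← hmy, ← h4, h6, add_zero]
  · right
    refine ⟨?_, ?_⟩
    · rw [← hmy, ← h4, h6]
    · rw [← h6]; exact hβ

/-- In the case `W ⊆ B`: `e ∈ B` and `W = {0, e}`. -/
theorem W_eq (h2n : 2 ∣ n) (hII : TypeII S) (hS : Sym S) (hW : ∀ w ∈ WW S, w ∈ BB S)
    (hnt : ∃ a b, IsTF S a b ∧ a ≠ b) :
    ee n ∈ BB S ∧ ∀ w, w ∈ WW S ↔ w = 0 ∨ w = ee n := by
  obtain ⟨a, b, h, hab⟩ := hnt
  have hx : ∃ x, b x ≠ a x := by
    by_contra hcon
    push Not at hcon
    exact hab (Equiv.ext fun x => (hcon x).symm)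
  obtain ⟨x, hx⟩ := hx
  rcases W_sub_B h2n hII hS hW h x with h1 | ⟨h1, h2⟩
  · exact absurd h1 hx
  refine ⟨h2, fun w => ⟨?_, ?_⟩⟩
  · rintro ⟨c, d, hcd, hc0, rfl⟩
    rcases W_sub_B h2n hII hS hW hcd 0 with h3 | ⟨h3, _⟩
    · left; rw [h3, hc0]
    · right; rw [h3, hc0, zero_add]
  · rintro (rfl | rfl)
    · exact zero_mem_WW
    · refine ⟨recen a a x, recen a b x, h.recen x, by simp, ?_⟩
      rw [recen_apply, zero_add, h1]; ring

/-- **Step 2**: if `e ∈ B` then `{e}` is a `0`-set. -/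
theorem isInv_ee (h2n : 2 ∣ n) (hII : TypeII S) (hS : Sym S)
    (hnt : ∃ a b, IsTF S a b ∧ a ≠ b) (he : ee n ∈ BB S) : IsInv S false ({ee n} : Set (ZMod n)) := by
  have key : ∀ a b, IsTF S a b → a 0 = 0 → a (ee n) = ee n := by
    intro a b h h0
    by_cases hW : ∀ w ∈ WW S, w ∈ BB S
    · obtain ⟨_, hWW⟩ := W_eq h2n hII hS hW hnt
      have h1 : b (ee n) ∈ WW S := (isInv_WW.act1 h h0 _).1 ((hWW _).2 (Or.inr rfl))
      have h2 : a (ee n) = 0 ∨ a (ee n) = ee n := by
        rcases W_sub_B h2n hII hS hW h (ee n) with h3 | ⟨h3, _⟩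
        · rw [← h3]; exact (hWW _).1 h1
        · rcases (hWW _).1 h1 with h4 | h4
          · right
            have : a (ee n) = 0 - ee n := by rw [← h4, h3]; ring
            rw [this, zero_sub, neg_ee h2n]
          · left
            have : a (ee n) + ee n = 0 + ee n := by rw [← h3, h4, zero_add]
            exact add_right_cancel this
      rcases h2 with h2 | h2
      · exfalso
        rw [← h0] at h2
        exact ee_ne h2n (a.injective h2)
      · exact h2
    · push Not at hW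
      obtain ⟨w, hw, hwB⟩ := hW
      have hD : ¬ DS S ≤ BB S := fun hh => hwB (hh (WW_sub_DD hII hS hw))
      obtain ⟨d, hdD, hde⟩ := exists_odd (isInv_DS hII hS) hD
      have heD : ee n ∈ DS S := ee_mem_of_odd h2n hde hdD
      have haB : a (ee n) ∈ BB S := (isInv_BB.act0 h h0 _).1 he
      have haD : a (ee n) ∈ DS S := ((isInv_DS hII hS).act0 h h0 _).1 heD
      have hν := ((InN.trans he).conj hII hS h).2
      set ν := a * Equiv.addRight (ee n) * a⁻¹ with hνdef
      have h3 : a.symm 0 = 0 := by rw [Equiv.symm_apply_eq, h0]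
      have hν0 : ν 0 = a (ee n) := by simp [hνdef, h3]
      have hμ : InN S (Equiv.addRight (-(a (ee n))) * ν) := by
        refine ⟨(IsTF.trans _).mul hν.1, fun x => ?_⟩
        have := sub_mem (hν.2 x) haB
        have e : ν x + -(a (ee n)) - x = ν x - x - a (ee n) := by ring
        simp only [Equiv.Perm.coe_mul, Function.comp_apply, Equiv.coe_addRight]
        rw [e]; exact this
      have hfix := haD _ hμ (by simp [hν0])
      simp only [Equiv.Perm.coe_mul, Function.comp_apply, Equiv.coe_addRight] at hfix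
      have hνa : ν (a (ee n)) = 0 := by
        simp [hνdef, ee_add_ee h2n, h0]
      rw [hνa, zero_add] at hfix
      have h5 : a (ee n) + a (ee n) = 0 := by
        nth_rewrite 1 [← hfix]
        simp
      rcases two_tor h2n h5 with h6 | h6
      · exfalso
        rw [← h0] at h6
        exact ee_ne h2n (a.injective h6)
      · exact h6
  have key2 : ∀ a b, IsTF S a b → ∀ x y, y - x = ee n → a y - a x = ee n := by
    intro a b h x y hxy
    have := key _ _ (h.recen x) (by simp)
    rw [recen_apply, ← hxy] at this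
    rw [← hxy]
    simpa using this
  intro a b h x y
  simp only [Set.mem_singleton_iff, cond_false]
  refine ⟨key2 a b h x y, fun hh => ?_⟩
  have := key2 _ _ h.inv _ _ hh
  simpa using this

end Pool.Agent.Lib.MP_d9b9c4_co.Circ
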