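import Pool.Agent.Lib.MP_d9b9c4_co.TL

/-!
# Step 3: `e ∈ B` is impossible
-/

set_option autoImplicit false
set_option linter.unusedSectionVars false
set_option linter.unusedVariables false

open scoped Classical

namespace Pool.Agent.Lib.MP_d9b9c4_co.Circ

variable {n : ℕ} [NeZero n] {S : Set (ZMod n)} {f : ZMod n}

/-- A subgroup `H` of `ZMod n` contains all `x` with `|H| x = 0`. -/
theorem mem_of_card_nsmul (H : AddSubgroup (ZMod n)) {x : ZMod n}
    (h : Nat.card H • x = 0) : x ∈ H := by
  have key : (H : Set (ZMod n)).toFinset =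
      Finset.univ.filter fun x : ZMod n => Nat.card H • x = 0 := by
    apply Finset.eq_of_subset_of_card_le
    · intro x hx
      simp only [Set.mem_toFinset, SetLike.mem_coe] at hx
      simp only [Finset.mem_filter, Finset.mem_univ, true_and]
      have := card_nsmul_eq_zero' (G := H) (x := ⟨x, hx⟩)
      exact congrArg Subtype.val this
    · have h1 := IsAddCyclic.card_nsmul_eq_zero_le (α := ZMod n) (n := Nat.card H)
        Nat.card_pos
      refine h1.trans ?_
      rw [Set.toFinset_card, Nat.card_eq_fintype_card]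
      exact le_of_eq rfl
  have h2 : x ∈ Finset.univ.filter fun x : ZMod n => Nat.card H • x = 0 := by
    simpa using h
  rw [← key] at h2
  simpa using h2

theorem card_dvd_of_free {α : Type*} [Fintype α] (σ : Equiv.Perm α) (k : ℕ)
    (h1 : ∀ x, (σ ^ 2 ^ k) x ≠ x) (h2 : ∀ x, (σ ^ 2 ^ (k + 1)) x = x) :
    2 ^ (k + 1) ∣ Fintype.card α := by
  classical
  have hper : ∀ x, Function.minimalPeriod (fun y : α => σ • y) x = 2 ^ (k + 1) := by
    intro x
    apply Function.minimalPeriod_eq_prime_pow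
    · intro h
      apply h1 x
      have := h
      unfold Function.IsPeriodicPt Function.IsFixedPt at this
      rw [smul_iterate] at this
      exact this
    · unfold Function.IsPeriodicPt Function.IsFixedPt
      rw [smul_iterate]
      exact h2 x
  have hcard := Fintype.card_congr (MulAction.selfEquivSigmaOrbits (Subgroup.zpowers σ) α)
  rw [Fintype.card_sigma] at hcard
  rw [hcard]
  apply Finset.dvd_sum
  intro ω _
  have := MulAction.minimalPeriod_eq_card (a := σ) (b := ω.out)
  rw [hper] at this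
  rw [this]

/-- A `0`-subgroup containing `W` is a `1`-set. -/
theorem isInv_true_of {H : AddSubgroup (ZMod n)} (hH : IsInv S false (H : Set (ZMod n)))
    (hW : ∀ w ∈ WW S, w ∈ H) : IsInv S true (H : Set (ZMod n)) := by
  intro a b h x y
  have h1 : b y - a y ∈ H := hW _ ((isInv_WW.iff1 h y y).1 (by rw [sub_self]; exact zero_mem_WW))
  have h2 := hH.iff0 h x y
  simp only [cond_true, SetLike.mem_coe] at h2 ⊢
  rw [h2]
  constructor
  · intro h3
    have := add_mem h1 h3
    have e : b y - a y + (a y - a x) = b y - a x := by ring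
    rwa [e] at this
  · intro h3
    have := sub_mem h3 h1
    have e : b y - a x - (b y - a y) = a y - a x := by ring
    rwa [e] at this

/-- An `i`-set disjoint from `B₁` is invariant under all elements of `2`-power order. -/
theorem Ctx.pow_mem_rad (c : Ctx S f) {i : Bool} {X : Set (ZMod n)} (hX : IsInv S i X)
    (hXB : ∀ x ∈ X, x ∉ B1 S f) {k : ℕ} {u : ZMod n} (hu : 2 ^ k • u = 0) : u ∈ rad X := by
  refine two_pow_mem (K := rad X) (B := ⊤) ?_ k u (AddSubgroup.mem_top u) hu
  intro v _ hvv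
  by_contra hv
  have hK : AddSubgroup.zmultiples (v + v) ≤ rad X := by
    rw [AddSubgroup.zmultiples_le]; exact hvv
  have hKe : AddSubgroup.zmultiples (v + v) ≤ ev n := by
    rw [AddSubgroup.zmultiples_le]; exact add_self_mem_ev v
  apply hv
  apply mem_rad_of
  intro x hx
  by_contra hxv
  have := schurB c.h2n c.hS hX hKe hK (fun h => hv (hK h))
    (AddSubgroup.mem_zmultiples (v + v)) hx hxv
  exact hXB x hx (c.half_B1 (BB_le_B1 f this))

theorem Ctx.f_mem_rad (c : Ctx S f) {i : Bool} {X : Set (ZMod n)} (hX : IsInv S i X)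
    (hXB : ∀ x ∈ X, x ∉ B1 S f) : f ∈ rad X := by
  obtain ⟨k, hk⟩ := c.f_pow
  exact c.pow_mem_rad hX hXB hk

/-- The standing assumptions in Step 3. -/
structure Ctx3 (S : Set (ZMod n)) (f : ZMod n) : Prop where
  c : Ctx S f
  hII : TypeII S
  hnt : ∃ a b, IsTF S a b ∧ a ≠ b
  he : ee n ∈ BB S
  htf : ∃ s ∈ S, s + ee n ∉ S

/-- `S_e` -/
def Se (S : Set (ZMod n)) : Set (ZMod n) := {s | s ∈ S ∧ s + ee n ∉ S}

/-- `T = S \ B₁` -/
def TT (S : Set (ZMod n)) (f : ZMod n) : Set (ZMod n) := S \ (B1 S f : Set (ZMod n))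

namespace Ctx3

theorem add_ee (c : Ctx3 S f) {a b : Equiv.Perm (ZMod n)} (h : IsTF S a b) (x : ZMod n) :
    a (x + ee n) = a x + ee n := by
  have h1 := isInv_ee c.c.h2n c.hII c.c.hS c.hnt c.he
  have h2 := (h1.iff0 h x (x + ee n)).1 (by simp)
  have h3 : a (x + ee n) - a x = ee n := h2
  exact sub_eq_iff_eq_add'.1 h3

theorem add_ee' (c : Ctx3 S f) {a b : Equiv.Perm (ZMod n)} (h : IsTF S a b) (x : ZMod n) :
    b (x + ee n) = b x + ee n := c.add_ee (h.swap c.c.hS) x

theorem inv_Se (c : Ctx3 S f) : IsInv S true (Se S) := by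
  intro a b h x y
  change (y - x ∈ S ∧ y - x + ee n ∉ S) ↔ (b y - a x ∈ S ∧ b y - a x + ee n ∉ S)
  have h1 := h x y
  have h2 := h x (y + ee n)
  rw [c.add_ee' h] at h2
  have e1 : y + ee n - x = y - x + ee n := by ring
  have e2 : b y + ee n - a x = b y - a x + ee n := by ring
  rw [e1, e2] at h2
  rw [h1, h2]

theorem Se_sub (c : Ctx3 S f) {s : ZMod n} (hs : s ∈ Se S) : s ∈ BB S ∨ s - f ∈ BB S :=
  c.c.Pe isInv_self hs.1 hs.2

theorem Se_sub_B1 (c : Ctx3 S f) {s : ZMod n} (hs : s ∈ Se S) : s ∈ B1 S f := by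
  rcases c.Se_sub hs with h | h
  · exact BB_le_B1 f h
  · have := add_mem (BB_le_B1 f h) (f_mem_B1 (S := S) f)
    simpa using this

theorem W_sub_B1 (c : Ctx3 S f) : ∀ w ∈ WW S, w ∈ B1 S f := by
  rintro w ⟨a, b, h, h0, rfl⟩
  obtain ⟨s, hs1, hs2⟩ := c.htf
  have hs : s ∈ Se S := ⟨hs1, hs2⟩
  have h1 := c.Se_sub_B1 hs
  have h2 := c.Se_sub_B1 ((c.inv_Se.act1 h h0 s).1 hs)
  have h3 := ((isInv_B1 f).iff0' c.c.hS h 0 s).1 (by simpa using h1)
  have := sub_mem h2 h3
  simpa using this

theorem inv_B1 (c : Ctx3 S f) : IsInv S true (B1 S f : Set (ZMod n)) :=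
  isInv_true_of (isInv_B1 f) c.W_sub_B1

theorem inv_TT (c : Ctx3 S f) : IsInv S true (TT S f) := isInv_self.sdiff c.inv_B1

theorem f_mem_rad_TT (c : Ctx3 S f) : f ∈ rad (TT S f) :=
  c.c.f_mem_rad c.inv_TT (fun _ hx => hx.2)

/-- membership in `S` outside `B₁` -/
theorem mem_S_iff_TT {x : ZMod n} (hx : x ∉ B1 S f) : x ∈ S ↔ x ∈ TT S f :=
  ⟨fun h => ⟨h, hx⟩, fun h => h.1⟩

/-- Coset-wise translations. -/
theorem tau (c : Ctx3 S f) (κ : ZMod n → ZMod n) (hκ : ∀ x y, y - x ∈ B1 S f → κ y = κ x)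
    (hκ1 : ∀ x, κ x ∈ B1 S f) (hκ2 : ∀ x, κ x ∈ rad (TT S f)) :
    ∃ τ : Equiv.Perm (ZMod n), (∀ x, τ x = x + κ x) ∧ IsTF S τ τ := by
  have hinj : Function.Injective fun x => x + κ x := by
    intro x y hxy
    have hxy' : x + κ x = y + κ y := hxy
    have h1 : y - x ∈ B1 S f := by
      have := sub_mem (hκ1 x) (hκ1 y)
      have e : κ x - κ y = y - x + ((x + κ x) - (y + κ y)) := by ring
      rw [e, hxy', sub_self, add_zero] at this
      exact this
    rw [hκ x y h1] at hxy'
    exact add_right_cancel hxy'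
  refine ⟨Equiv.ofBijective _ (Finite.injective_iff_bijective.1 hinj), fun x => rfl, ?_⟩
  intro x y
  change y - x ∈ S ↔ (y + κ y) - (x + κ x) ∈ S
  by_cases h : y - x ∈ B1 S f
  · rw [hκ x y h]
    have e : y + κ x - (x + κ x) = y - x := by ring
    rw [e]
  · have e : (y + κ y) - (x + κ x) = y - x + (κ y - κ x) := by ring
    have h' : (y + κ y) - (x + κ x) ∉ B1 S f := by
      rw [e]
      intro hh
      apply h
      have := sub_mem hh (sub_mem (hκ1 y) (hκ1 x))
      simpa using this
    rw [mem_S_iff_TT h, mem_S_iff_TT h', e]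
    exact (sub_mem (hκ2 y) (hκ2 x)) (y - x)

/-- Step 3a. -/
theorem step3a (c : Ctx3 S f) (hq : ∀ h ∈ B1 S f, h ∈ BB S ∨ h - f ∈ BB S) : False := by
  have h2n := c.c.h2n
  -- `f` is odd
  have hfo : f ∉ ev n := by
    obtain ⟨d, hd, hde⟩ := c.c.exists_odd_B1
    rcases hq d hd with h | h
    · exact absurd (BB_le h) hde
    · intro hf
      apply hde
      have := add_mem (BB_le h) hf
      simpa using this
  -- inside `B₁`, `B` = even elements
  have hB1ev : ∀ x ∈ B1 S f, (x ∈ ev n ↔ x ∈ BB S) := by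
    intro x hx
    refine ⟨fun h => ?_, fun h => BB_le h⟩
    rcases hq x hx with h1 | h1
    · exact h1
    · exfalso
      apply hfo
      have := sub_mem h (BB_le h1)
      simpa using this
  have hfB1 : f ∈ B1 S f := f_mem_B1 f
  have hfT := c.f_mem_rad_TT
  -- parity of `p x - x`
  have hpar : ∀ a b, IsTF S a b → ∀ x y, y - x ∈ B1 S f → (a y - y ∈ ev n ↔ a x - x ∈ ev n) := by
    intro a b h x y hxy
    have h1 := ((isInv_B1 f).iff0 h x y).1 hxy
    have h2 := isInv_BB.iff0 h x y
    have h3 : a y - a x ∈ ev n ↔ y - x ∈ ev n := by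
      rw [hB1ev _ h1, hB1ev _ hxy]; exact h2.symm
    by_cases h4 : y - x ∈ ev n
    · have h5 := h3.2 h4
      have h6 := sub_mem h5 h4
      constructor
      · intro h7
        have := sub_mem h7 h6
        have e : a y - y - (a y - a x - (y - x)) = a x - x := by ring
        rwa [e] at this
      · intro h7
        have := add_mem h7 h6
        have e : a x - x + (a y - a x - (y - x)) = a y - y := by ring
        rwa [e] at this
    · have h5 : a y - a x ∉ ev n := fun hh => h4 (h3.1 hh)
      have h6 := odd_sub_odd h2n h5 h4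
      constructor
      · intro h7
        have := sub_mem h7 h6
        have e : a y - y - (a y - a x - (y - x)) = a x - x := by ring
        rwa [e] at this
      · intro h7
        have := add_mem h7 h6
        have e : a x - x + (a y - a x - (y - x)) = a y - y := by ring
        rwa [e] at this
  -- a function fixing the parity
  have hfix : ∀ z : ZMod n, z + (if z ∈ ev n then 0 else f) ∈ ev n := by
    intro z
    split_ifs with h
    · simpa using h
    · exact odd_add_odd h2n h hfo
  have hfix' : ∀ z : ZMod n, z - (if z ∈ ev n then 0 else f) ∈ ev n := by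
    intro z
    split_ifs with h
    · simpa using h
    · exact odd_sub_odd h2n h hfo
  obtain ⟨a, b, hab, hne⟩ := c.hnt
  -- step A
  obtain ⟨a1, b1, h1, hne1, ha1⟩ : ∃ a1 b1, IsTF S a1 b1 ∧ a1 ≠ b1 ∧ ∀ x, a1 x - x ∈ ev n := by
    obtain ⟨τ, hτ, hτTF⟩ := c.tau
      (fun z => if z - a.symm z ∈ ev n then 0 else f) (by
        intro x y hxy
        have h3 : a.symm y - a.symm x ∈ B1 S f := by
          have := ((isInv_B1 f).iff0 hab (a.symm x) (a.symm y)).2 (by simpa using hxy)
          simpa using this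
        have := hpar a b hab _ _ h3
        simp only [Equiv.apply_symm_apply] at this
        by_cases h4 : x - a.symm x ∈ ev n
        · rw [if_pos h4, if_pos (this.2 h4)]
        · rw [if_neg h4, if_neg (fun h => h4 (this.1 h))])
      (by intro x; split_ifs; exacts [zero_mem _, hfB1])
      (by intro x; split_ifs; exacts [zero_mem _, hfT])
    refine ⟨τ * a, τ * b, hτTF.mul hab, fun h => hne (mul_left_cancel h), fun x => ?_⟩
    rw [Equiv.Perm.mul_apply, hτ]
    simp only [Equiv.symm_apply_apply]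
    have := hfix (a x - x)
    have e : a x - x + (if a x - x ∈ ev n then 0 else f) =
      a x + (if a x - x ∈ ev n then 0 else f) - x := by ring
    rwa [e] at this
  -- `χ`
  set χ : ZMod n → ZMod n := fun x => if b1 x - x ∈ ev n then 0 else f with hχ
  have hχ1 : ∀ x y, y - x ∈ B1 S f → χ y = χ x := by
    intro x y hxy
    have := hpar b1 a1 (h1.swap c.c.hS) x y hxy
    simp only [hχ]
    by_cases h4 : b1 x - x ∈ ev n
    · rw [if_pos h4, if_pos (this.2 h4)]
    · rw [if_neg h4, if_neg (fun h => h4 (this.1 h))]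
  have hχB : ∀ x, χ x ∈ B1 S f := by
    intro x; simp only [hχ]; split_ifs; exacts [zero_mem _, hfB1]
  have hχT : ∀ x, χ x ∈ rad (TT S f) := by
    intro x; simp only [hχ]; split_ifs; exacts [zero_mem _, hfT]
  -- `τ`
  obtain ⟨τ, hτ, hτTF⟩ := c.tau (fun z => - χ (a1.symm z)) (by
      intro x y hxy
      have h3 : a1.symm y - a1.symm x ∈ B1 S f := by
        have := ((isInv_B1 f).iff0 h1 (a1.symm x) (a1.symm y)).2 (by simpa using hxy)
        simpa using this
      rw [hχ1 _ _ h3])
    (fun x => neg_mem (hχB _)) (fun x => neg_mem (hχT _))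
  have hτa : ∀ x, τ (a1 x) = a1 x - χ x := by
    intro x; rw [hτ]; simp [sub_eq_add_neg]
  have hτb : ∀ x, τ (b1 x) = b1 x - χ x := by
    intro x
    rw [hτ]
    have h3 : a1.symm (b1 x) - x ∈ B1 S f := by
      have := (c.inv_B1.iff1' c.c.hS h1 x (a1.symm (b1 x))).2 (by simp)
      exact this
    rw [hχ1 _ _ h3, sub_eq_add_neg]
  -- `c`
  set p := a1⁻¹ * (τ * b1) with hp
  set p' := b1⁻¹ * (τ * a1) with hp'
  have hpTF : IsTF S p p' := h1.inv.mul (hτTF.mul (h1.swap c.c.hS))
  have hap : ∀ x, a1 (p x) = b1 x - χ x := by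
    intro x; simp [hp, hτb]
  have hbp : ∀ x, b1 (p' x) = a1 x - χ x := by
    intro x; simp [hp', hτa]
  clear_value p p'
  have hpe : ∀ x, p x - x ∈ ev n := by
    intro x
    have h3 := ha1 (p x)
    rw [hap] at h3
    have h4 := hfix' (b1 x - x)
    have h5 : (if b1 x - x ∈ ev n then 0 else f) = χ x := rfl
    rw [h5] at h4
    have := sub_mem h4 h3
    have e : b1 x - x - χ x - (b1 x - χ x - p x) = p x - x := by ring
    rwa [e] at this
  have hp'B1 : ∀ x, p' x - x ∈ B1 S f := by
    intro x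
    rw [SetLike.mem_coe.symm, c.inv_B1.iff1 h1 x (p' x), hbp]
    have := neg_mem (hχB x)
    have e : a1 x - χ x - a1 x = - χ x := by ring
    rw [e]; exact this
  have hp'e : ∀ x, p' x - x ∈ ev n := by
    intro x
    have h3 := hfix' (b1 (p' x) - p' x)
    have h5 : (if b1 (p' x) - p' x ∈ ev n then 0 else f) = χ (p' x) := rfl
    rw [h5, hχ1 _ _ (hp'B1 x), hbp] at h3
    have h4 := ha1 x
    have h6 : χ x + χ x ∈ ev n := add_self_mem_ev _
    have := sub_mem (sub_mem h4 h3) h6
    have e : a1 x - x - (a1 x - χ x - p' x - χ x) - (χ x + χ x) = p' x - x := by ring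
    rwa [e] at this
  have hpp : p = p' := c.hII p p' hpTF hpe hp'e
  have hpB1 : ∀ x, p x - x ∈ B1 S f := by rw [hpp]; exact hp'B1
  have happ : ∀ x, a1 (p (p x)) = a1 x - (χ x + χ x) := by
    intro x
    rw [hap, hχ1 _ _ (hpB1 x)]
    nth_rewrite 1 [hpp]
    rw [hbp]; ring
  -- a point with `χ ≠ 0`
  obtain ⟨z, hz⟩ : ∃ z, b1 z - z ∉ ev n := by
    by_contra hcon
    push Not at hcon
    exact hne1 (c.hII a1 b1 h1 ha1 hcon)
  have hχz : χ z = f := by simp only [hχ]; rw [if_neg hz]
  -- the coset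
  set Q : Set (ZMod n) := {x | x - z ∈ BB S} with hQ
  have hQχ : ∀ x ∈ Q, χ x = f := by
    intro x hx
    rw [← hχz]
    exact hχ1 _ _ (BB_le_B1 f hx)
  have hpBB : ∀ x, p x - x ∈ BB S := fun x => (hB1ev _ (hpB1 x)).1 (hpe x)
  have hQp : ∀ x, x ∈ Q ↔ p x ∈ Q := by
    intro x
    simp only [hQ, Set.mem_ofPred_eq]
    constructor
    · intro h
      have := add_mem h (hpBB x)
      have e : x - z + (p x - x) = p x - z := by ring
      rwa [e] at this
    · intro h
      have := sub_mem h (hpBB x)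
      have e : p x - z - (p x - x) = x - z := by ring
      rwa [e] at this
  -- powers of `p`
  have hQpow : ∀ (j : ℕ) x, x ∈ Q → (p ^ j) x ∈ Q := by
    intro j
    induction j with
    | zero => intro x hx; simpa using hx
    | succ j ih =>
      intro x hx
      rw [pow_succ', Equiv.Perm.mul_apply]
      exact (hQp _).1 (ih x hx)
  have hpow : ∀ (j : ℕ) x, x ∈ Q → a1 ((p ^ (2 * j)) x) = a1 x - (2 * j) • f := by
    intro j
    induction j with
    | zero => intro x _; simp
    | succ j ih =>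
      intro x hx
      have e1 : p ^ (2 * (j + 1)) = p * (p * p ^ (2 * j)) := by
        rw [← pow_succ', ← pow_succ']; ring_nf
      rw [e1, Equiv.Perm.mul_apply, Equiv.Perm.mul_apply, happ, hQχ _ (hQpow _ _ hx), ih x hx]
      have e2 : (2 * (j + 1)) • f = (2 * j) • f + (f + f) := by
        rw [mul_add, add_smul, mul_one, two_smul ℕ f]
      rw [e2]; ring
  -- the order of `f`
  obtain ⟨k, hk1, hk2⟩ : ∃ k : ℕ, 2 ^ k • f ≠ 0 ∧ 2 ^ (k + 1) • f = 0 := by
    by_contra hcon
    push Not at hcon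
    obtain ⟨K, hK⟩ := c.c.f_pow
    have : ∀ k : ℕ, 2 ^ k • f ≠ 0 := by
      intro k
      induction k with
      | zero =>
        intro h
        apply c.c.f_notMem
        have : f = 0 := by simpa using h
        rw [this]; exact zero_mem _
      | succ k ih => exact hcon k ih
    exact this K hK
  have hke : 2 ^ k • f = ee n := by
    have : 2 ^ k • f + 2 ^ k • f = 0 := by
      rw [← two_nsmul, ← mul_nsmul', ← pow_succ']; exact hk2
    exact (two_tor h2n this).resolve_left hk1
  have hkpos : k ≠ 0 := by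
    rintro rfl
    apply c.c.f_notMem
    have : f = ee n := by simpa using hke
    rw [this]; exact c.he
  obtain ⟨k', rfl⟩ := Nat.exists_eq_succ_of_ne_zero hkpos
  -- the action on `Q`
  set σ : Equiv.Perm Q := p.subtypePerm (fun x => (hQp x).symm) with hσ
  have hσpow : ∀ (j : ℕ) (x : Q), ((σ ^ j) x : ZMod n) = (p ^ j) (x : ZMod n) := by
    intro j
    induction j with
    | zero => intro x; simp
    | succ j ih =>
      intro x
      rw [pow_succ', pow_succ', Equiv.Perm.mul_apply, Equiv.Perm.mul_apply, ← ih x]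
      rfl
  have hd := card_dvd_of_free σ (k' + 1) (by
    intro x hx
    have h3 := congrArg (fun q : Q => (q : ZMod n)) hx
    simp only [hσpow] at h3
    have e1 : 2 ^ (k' + 1) = 2 * 2 ^ k' := by rw [pow_succ']
    have h4 := hpow (2 ^ k') x x.2
    rw [← e1, h3, hke] at h4
    have h5 : ee n = 0 := by
      have := sub_eq_self.1 h4.symm
      exact this
    exact ee_ne h2n h5) (by
    intro x
    apply Subtype.ext
    rw [hσpow]
    have e1 : 2 ^ (k' + 1 + 1) = 2 * 2 ^ (k' + 1) := by rw [pow_succ']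
    have h4 := hpow (2 ^ (k' + 1)) x x.2
    rw [← e1] at h4
    rw [e1] at h4
    apply a1.injective
    rw [e1, h4]
    have : (2 * 2 ^ (k' + 1)) • f = 0 := by rw [← e1]; exact hk2
    rw [this, sub_zero])
  have hcardQ : Fintype.card Q = Nat.card (BB S) := by
    rw [← Nat.card_eq_fintype_card]
    apply Nat.card_congr
    refine ⟨fun x => ⟨x.1 - z, x.2⟩, fun β => ⟨β.1 + z, ?_⟩, fun x => ?_, fun β => ?_⟩
    · change β.1 + z - z ∈ BB S
      simp
    · apply Subtype.ext; simp
    · apply Subtype.ext; simp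
  apply c.c.f_notMem
  apply mem_of_card_nsmul
  rw [← hcardQ]
  obtain ⟨q, hq⟩ := hd
  rw [hq, mul_comm, mul_nsmul']
  rw [hk2, smul_zero]

end Ctx3

end Pool.Agent.Lib.MP_d9b9c4_co.Circ
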