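import Pool.Agent.Lib.MP_d9b9c4_co.Step3a

/-!
# Step 3: `e ∈ B` is impossible
-/

set_option autoImplicit false
set_option linter.unusedSectionVars false
set_option linter.unusedVariables false

open scoped Classical

namespace Pool.Agent.Lib.MP_d9b9c4_co.Circ

variable {n : ℕ} [NeZero n] {S : Set (ZMod n)} {f : ZMod n}

/-- `rad (X ∩ (g + B)) ∩ B` -/
def RB (S X : Set (ZMod n)) (g : ZMod n) : AddSubgroup (ZMod n) :=
  rad {z | z ∈ X ∧ z - g ∈ BB S} ⊓ BB S

theorem mem_RB {X : Set (ZMod n)} {g u : ZMod n} :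
    u ∈ RB S X g ↔ u ∈ BB S ∧ ∀ z, z - g ∈ BB S → (z ∈ X ↔ z + u ∈ X) := by
  constructor
  · rintro ⟨h1, h2⟩
    refine ⟨h2, fun z hz => ?_⟩
    have h3 := h1 z
    have hz' : z + u - g ∈ BB S := by
      have := add_mem hz h2
      have e : z - g + u = z + u - g := by ring
      rwa [e] at this
    constructor
    · intro h
      exact (h3.1 ⟨h, hz⟩).1
    · intro h
      exact (h3.2 ⟨h, hz'⟩).1
  · rintro ⟨h2, h1⟩
    refine ⟨?_, h2⟩
    apply mem_rad_of
    rintro z ⟨hz, hzg⟩
    refine ⟨(h1 z hzg).1 hz, ?_⟩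
    have := add_mem hzg h2
    have e : z - g + u = z + u - g := by ring
    rwa [e] at this

theorem RB_congr {X : Set (ZMod n)} {g g' : ZMod n} (h : g' - g ∈ BB S) :
    RB S X g' = RB S X g := by
  ext u
  rw [mem_RB, mem_RB]
  refine and_congr_right fun _ => ?_
  have key : ∀ z, z - g' ∈ BB S ↔ z - g ∈ BB S := by
    intro z
    constructor
    · intro h'
      have := add_mem h' h
      have e : z - g' + (g' - g) = z - g := by ring
      rwa [e] at this
    · intro h'
      have := sub_mem h' h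
      have e : z - g - (g' - g) = z - g' := by ring
      rwa [e] at this
  simp only [key]

theorem Ctx.RB_eq (c : Ctx S f) {X : Set (ZMod n)} (hX : IsInv S false X) {g : ZMod n}
    (hg : g ∈ B1 S f) (hgB : g ∉ BB S) : RB S X g = RB S X f := by
  obtain ⟨a, b, h, h0, hgf⟩ := c.trans_cosets hg hgB
  rw [RB_congr hgf]
  apply sub_eq_of_card
  symm
  have hB := isInv_BB (S := S)
  -- the bijection `x ↦ - a (-x)`
  have hiff : ∀ x, x ∈ RB S X f ↔ -a (-x) ∈ RB S X (a f) := by
    intro x
    rw [mem_RB, mem_RB]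
    have h1 : x ∈ BB S ↔ -a (-x) ∈ BB S := by
      rw [neg_mem_iff, ← neg_mem_iff (x := x)]
      exact hB.act0 h h0 _
    refine and_congr h1 ?_
    constructor
    · intro h2 z hz
      have h3 : a.symm z - f ∈ BB S := by
        have := (hB.iff0 h f (a.symm z)).2 (by simpa using hz)
        exact this
      have h4 := h2 _ h3
      have h5 := hX.act0 h h0 (a.symm z)
      have h6 := hX.iff0 h (-x) (a.symm z)
      rw [Equiv.apply_symm_apply] at h5 h6
      rw [sub_neg_eq_add, sub_eq_add_neg] at h6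
      rw [← h5, ← h6]; exact h4
    · intro h2 z hz
      have h3 : a z - a f ∈ BB S := (hB.iff0 h f z).1 hz
      have h4 := h2 _ h3
      have h5 := hX.act0 h h0 z
      have h6 := hX.iff0 h (-x) z
      rw [sub_neg_eq_add, sub_eq_add_neg] at h6
      rw [h5, h6]; exact h4
  apply Nat.card_congr
  refine ⟨fun x => ⟨-a (-x.1), (hiff _).1 x.2⟩, fun y => ⟨-a.symm (-y.1), (hiff _).2 ?_⟩,
    fun x => ?_, fun y => ?_⟩
  · rw [neg_neg, Equiv.apply_symm_apply, neg_neg]
    exact y.2
  · apply Subtype.ext; simp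
  · apply Subtype.ext; simp

/-- **Key for case (ii)**: `2f ∈ rad X` for a `0`-set `X ⊆ B₁ \ B`. -/
theorem Ctx.ff_mem_rad (c : Ctx S f) (hq : ∃ h ∈ B1 S f, h ∉ BB S ∧ h - f ∉ BB S)
    {X : Set (ZMod n)} (hX : IsInv S false X) (hXs : ∀ x ∈ X, x ∈ B1 S f ∧ x ∉ BB S) :
    f + f ∈ rad X := by
  obtain ⟨k, hk⟩ := c.f_pow
  refine two_pow_mem (K := rad X) (B := BB S) ?_ k (f + f) c.ff_mem (by
    rw [nsmul_add, hk, add_zero])
  intro v hv hvv
  by_contra hvX
  obtain ⟨h, hh1, hhB, hhf⟩ := hq
  have key : ∀ v ∈ BB S, v + v ∈ rad X → v ∉ rad X → ∀ x ∈ X, x - f ∉ BB S → x + v ∈ X := by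
    intro v hv hvv hvX x hx hxf
    by_contra hxv
    have hK : AddSubgroup.zmultiples (v + v) ≤ rad X := by
      rw [AddSubgroup.zmultiples_le]; exact hvv
    have hKe : AddSubgroup.zmultiples (v + v) ≤ ev n := by
      rw [AddSubgroup.zmultiples_le]; exact add_self_mem_ev v
    have h1 := schurB c.h2n c.hS hX hKe hK (fun h => hvX (hK h))
      (AddSubgroup.mem_zmultiples (v + v)) hx hxv
    rcases coset_two _ c.f_notMem c.ff_mem h1 with h2 | h2
    · exact (hXs x hx).2 h2
    · exact hxf h2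
  have hvR : v ∈ RB S X h := by
    rw [mem_RB]
    refine ⟨hv, fun z hz => ?_⟩
    have hzf : z - f ∉ BB S := by
      intro h'
      apply hhf
      have := sub_mem h' hz
      have e : z - f - (z - h) = h - f := by ring
      rwa [e] at this
    constructor
    · intro hzX
      exact key v hv hvv hvX z hzX hzf
    · intro hzX
      have h1 : z + v - f ∉ BB S := by
        intro h'
        apply hzf
        have := sub_mem h' hv
        have e : z + v - f - v = z - f := by ring
        rwa [e] at this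
      have h2 := key (-v) (neg_mem hv) (by
        have := neg_mem hvv
        have e : -(v + v) = -v + -v := by ring
        rwa [e] at this) (fun h' => hvX (by simpa using neg_mem h')) (z + v) hzX h1
      simpa using h2
  rw [c.RB_eq hX hh1 hhB] at hvR
  apply hvX
  apply mem_rad_of
  intro x hx
  obtain ⟨hx1, hxB⟩ := hXs x hx
  rw [← c.RB_eq hX hx1 hxB] at hvR
  exact ((mem_RB.1 hvR).2 x (by rw [sub_self]; exact zero_mem _)).1 hx

namespace Ctx3

/-- Step 3b, case (i). -/
theorem step3b_i (c : Ctx3 S f) (hq : ∃ h ∈ B1 S f, h ∉ BB S ∧ h - f ∉ BB S)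
    (hf : f ∈ Wh S) : False := by
  obtain ⟨h, hh1, hhB, hhf⟩ := hq
  obtain ⟨s, hs1, hs2⟩ := c.htf
  have hs : s ∈ Se S := ⟨hs1, hs2⟩
  have hX : IsInv S true (addSet (Se S) (BB S : Set (ZMod n))) :=
    IsInv.addSet c.c.hS c.inv_Se isInv_BB
  have h1 := c.c.case_i hf hX (BB_le_rad_addSet _ _)
  have h2 : h - s ∈ B1 S f := sub_mem hh1 (c.Se_sub_B1 hs)
  have h3 : s ∈ addSet (Se S) (BB S : Set (ZMod n)) := ⟨s, hs, by simp⟩
  have h4 := (h1 h2 s).1 h3
  rw [add_sub_cancel] at h4
  obtain ⟨s', hs', hhs⟩ := h4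
  rcases c.Se_sub hs' with h5 | h5
  · apply hhB
    have := add_mem hhs h5
    simpa using this
  · apply hhf
    have := add_mem hhs h5
    simpa using this

/-- Step 3b, case (iii). -/
theorem step3b_iii (c : Ctx3 S f) (hq : ∃ h ∈ B1 S f, h ∉ BB S ∧ h - f ∉ BB S)
    (hW : ∀ x, x ∈ Wh S ↔ x ∈ B1 S f ∧ x - f ∉ BB S) : False := by
  obtain ⟨h, hh1, hhB, hhf⟩ := hq
  have h2n := c.c.h2n
  -- `S_e ∩ B = ∅`
  have hSeB : ∀ s ∈ Se S, s ∉ BB S := by
    intro s hs hsB
    have hX : IsInv S true (addSet (Se S) (BB S : Set (ZMod n))) :=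
      IsInv.addSet c.c.hS c.inv_Se isInv_BB
    have h0 : (0 : ZMod n) ∈ addSet (Se S) (BB S : Set (ZMod n)) :=
      ⟨s, hs, by simpa using hsB⟩
    have h1 : h ∈ addSet (Se S) (BB S : Set (ZMod n)) :=
      Wh_sub hX (BB_le_rad_addSet _ _) h0 ((hW h).2 ⟨hh1, hhf⟩)
    obtain ⟨s', hs', hhs⟩ := h1
    rcases c.Se_sub hs' with h5 | h5
    · apply hhB
      have := add_mem hhs h5
      simpa using this
    · apply hhf
      have := add_mem hhs h5
      simpa using this
  have hSef : ∀ s ∈ Se S, s - f ∈ BB S := fun s hs => (c.Se_sub hs).resolve_left (hSeB s hs)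
  have heB := c.he
  have hee := ee_add_ee h2n
  -- the flips
  have flip : ∀ C : Set (ZMod n), (∀ x, x ∈ C ↔ x + ee n ∈ C) →
      ∃ p : Equiv.Perm (ZMod n), ∀ x, p x = if x ∈ C then x + ee n else x := by
    intro C hC
    refine ⟨⟨fun x => if x ∈ C then x + ee n else x, fun x => if x ∈ C then x + ee n else x,
      ?_, ?_⟩, fun x => rfl⟩
    · intro x
      dsimp only
      by_cases hx : x ∈ C
      · rw [if_pos hx, if_pos ((hC x).1 hx), add_assoc, hee, add_zero]
      · rw [if_neg hx, if_neg hx]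
    · intro x
      dsimp only
      by_cases hx : x ∈ C
      · rw [if_pos hx, if_pos ((hC x).1 hx), add_assoc, hee, add_zero]
      · rw [if_neg hx, if_neg hx]
  obtain ⟨p, hp⟩ := flip (BB S : Set (ZMod n)) (fun x => by
    simp only [SetLike.mem_coe]
    exact ⟨fun h => add_mem h heB, fun h => by simpa using sub_mem h heB⟩)
  obtain ⟨p', hp'⟩ := flip {x | x - f ∈ BB S} (fun x => by
    simp only [Set.mem_ofPred_eq]
    have e : x + ee n - f = x - f + ee n := by ring
    rw [e]
    exact ⟨fun h => add_mem h heB, fun h => by simpa using sub_mem h heB⟩)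
  simp only [SetLike.mem_coe, Set.mem_ofPred_eq] at hp hp'
  have hSe : ∀ z, z - f ∉ BB S → (z ∈ S ↔ z + ee n ∈ S) := by
    intro z hz
    constructor
    · intro h1
      by_contra h2
      exact hz (hSef z ⟨h1, h2⟩)
    · intro h1
      by_contra h2
      apply hz
      have h3 : z + ee n ∈ Se S := ⟨h1, by rw [add_assoc, hee, add_zero]; exact h2⟩
      have := sub_mem (hSef _ h3) heB
      have e : z + ee n - f - ee n = z - f := by ring
      rwa [e] at this
  have hTF : IsTF S p p' := by
    intro x y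
    rw [hp, hp']
    by_cases hx : x ∈ BB S
    · by_cases hy : y - f ∈ BB S
      · rw [if_pos hx, if_pos hy, add_sub_add_right_eq_sub]
      · rw [if_pos hx, if_neg hy]
        have h1 : y - x - f ∉ BB S := by
          intro h'
          apply hy
          have := add_mem h' hx
          have e : y - x - f + x = y - f := by ring
          rwa [e] at this
        rw [hSe _ h1]
        have e : y - (x + ee n) = y - x + ee n := by
          rw [← sub_sub, sub_eq_add_neg (y - x), neg_ee h2n]
        rw [e]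
    · by_cases hy : y - f ∈ BB S
      · rw [if_neg hx, if_pos hy]
        have h1 : y - x - f ∉ BB S := by
          intro h'
          apply hx
          have := sub_mem hy h'
          have e : y - f - (y - x - f) = x := by ring
          rwa [e] at this
        rw [hSe _ h1]
        have e : y + ee n - x = y - x + ee n := by ring
        rw [e]
      · rw [if_neg hx, if_neg hy]
  have hpp := c.hII p p' hTF (fun x => by
    rw [hp]; split_ifs
    · simpa using BB_le heB
    · simp) (fun x => by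
    rw [hp']; split_ifs
    · simpa using BB_le heB
    · simp)
  have h1 : p 0 = ee n := by rw [hp, if_pos (zero_mem _), zero_add]
  have h2 : p' 0 = 0 := by
    rw [hp', if_neg]
    intro h'
    apply c.c.f_notMem
    simpa using neg_mem h'
  rw [hpp, h2] at h1
  exact ee_ne h2n h1.symm

/-- Step 3b, case (ii). -/
theorem step3b_ii (c : Ctx3 S f) (hq : ∃ h ∈ B1 S f, h ∉ BB S ∧ h - f ∉ BB S)
    (hWh : ∀ x, x ∈ Wh S ↔ x ∈ BB S) : False := by
  have h2n := c.c.h2n
  have hWB : ∀ w ∈ WW S, w ∈ BB S := fun w hw => (hWh w).1 (WW_sub hw)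
  have hB1s := c.inv_B1
  have hBs : IsInv S true (BB S : Set (ZMod n)) := isInv_true_of isInv_BB hWB
  have hbx : ∀ a b, IsTF S a b → ∀ x, b x = a x ∨ b x = a x + ee n := by
    intro a b h x
    rcases W_sub_B h2n c.hII c.c.hS hWB h x with h1 | ⟨h1, _⟩
    · exact Or.inl h1
    · exact Or.inr h1
  -- `S_e ⊆ B`
  have hSeB : ∀ s ∈ Se S, s ∈ BB S := by
    intro s hs
    by_contra hsB
    have hsf := (c.Se_sub hs).resolve_left hsB
    obtain ⟨h, hh1, hhB, hhf⟩ := hq
    obtain ⟨a, b, hab, h0, hha⟩ := c.c.trans_cosets hh1 hhB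
    have h1 : b s ∈ Se S := (c.inv_Se.act1 hab h0 s).1 hs
    have h2 : b s ∉ BB S := fun h' => hsB ((hBs.act1 hab h0 s).2 h')
    have h3 := (c.Se_sub h1).resolve_left h2
    have h4 : b s - a s ∈ BB S := by
      rcases hbx a b hab s with h5 | h5
      · rw [h5, sub_self]; exact zero_mem _
      · rw [h5, add_sub_cancel_left]; exact c.he
    have h5 : a s - a f ∈ BB S := (isInv_BB.iff0 hab f s).1 hsf
    apply hhf
    have := add_mem (sub_mem (sub_mem hha h5) h4) h3
    have e : h - a f - (a s - a f) - (b s - a s) + (b s - f) = h - f := by ring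
    rwa [e] at this
  -- `X₁`
  set X1 : Set (ZMod n) := S ∩ ((B1 S f : Set (ZMod n)) \ (BB S : Set (ZMod n))) with hX1
  have hX1s : IsInv S true X1 := isInv_self.inter (hB1s.sdiff hBs)
  have hX1e : ∀ x, x ∈ X1 ↔ x + ee n ∈ X1 := by
    have : ee n ∈ rad X1 := by
      apply mem_rad_of
      rintro x ⟨hx1, hx2, hx3⟩
      refine ⟨?_, add_mem hx2 (BB_le_B1 f c.he), fun h' => hx3 ?_⟩
      · by_contra h'
        exact hx3 (hSeB x ⟨hx1, h'⟩)
      · simpa using sub_mem h' c.he
    exact this
  have hX10 : IsInv S false X1 := by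
    intro a b h x y
    rw [hX1s.iff1 h x y]
    simp only [cond_false]
    rcases hbx a b h y with h1 | h1
    · rw [h1]
    · rw [h1]
      have e : a y + ee n - a x = a y - a x + ee n := by ring
      rw [e]
      exact (hX1e _).symm
  have hX1sub : ∀ x ∈ X1, x ∈ B1 S f ∧ x ∉ BB S := fun x hx => hx.2
  have hffX := c.c.ff_mem_rad hq hX10 hX1sub
  -- `T`
  have hTrad := c.f_mem_rad_TT
  set K : AddSubgroup (ZMod n) := (BB S ⊓ rad X1) ⊓ rad (TT S f) with hK
  have t : TLCtx S f K := by
    refine ⟨c.c, ?_, ?_, ?_, hq⟩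
    · exact (isInv_BB.inter (isInv_rad hX10)).inter (isInv_rad c.inv_TT)
    · exact inf_le_left.trans inf_le_left
    · exact ⟨⟨c.c.ff_mem, hffX⟩, add_mem hTrad hTrad⟩
  have hKX : K ≤ rad X1 := inf_le_left.trans inf_le_right
  have hJT : t.J ≤ rad (TT S f) := t.J_le (isInv_rad c.inv_TT) hTrad inf_le_right
  -- even representatives of `B₁`-cosets
  obtain ⟨d, hd, hde⟩ := c.c.exists_odd_B1
  set p : ZMod n → ZMod n := fun x =>
    if (QuotientAddGroup.mk x : ZMod n ⧸ B1 S f).out ∈ ev n then
      (QuotientAddGroup.mk x : ZMod n ⧸ B1 S f).out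
    else (QuotientAddGroup.mk x : ZMod n ⧸ B1 S f).out + d with hp
  have hp1 : ∀ x y, y - x ∈ B1 S f → p y = p x := by
    intro x y hxy
    have : (QuotientAddGroup.mk y : ZMod n ⧸ B1 S f) = QuotientAddGroup.mk x := by
      rw [eq_comm, QuotientAddGroup.eq, ← sub_eq_neg_add]; exact hxy
    simp only [hp, this]
  have hp2 : ∀ x, p x ∈ ev n := by
    intro x
    simp only [hp]
    split_ifs with h
    · exact h
    · exact odd_add_odd h2n h hde
  have hp3 : ∀ x, x - p x ∈ B1 S f := by
    intro x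
    have h1 : x - (QuotientAddGroup.mk x : ZMod n ⧸ B1 S f).out ∈ B1 S f := by
      have : (QuotientAddGroup.mk ((QuotientAddGroup.mk x : ZMod n ⧸ B1 S f).out) :
          ZMod n ⧸ B1 S f) = QuotientAddGroup.mk x := QuotientAddGroup.out_eq' _
      rw [QuotientAddGroup.eq, ← sub_eq_neg_add] at this
      exact this
    simp only [hp]
    split_ifs with h
    · exact h1
    · rw [← sub_sub]; exact sub_mem h1 hd
  clear_value p
  -- `κ`
  have hκex : ∀ x, ∃ j ∈ t.J, x - p x - j ∈ BB S := fun x => t.J_add_B (hp3 x)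
  choose κ0 hκ0 hκ0' using hκex
  obtain ⟨κ, hκ1, hκJ, hκ2⟩ : ∃ κ : ZMod n → ZMod n, (∀ x y, y - x ∈ BB S → κ y = κ x) ∧
      (∀ x, κ x ∈ t.J) ∧ ∀ x, x - p x - κ x ∈ BB S := by
    refine ⟨fun x => κ0 (QuotientAddGroup.mk x : ZMod n ⧸ BB S).out, ?_, fun x => hκ0 _, ?_⟩
    · intro x y hxy
      have : (QuotientAddGroup.mk y : ZMod n ⧸ BB S) = QuotientAddGroup.mk x := by
        rw [eq_comm, QuotientAddGroup.eq, ← sub_eq_neg_add]; exact hxy
      simp only [this]
    · intro x
      set x' := (QuotientAddGroup.mk x : ZMod n ⧸ BB S).out with hx'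
      have h1 : x - x' ∈ BB S := by
        have : (QuotientAddGroup.mk x' : ZMod n ⧸ BB S) = QuotientAddGroup.mk x :=
          QuotientAddGroup.out_eq' _
        rw [QuotientAddGroup.eq, ← sub_eq_neg_add] at this
        exact this
      have h2 := hp1 x' x (BB_le_B1 f h1)
      have := add_mem (hκ0' x') h1
      rw [h2]
      have e : x' - p x' - κ0 x' + (x - x') = x - p x' - κ0 x' := by ring
      rwa [e] at this
  have hκB1 : ∀ x, κ x ∈ B1 S f := fun x => t.J_le_B1 (hκJ x)
  have hκT : ∀ x, κ x ∈ rad (TT S f) := fun x => hJT (hκJ x)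
  -- the modified permutation
  have hmod : ∀ a b, IsTF S a b → ∃ a' : Equiv.Perm (ZMod n),
      ∀ x, a' x = a x + κ x - κ (a x) := by
    intro a b h
    have hinj : Function.Injective fun x => a x + κ x - κ (a x) := by
      intro x y hxy
      have hxy' : a x + κ x - κ (a x) = a y + κ y - κ (a y) := hxy
      have h1 : a y - a x ∈ B1 S f := by
        have := add_mem (sub_mem (hκB1 x) (hκB1 y)) (sub_mem (hκB1 (a y)) (hκB1 (a x)))
        have e : κ x - κ y + (κ (a y) - κ (a x)) =
          a y - a x + ((a x + κ x - κ (a x)) - (a y + κ y - κ (a y))) := by ring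
        rw [e, hxy', sub_self, add_zero] at this
        exact this
      have h2 : y - x ∈ B1 S f := ((isInv_B1 f).iff0 h x y).2 h1
      have h3 := hp1 _ _ h1
      have h4 := hp1 _ _ h2
      have h5 : y - x ∈ BB S := by
        have := sub_mem (add_mem (sub_mem (hκ2 (a x)) (hκ2 (a y))) (hκ2 y)) (hκ2 x)
        rw [h3, h4] at this
        have e : a x - p (a x) - κ (a x) - (a y - p (a x) - κ (a y)) + (y - p x - κ y) -
          (x - p x - κ x) = y - x + ((a x + κ x - κ (a x)) - (a y + κ y - κ (a y))) := by ring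
        rw [e, hxy', sub_self, add_zero] at this
        exact this
      have h6 := (isInv_BB.iff0 h x y).1 h5
      have h7 := hκ1 _ _ h5
      have h8 := hκ1 _ _ h6
      rw [h7, h8] at hxy'
      have h9 : a x = a y := by
        have := congrArg (fun z => z + κ (a x) - κ x) hxy'
        simpa using this
      exact a.injective h9
    exact ⟨Equiv.ofBijective _ (Finite.injective_iff_bijective.1 hinj), fun x => rfl⟩
  obtain ⟨a, b, hab, hne⟩ := c.hnt
  obtain ⟨a', ha'⟩ := hmod a b hab
  obtain ⟨b', hb'⟩ := hmod b a (hab.swap c.c.hS)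
  have hTF : IsTF S a' b' := by
    intro x y
    have hE : b' y - a' x = b y - a x + (κ y - κ x - κ (b y) + κ (a x)) := by
      rw [ha', hb']; ring
    have hjB1 : κ y - κ x - κ (b y) + κ (a x) ∈ B1 S f :=
      add_mem (sub_mem (sub_mem (hκB1 _) (hκB1 _)) (hκB1 _)) (hκB1 _)
    have hjJ : κ y - κ x - κ (b y) + κ (a x) ∈ t.J :=
      add_mem (sub_mem (sub_mem (hκJ _) (hκJ _)) (hκJ _)) (hκJ _)
    by_cases h1 : y - x ∈ B1 S f
    · have h1' : b y - a x ∈ B1 S f := (hB1s.iff1 hab x y).1 h1
      by_cases h2 : y - x ∈ BB S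
      · have h2' : b y - a x ∈ BB S := (hBs.iff1 hab x y).1 h2
        rw [hE, hκ1 _ _ h2, hκ1 _ _ h2']
        have e : b y - a x + (κ x - κ x - κ (a x) + κ (a x)) = b y - a x := by ring
        rw [e]
        exact hab x y
      · have h2' : b y - a x ∉ BB S := fun h' => h2 ((hBs.iff1 hab x y).2 h')
        have h3 : b' y - a' x ∉ BB S := by
          intro h'
          apply h2
          have h4 := hp1 _ _ h1
          have h5 := hp1 _ _ h1'
          have := add_mem (sub_mem (sub_mem h' (sub_mem (hκ2 (b y)) (hκ2 (a x)))) (hκ2 x))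
            (hκ2 y)
          rw [hE, h4, h5] at this
          have e : b y - a x + (κ y - κ x - κ (b y) + κ (a x)) - (b y - p (a x) - κ (b y) -
            (a x - p (a x) - κ (a x))) - (x - p x - κ x) + (y - p x - κ y) = y - x := by ring
          rwa [e] at this
        have h4 : ∀ z : ZMod n, z ∈ B1 S f → z ∉ BB S → (z ∈ S ↔ z ∈ X1) := fun z hz1 hz2 =>
          ⟨fun h => ⟨h, hz1, hz2⟩, fun h => h.1⟩
        have h5 : b' y - a' x ∈ B1 S f := by rw [hE]; exact add_mem h1' hjB1
        rw [h4 _ h1 h2, h4 _ h5 h3, hX1s.iff1 hab x y]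
        constructor
        · intro h6
          rw [hE]
          exact t.exch hX10 hKX hX1sub h6 hjJ (by rw [← hE]; exact h3)
        · intro h6
          have h7 := t.exch hX10 hKX hX1sub h6 (neg_mem hjJ) (by
            rw [hE, add_neg_cancel_right]; exact h2')
          rwa [hE, add_neg_cancel_right] at h7
    · have h1' : b y - a x ∉ B1 S f := fun h' => h1 ((hB1s.iff1 hab x y).2 h')
      have h5 : b' y - a' x ∉ B1 S f := by
        rw [hE]
        intro h'
        apply h1'
        have := sub_mem h' hjB1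
        simpa using this
      rw [mem_S_iff_TT h1, mem_S_iff_TT h5, hE, c.inv_TT.iff1 hab x y]
      exact (add_mem (sub_mem (sub_mem (hκT _) (hκT _)) (hκT _)) (hκT _)) (b y - a x)
  have hpar : ∀ (a a' : Equiv.Perm (ZMod n)), (∀ x, a' x = a x + κ x - κ (a x)) →
      ∀ x, a' x - x ∈ ev n := by
    intro a a' ha' x
    have := add_mem (BB_le (sub_mem (hκ2 (a x)) (hκ2 x))) (sub_mem (hp2 (a x)) (hp2 x))
    rw [ha']
    have e : a x - p (a x) - κ (a x) - (x - p x - κ x) + (p (a x) - p x) =
      a x + κ x - κ (a x) - x := by ring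
    rwa [e] at this
  have hfin := c.hII a' b' hTF (hpar a a' ha') (hpar b b' hb')
  apply hne
  ext1 x
  have h1 : a' x = b' x := by rw [hfin]
  rw [ha', hb'] at h1
  have h2 : κ (b x) = κ (a x) := by
    apply hκ1
    rcases hbx a b hab x with h3 | h3
    · rw [h3, sub_self]; exact zero_mem _
    · rw [h3, add_sub_cancel_left]; exact c.he
  rw [h2] at h1
  have := congrArg (fun z => z + κ (a x) - κ x) h1
  simpa using this

/-- **Step 3**: `e ∈ B` is impossible. -/
theorem false_of (c : Ctx3 S f) : False := by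
  by_cases hq : ∃ h ∈ B1 S f, h ∉ BB S ∧ h - f ∉ BB S
  · by_cases hf : f ∈ Wh S
    · exact c.step3b_i hq hf
    · rcases c.c.case_ii_iii hf with h | h
      · exact c.step3b_ii hq h
      · exact c.step3b_iii hq h
  · push Not at hq
    exact c.step3a (fun h h1 => by
      by_cases h2 : h ∈ BB S
      · exact Or.inl h2
      · exact Or.inr (hq h h1 h2))

end Ctx3

end Pool.Agent.Lib.MP_d9b9c4_co.Circ
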