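import Pool.Agent.Lib.MP_d9b9c4_co.Step3b

/-!
# Step 4: `e ∉ B`, case (iii)
-/

set_option autoImplicit false
set_option linter.unusedSectionVars false
set_option linter.unusedVariables false

open scoped Classical

namespace Pool.Agent.Lib.MP_d9b9c4_co.Circ

variable {n : ℕ} [NeZero n] {S : Set (ZMod n)}

/-- The standing assumptions in Step 4. -/
structure Ctx4 (S : Set (ZMod n)) : Prop where
  h4 : 4 ∣ n
  hS : Sym S
  hII : TypeII S
  hnt : ∃ a b, IsTF S a b ∧ a ≠ b
  he : ee n ∉ BB S
  htf : ∃ s ∈ S, s + ee n ∉ S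

namespace Ctx4

theorem h2n (c : Ctx4 S) : 2 ∣ n := dvd_trans (by norm_num) c.h4

theorem hee (c : Ctx4 S) : ee n + ee n = 0 := ee_add_ee c.h2n

theorem c (c : Ctx4 S) : Ctx S (ee n) :=
  ⟨c.h2n, c.hS, c.he, by rw [c.hee]; exact zero_mem _, ⟨1, by
    rw [pow_one, two_nsmul]; exact c.hee⟩⟩

theorem inv_bot : IsInv S false ((⊥ : AddSubgroup (ZMod n)) : Set (ZMod n)) := by
  rw [AddSubgroup.coe_bot]; exact isInv_zero

theorem t (c : Ctx4 S) : TLCtx S (ee n) ⊥ := by
  refine ⟨c.c, inv_bot, bot_le, by rw [c.hee]; exact zero_mem _, ?_⟩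
  obtain ⟨d, hd, hde⟩ := c.c.exists_odd_B1
  refine ⟨d, hd, fun h => hde (BB_le h), fun h => hde ?_⟩
  have := add_mem (BB_le h) (ee_mem_ev c.h4)
  simpa using this

/-- the subgroup `J` -/
def J (c : Ctx4 S) : AddSubgroup (ZMod n) := c.t.J

theorem not_ii (c : Ctx4 S) (h : ∀ x, x ∈ Wh S ↔ x ∈ BB S) : False :=
  c.he (W_eq c.h2n c.hII c.hS (fun w hw => (h w).1 (WW_sub hw)) c.hnt).1

end Ctx4

/-- Case (iii). -/
structure Ctx43 (S : Set (ZMod n)) : Prop where
  c : Ctx4 S
  hW : ∀ x, x ∈ Wh S ↔ x ∈ B1 S (ee n) ∧ x - ee n ∉ BB S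

namespace Ctx43

theorem inv_B1 (c : Ctx43 S) : IsInv S true (B1 S (ee n) : Set (ZMod n)) :=
  isInv_true_of (isInv_B1 _) (fun w hw => ((c.hW w).1 (WW_sub hw)).1)

theorem inv_TT (c : Ctx43 S) : IsInv S true (TT S (ee n)) := isInv_self.sdiff c.inv_B1

theorem J_le_rad (c : Ctx43 S) : c.c.J ≤ rad (TT S (ee n)) :=
  c.c.t.J_le (isInv_rad c.inv_TT) (c.c.c.f_mem_rad c.inv_TT (fun _ hx => hx.2)) bot_le

theorem neg_ee_sub (c : Ctx43 S) {x : ZMod n} : x - ee n = x + ee n := by
  rw [sub_eq_add_neg, neg_ee c.c.h2n]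

/-- TL1 for elements of `O(e)`. -/
theorem TL1' (c : Ctx43 S) {X : Set (ZMod n)} (hX : IsInv S true X) (hXs : X ⊆ Wh S)
    {x g : ZMod n} (hx : x ∈ X) (hg : g ∈ Xf S (ee n) ⊥) (hxg : x + g - ee n ∉ BB S) :
    x + g ∈ X := by
  have hgB := c.c.t.Xf_sub hg
  have hgO : g ∈ orb0 S (ee n) := by
    obtain ⟨w, hw, hgw⟩ := hg
    have : g - w = 0 := by simpa using hgw
    rw [sub_eq_zero] at this
    rw [this]; exact hw
  have hcm : cm X g = cm X (ee n) :=
    orb0_subset (isInv_cm hX (fun k => k = cm X (ee n))) (x := ee n) rfl hgO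
  have hsplit : ∀ g, cm X g + (Finset.univ.filter fun z => z ∈ X ∧ z + g ∉ X).card = num X := by
    intro g
    unfold cm num
    rw [← Finset.card_union_of_disjoint]
    · congr 1
      ext z
      simp only [Finset.mem_union, Finset.mem_filter, Finset.mem_univ, true_and]
      tauto
    · rw [Finset.disjoint_left]
      intro z
      simp only [Finset.mem_filter, Finset.mem_univ, true_and]
      tauto
  have hf1 : (Finset.univ.filter fun z => z ∈ X ∧ z + ee n ∉ X).card =
      nk X (BB S : Set (ZMod n)) 0 := by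
    unfold nk
    congr 1
    ext z
    simp only [Finset.mem_filter, Finset.mem_univ, true_and, SetLike.mem_coe, sub_zero]
    refine and_congr_right fun hz => ?_
    constructor
    · intro hzf
      rcases c.c.c.Pe hX hz hzf with h | h
      · exact h
      · exact absurd h ((c.hW z).1 (hXs hz)).2
    · intro h hzf
      apply ((c.hW _).1 (hXs hzf)).2
      simpa using h
  have hegW : ee n - g ∈ Wh S := by
    rw [c.hW]
    refine ⟨sub_mem (f_mem_B1 _) hgB.1, fun h => hgB.2 ?_⟩
    have := neg_mem h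
    have e : -(ee n - g - ee n) = g := by ring
    rwa [e] at this
  have hT1 : (Finset.univ.filter fun z => z ∈ X ∧ z + g - ee n ∈ BB S).card =
      nk X (BB S : Set (ZMod n)) 0 := by
    rw [← Ctx.nk_const c.c.hS hX isInv_BB le_rfl hegW]
    unfold nk
    congr 1
    ext z
    simp only [Finset.mem_filter, Finset.mem_univ, true_and, SetLike.mem_coe]
    have e : z + g - ee n = z - (ee n - g) := by ring
    rw [e]
  have hsub : (Finset.univ.filter fun z => z ∈ X ∧ z + g - ee n ∈ BB S) ⊆
      Finset.univ.filter fun z => z ∈ X ∧ z + g ∉ X := by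
    intro z
    simp only [Finset.mem_filter, Finset.mem_univ, true_and]
    exact fun h => ⟨h.1, fun h' => ((c.hW _).1 (hXs h')).2 h.2⟩
  have heq := Finset.eq_of_subset_of_card_le hsub (by
    have h1 := hsplit g
    have h2 := hsplit (ee n)
    rw [hT1]
    omega)
  by_contra hcon
  have hx' : x ∈ Finset.univ.filter fun z => z ∈ X ∧ z + g ∉ X := by
    simp only [Finset.mem_filter, Finset.mem_univ, true_and]
    exact ⟨hx, hcon⟩
  rw [← heq] at hx'
  simp only [Finset.mem_filter, Finset.mem_univ, true_and] at hx'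
  exact hxg hx'.2

/-- TL1 -/
theorem TL1 (c : Ctx43 S) {X : Set (ZMod n)} (hX : IsInv S true X) (hXs : X ⊆ Wh S)
    {x j : ZMod n} (hx : x ∈ X) (hj : j ∈ c.c.J) (hxj : x + j - ee n ∉ BB S) :
    x + j ∈ X := by
  rcases hj with hj | hj
  · exact c.TL1' hX hXs hx hj hxj
  · obtain ⟨g, hg, hxg⟩ := c.c.t.exists_avoid (x - ee n)
    have h1 := c.TL1' hX hXs hx hg (by
      have e : x + g - ee n = x - ee n + g := by ring
      rw [e]; exact hxg)
    have h2 : j + -g ∈ Xf S (ee n) ⊥ := by
      rw [add_comm]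
      exact (hj.1 _).1 (c.c.t.neg_Xf hg)
    have e : x + g + (j + -g) = x + j := by ring
    have h3 := c.TL1' hX hXs h1 h2 (by rw [e]; exact hxj)
    rwa [e] at h3

/-- The pairs `(a, t_e a t_e⁻¹)`. -/
theorem pair (c : Ctx43 S) (a : Equiv.Perm (ZMod n)) (h1 : ∀ z, a z - z ∈ c.c.J)
    (h2 : ∀ x y, y - x ∈ BB S → a y - y = a x - x)
    (h3 : ∀ x y, a y - a x ∈ BB S → y - x ∈ BB S) :
    IsTF S a (Equiv.addRight (ee n) * a * Equiv.addRight (ee n)) := by
  have hXinv : IsInv S true (S ∩ Wh S) := isInv_self.inter (isInv_Wh c.c.hS)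
  have hJB1 : c.c.J ≤ B1 S (ee n) := c.c.t.J_le_B1
  have heB1 : ee n ∈ B1 S (ee n) := f_mem_B1 _
  have hee := c.c.hee
  have key : ∀ x y, y - x + ee n ∈ S ↔ a y - a x + ee n ∈ S := by
    intro x y
    obtain ⟨j, hj⟩ : ∃ j, j = (a y - y) - (a x - x) := ⟨_, rfl⟩
    have hjJ : j ∈ c.c.J := by rw [hj]; exact sub_mem (h1 y) (h1 x)
    have hE : a y - a x + ee n = y - x + ee n + j := by rw [hj]; ring
    by_cases hB1 : y - x ∈ B1 S (ee n)
    · by_cases hB : y - x ∈ BB S
      · have := h2 x y hB
        rw [hE, hj, this, sub_self, add_zero]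
      · have hB' : a y - a x ∉ BB S := fun h => hB (h3 x y h)
        have hE' : a y - a x = y - x + j := by rw [hj]; ring
        have hW1 : y - x + ee n ∈ Wh S := by
          rw [c.hW, add_sub_cancel_right]
          exact ⟨add_mem hB1 heB1, hB⟩
        have hW2 : a y - a x + ee n ∈ Wh S := by
          rw [c.hW, add_sub_cancel_right]
          refine ⟨add_mem ?_ heB1, hB'⟩
          rw [hE']; exact add_mem hB1 (hJB1 hjJ)
        have key1 : ∀ z, z ∈ Wh S → (z ∈ S ↔ z ∈ S ∩ Wh S) := fun z hz =>
          ⟨fun h => ⟨h, hz⟩, fun h => h.1⟩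
        rw [key1 _ hW1, key1 _ hW2]
        constructor
        · intro h
          rw [hE]
          exact c.TL1 hXinv Set.inter_subset_right h hjJ (by
            rw [← hE, add_sub_cancel_right]; exact hB')
        · intro h
          have e : a y - a x + ee n + -j = y - x + ee n := by rw [hE]; ring
          rw [← e]
          exact c.TL1 hXinv Set.inter_subset_right h (neg_mem hjJ) (by
            rw [e, add_sub_cancel_right]; exact hB)
    · have h4 : y - x + ee n ∉ B1 S (ee n) := fun h => hB1 (by simpa using sub_mem h heB1)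
      have h5 : a y - a x + ee n ∉ B1 S (ee n) := by
        rw [hE]
        intro h
        apply h4
        simpa using sub_mem h (hJB1 hjJ)
      rw [Ctx3.mem_S_iff_TT h4, Ctx3.mem_S_iff_TT h5, hE]
      exact c.J_le_rad hjJ _
  intro x y
  have h6 := key x (y + ee n)
  have e1 : y + ee n - x + ee n = y - x := by
    have : y + ee n - x + ee n = y - x + (ee n + ee n) := by ring
    rw [this, hee, add_zero]
  rw [e1] at h6
  rw [h6]
  simp only [Equiv.Perm.coe_mul, Function.comp_apply, Equiv.coe_addRight]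
  have e2 : a (y + ee n) - a x + ee n = a (y + ee n) + ee n - a x := by ring
  rw [e2]

/-- Consequence of type II. -/
theorem pair_eq (c : Ctx43 S) (a : Equiv.Perm (ZMod n)) (h1 : ∀ z, a z - z ∈ c.c.J)
    (h2 : ∀ x y, y - x ∈ BB S → a y - y = a x - x)
    (h3 : ∀ x y, a y - a x ∈ BB S → y - x ∈ BB S) (h4 : ∀ z, a z - z ∈ ev n) (z : ZMod n) :
    a (z + ee n) = a z + ee n := by
  have hee := c.c.hee
  have hev : ee n ∈ ev n := ee_mem_ev c.c.h4
  have h5 := c.c.hII _ _ (c.pair a h1 h2 h3) h4 (by
    intro x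
    simp only [Equiv.Perm.coe_mul, Function.comp_apply, Equiv.coe_addRight]
    have := add_mem (add_mem (h4 (x + ee n)) hev) hev
    have e : a (x + ee n) - (x + ee n) + ee n + ee n = a (x + ee n) + ee n - x := by ring
    rwa [e] at this)
  have h6 := congrArg (fun p : Equiv.Perm (ZMod n) => p (z + ee n)) h5
  simp only [Equiv.Perm.coe_mul, Function.comp_apply, Equiv.coe_addRight] at h6
  rw [add_assoc z, hee, add_zero] at h6
  exact h6

theorem R_bot (c : Ctx43 S) {r : ZMod n} (hrJ : r ∈ c.c.J) (hrB : r ∈ BB S) : r = 0 := by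
  have hiff : ∀ x, x ∈ BB S ↔ x + r ∈ BB S := fun x =>
    ⟨fun h => add_mem h hrB, fun h => by simpa using sub_mem h hrB⟩
  have hiff' : ∀ x, x ∈ BB S ↔ x - r ∈ BB S := fun x =>
    ⟨fun h => sub_mem h hrB, fun h => by simpa using add_mem h hrB⟩
  let a : Equiv.Perm (ZMod n) :=
    ⟨fun x => if x ∈ BB S then x + r else x, fun x => if x ∈ BB S then x - r else x,
      (by
        intro x
        dsimp only
        by_cases hx : x ∈ BB S
        · rw [if_pos hx, if_pos ((hiff x).1 hx)]; ring
        · rw [if_neg hx, if_neg hx]),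
      (by
        intro x
        dsimp only
        by_cases hx : x ∈ BB S
        · rw [if_pos hx, if_pos ((hiff' x).1 hx)]; ring
        · rw [if_neg hx, if_neg hx])⟩
  have ha : ∀ x, a x = if x ∈ BB S then x + r else x := fun x => rfl
  have hd : ∀ x, a x - x = if x ∈ BB S then r else 0 := by
    intro x
    rw [ha]; split_ifs <;> ring
  have hdB : ∀ x, a x - x ∈ BB S := by
    intro x
    rw [hd]; split_ifs
    · exact hrB
    · exact zero_mem _
  have h := c.pair_eq a (fun z => by
    rw [hd]; split_ifs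
    · exact hrJ
    · exact zero_mem _) (fun x y hxy => by
    rw [hd, hd]
    have : y ∈ BB S ↔ x ∈ BB S := by
      constructor
      · intro h
        have := sub_mem h hxy
        have e : y - (y - x) = x := by ring
        rwa [e] at this
      · intro h
        have := add_mem h hxy
        have e : x + (y - x) = y := by ring
        rwa [e] at this
    simp only [this]) (fun x y hxy => by
    have := sub_mem (add_mem hxy (hdB x)) (hdB y)
    have e : a y - a x + (a x - x) - (a y - y) = y - x := by ring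
    rwa [e] at this) (fun z => BB_le (hdB z)) 0
  rw [ha, ha, zero_add, if_neg c.c.he, if_pos (zero_mem _), zero_add] at h
  exact right_eq_add.1 h

/-- Case (iii) is impossible for `8 ∣ n`. -/
theorem false_of (c : Ctx43 S) (h8 : 8 ∣ n) : False := by
  have h2n := c.c.h2n
  have hee := c.c.hee
  have heJ : ee n ∈ c.c.J := c.c.t.f_mem_J
  -- an odd element of `J`
  obtain ⟨d, hd, hde⟩ := exists_odd c.c.t.inv_J (fun h => c.c.he (h heJ))
  -- `j₀ = n / 4`
  obtain ⟨j, hjj, hjev⟩ : ∃ j : ZMod n, j + j = ee n ∧ j ∈ ev n := by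
    obtain ⟨k, hk⟩ := h8
    refine ⟨((2 * k : ℕ) : ZMod n), ?_, ⟨(k : ZMod n), ?_⟩⟩
    · unfold ee
      rw [← Nat.cast_add]
      congr 1
      omega
    · rw [← Nat.cast_add]
      congr 1
      omega
  have hjJ : j ∈ c.c.J := half_mem h2n hde hd (by rw [hjj]; exact heJ)
  have hj0 : j ≠ 0 := by
    rintro rfl
    rw [add_zero] at hjj
    exact ee_ne h2n hjj.symm
  have hje : j ≠ ee n := by
    rintro rfl
    rw [hee] at hjj
    exact ee_ne h2n hjj.symm
  have hjB : j ∉ BB S := fun h => hj0 (c.R_bot hjJ h)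
  have hdisj : ∀ x, x ∈ BB S → x - j ∉ BB S := by
    intro x hx h
    apply hjB
    have := sub_mem hx h
    have e : x - (x - j) = j := by ring
    rwa [e] at this
  -- the swap
  have hinv : Function.Involutive fun x : ZMod n =>
      if x ∈ BB S then x + j else if x - j ∈ BB S then x - j else x := by
    intro x
    dsimp only
    by_cases hx : x ∈ BB S
    · rw [if_pos hx]
      have h1 : x + j ∉ BB S := by
        intro h
        apply hjB
        simpa using sub_mem h hx
      have h2 : x + j - j ∈ BB S := by simpa using hx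
      rw [if_neg h1, if_pos h2]; ring
    · rw [if_neg hx]
      by_cases hxj : x - j ∈ BB S
      · rw [if_pos hxj, if_pos hxj]; ring
      · rw [if_neg hxj, if_neg hx, if_neg hxj]
  obtain ⟨a, ha, haa⟩ : ∃ a : Equiv.Perm (ZMod n), (∀ x, a x = if x ∈ BB S then x + j
      else if x - j ∈ BB S then x - j else x) ∧ ∀ x, a (a x) = x :=
    ⟨hinv.toPerm, fun x => rfl, fun x => hinv x⟩
  have hd : ∀ x, a x - x = if x ∈ BB S then j else if x - j ∈ BB S then -j else 0 := by
    intro x
    rw [ha]; split_ifs <;> ring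
  have hmem : ∀ K : AddSubgroup (ZMod n), j ∈ K → ∀ x, a x - x ∈ K := by
    intro K hK x
    rw [hd]; split_ifs
    · exact hK
    · exact neg_mem hK
    · exact zero_mem _
  have hcong : ∀ x y, y - x ∈ BB S → a y - y = a x - x := by
    intro x y hxy
    rw [hd, hd]
    have h1 : y ∈ BB S ↔ x ∈ BB S := by
      constructor
      · intro h
        have := sub_mem h hxy
        have e : y - (y - x) = x := by ring
        rwa [e] at this
      · intro h
        have := add_mem h hxy
        have e : x + (y - x) = y := by ring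
        rwa [e] at this
    have h2 : y - j ∈ BB S ↔ x - j ∈ BB S := by
      constructor
      · intro h
        have := sub_mem h hxy
        have e : y - j - (y - x) = x - j := by ring
        rwa [e] at this
      · intro h
        have := add_mem h hxy
        have e : x - j + (y - x) = y - j := by ring
        rwa [e] at this
    simp only [h1, h2]
  have h := c.pair_eq a (hmem _ hjJ) hcong (fun x y hxy => by
    have h1 := hcong _ _ hxy
    rw [haa, haa] at h1
    have e : y - x = a y - a x := by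
      have : y - x = (y - a y) - (x - a x) + (a y - a x) := by ring
      rw [this, h1]; ring
    rw [e]; exact hxy) (hmem _ hjev) 0
  have h5 : ee n - j ∉ BB S := by
    intro h'
    have := c.R_bot (sub_mem heJ hjJ) h'
    exact hje (sub_eq_zero.1 this).symm
  rw [ha, ha, zero_add, if_neg c.c.he, if_neg h5, if_pos (zero_mem _), zero_add] at h
  exact hj0 (right_eq_add.1 h)

end Ctx43

end Pool.Agent.Lib.MP_d9b9c4_co.Circ
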