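import Pool.Agent.Lib.MP_d9b9c4_co.Basic

/-!
# Subgroups of `ZMod n`, the even subgroup, and Schur's argument for `p = 2`
-/

set_option autoImplicit false
set_option linter.unusedSectionVars false

open scoped Classical

namespace Pool.Agent.Lib.MP_d9b9c4_co.Circ

variable {n : ℕ} [NeZero n] {S : Set (ZMod n)}

/-! ### Cyclicity -/

/-- `G/K` has at most one involution. -/
theorem coset_two (K : AddSubgroup (ZMod n)) {f w : ZMod n} (hf : f ∉ K) (hff : f + f ∈ K)
    (hw : w + w ∈ K) : w ∈ K ∨ w - f ∈ K := by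
  have : IsAddCyclic (ZMod n ⧸ K) :=
    isAddCyclic_of_surjective (QuotientAddGroup.mk' K) (QuotientAddGroup.mk'_surjective K)
  have hcard := IsAddCyclic.card_nsmul_eq_zero_le (α := ZMod n ⧸ K) (n := 2) (by norm_num)
  by_contra hcon
  push Not at hcon
  obtain ⟨h1, h2⟩ := hcon
  have hm : ∀ z : ZMod n, z + z ∈ K → (2 : ℕ) • (QuotientAddGroup.mk z : ZMod n ⧸ K) = 0 := by
    intro z hz
    rw [two_nsmul, ← QuotientAddGroup.mk_add, QuotientAddGroup.eq_zero_iff]
    exact hz
  have hsub : ({(QuotientAddGroup.mk (0 : ZMod n)), (QuotientAddGroup.mk f),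
      (QuotientAddGroup.mk w)} : Finset (ZMod n ⧸ K)) ⊆
      Finset.univ.filter fun q : ZMod n ⧸ K => 2 • q = 0 := by
    intro q hq
    simp only [Finset.mem_insert, Finset.mem_singleton] at hq
    simp only [Finset.mem_filter, Finset.mem_univ, true_and]
    rcases hq with rfl | rfl | rfl
    · simp
    · exact hm f hff
    · exact hm w hw
  have h3 : ({(QuotientAddGroup.mk (0 : ZMod n)), (QuotientAddGroup.mk f),
      (QuotientAddGroup.mk w)} : Finset (ZMod n ⧸ K)).card = 3 := by
    rw [Finset.card_eq_three]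
    refine ⟨_, _, _, ?_, ?_, ?_, rfl⟩
    · intro h
      rw [QuotientAddGroup.eq] at h
      exact hf (by simpa using h)
    · intro h
      rw [QuotientAddGroup.eq] at h
      exact h1 (by simpa using h)
    · intro h
      rw [QuotientAddGroup.eq] at h
      exact h2 (by rw [sub_eq_neg_add]; exact h)
  have := Finset.card_le_card hsub
  omega

/-- Subgroups of `ZMod n` of the same order are equal. -/
theorem sub_eq_of_card (H K : AddSubgroup (ZMod n)) (h : Nat.card H = Nat.card K) : H = K := by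
  have key : ∀ H : AddSubgroup (ZMod n), (H : Set (ZMod n)).toFinset =
      Finset.univ.filter fun x : ZMod n => Nat.card H • x = 0 := by
    intro H
    apply Finset.eq_of_subset_of_card_le
    · intro x hx
      simp only [Set.mem_toFinset, SetLike.mem_coe] at hx
      simp only [Finset.mem_filter, Finset.mem_univ, true_and]
      have := card_nsmul_eq_zero' (G := H) (x := ⟨x, hx⟩)
      exact congrArg Subtype.val this
    · have h1 := IsAddCyclic.card_nsmul_eq_zero_le (α := ZMod n) (n := Nat.card H)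
        Nat.card_pos
      refine h1.trans ?_
      rw [Set.toFinset_card, Nat.card_eq_fintype_card]
      exact le_of_eq rfl
  have h2 := key H
  rw [h, ← key K] at h2
  have h3 := congrArg (fun s : Finset (ZMod n) => (s : Set (ZMod n))) h2
  simpa using h3

/-! ### The even subgroup -/

/-- The subgroup `2G`. -/
def ev (n : ℕ) : AddSubgroup (ZMod n) where
  carrier := {x | ∃ y, x = y + y}
  zero_mem' := ⟨0, by simp⟩
  add_mem' := by
    rintro _ _ ⟨y, rfl⟩ ⟨z, rfl⟩
    exact ⟨y + z, by ring⟩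
  neg_mem' := by
    rintro _ ⟨y, rfl⟩
    exact ⟨-y, by ring⟩

theorem mem_ev {x : ZMod n} : x ∈ ev n ↔ ∃ y, x = y + y := Iff.rfl

theorem add_self_mem_ev (y : ZMod n) : y + y ∈ ev n := ⟨y, rfl⟩

theorem mem_ev_iff (h : 2 ∣ n) {x : ZMod n} : x ∈ ev n ↔ ZMod.castHom h (ZMod 2) x = 0 := by
  constructor
  · rintro ⟨y, rfl⟩
    rw [map_add]
    exact CharTwo.add_self_eq_zero _
  · intro hx
    rw [ZMod.castHom_apply, ZMod.cast_eq_val, ZMod.natCast_eq_zero_iff] at hx
    obtain ⟨k, hk⟩ := hx
    refine ⟨(k : ZMod n), ?_⟩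
    rw [← Nat.cast_add, ← two_mul, ← hk, ZMod.natCast_zmod_val]

theorem odd_add_odd (h : 2 ∣ n) {x y : ZMod n} (hx : x ∉ ev n) (hy : y ∉ ev n) :
    x + y ∈ ev n := by
  rw [mem_ev_iff h] at *
  rw [map_add]
  have : ∀ a b : ZMod 2, a ≠ 0 → b ≠ 0 → a + b = 0 := by decide
  exact this _ _ hx hy

theorem odd_sub_odd (h : 2 ∣ n) {x y : ZMod n} (hx : x ∉ ev n) (hy : y ∉ ev n) :
    x - y ∈ ev n := by
  rw [sub_eq_add_neg]
  exact odd_add_odd h hx (fun h' => hy (by simpa using neg_mem h'))

theorem odd_add_ev {x y : ZMod n} (hx : x ∉ ev n) (hy : y ∈ ev n) :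
    x + y ∉ ev n := fun h => hx (by simpa using sub_mem h hy)

theorem one_notMem_ev (h : 2 ∣ n) : (1 : ZMod n) ∉ ev n := by
  rw [mem_ev_iff h, map_one]
  decide

theorem nsmul_odd (h : 2 ∣ n) {x : ZMod n} (hx : x ∉ ev n) {k : ℕ} (hk : Odd k) :
    k • x ∉ ev n := by
  obtain ⟨j, rfl⟩ := hk
  intro hh
  apply hx
  have e : (2 * j + 1) • x = j • (x + x) + x := by
    rw [add_smul, one_smul, mul_comm, mul_smul, two_smul]
  rw [e] at hh
  have := sub_mem hh (AddSubgroup.nsmul_mem _ (add_self_mem_ev x) j)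
  simpa using this

/-- The involution `n/2`. -/
def ee (n : ℕ) : ZMod n := ((n / 2 : ℕ) : ZMod n)

theorem ee_add_ee (h : 2 ∣ n) : ee n + ee n = 0 := by
  unfold ee
  rw [← Nat.cast_add, ← two_mul, Nat.mul_div_cancel' h, ZMod.natCast_self]

theorem ee_ne (h : 2 ∣ n) : ee n ≠ 0 := by
  unfold ee
  intro h0
  rw [ZMod.natCast_eq_zero_iff] at h0
  have hn : 0 < n := Nat.pos_of_ne_zero (NeZero.ne n)
  have := Nat.le_of_dvd (by omega) h0
  omega

theorem neg_ee (h : 2 ∣ n) : -ee n = ee n := neg_eq_of_add_eq_zero_left (ee_add_ee h)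

theorem two_tor (h : 2 ∣ n) {x : ZMod n} (hx : x + x = 0) : x = 0 ∨ x = ee n := by
  have := coset_two (⊥ : AddSubgroup (ZMod n)) (f := ee n) (w := x)
    (by simpa using ee_ne h) (by simpa using ee_add_ee h) (by simpa using hx)
  simpa [sub_eq_zero] using this

theorem ee_mem_ev (h : 4 ∣ n) : ee n ∈ ev n := by
  obtain ⟨k, rfl⟩ := h
  refine ⟨(k : ZMod (4 * k)), ?_⟩
  unfold ee
  rw [← Nat.cast_add]
  congr 1
  omega

/-- A subgroup containing an odd element contains `e`. -/
theorem ee_mem_of_odd (h : 2 ∣ n) {K : AddSubgroup (ZMod n)} {d : ZMod n} (hd : d ∉ ev n)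
    (hdK : d ∈ K) : ee n ∈ K := by
  have e : (n / 2) • d = ee n := by
    have hdd : (n / 2) • d + (n / 2) • d = 0 := by
      rw [← two_nsmul, ← mul_nsmul', Nat.mul_div_cancel' h]
      simp
    rcases two_tor h hdd with h0 | h0
    · exfalso
      have hv : d = ((d.val : ℕ) : ZMod n) := (ZMod.natCast_zmod_val d).symm
      rw [hv, nsmul_eq_mul, ← Nat.cast_mul, ZMod.natCast_eq_zero_iff] at h0
      obtain ⟨k, hk⟩ := h0
      apply hd
      rw [mem_ev_iff h, ZMod.castHom_apply, ZMod.cast_eq_val, ZMod.natCast_eq_zero_iff]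
      refine ⟨k, ?_⟩
      have hn : 0 < n := Nat.pos_of_ne_zero (NeZero.ne n)
      obtain ⟨m, hm⟩ := h
      have hm' : n / 2 = m := by omega
      rw [hm'] at hk
      have hmpos : 0 < m := by omega
      have : m * d.val = m * (2 * k) := by
        rw [hk, hm]; ring
      exact Nat.eq_of_mul_eq_mul_left hmpos this
    · exact h0
  rw [← e]
  exact AddSubgroup.nsmul_mem _ hdK _

/-- If `K` contains an odd element, then `2w ∈ K` implies `w ∈ K`. -/
theorem half_mem (h : 2 ∣ n) {K : AddSubgroup (ZMod n)} {d : ZMod n} (hd : d ∉ ev n)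
    (hdK : d ∈ K) {w : ZMod n} (hw : w + w ∈ K) : w ∈ K := by
  by_contra hcon
  -- `e + K` is not the obstruction: use the quotient by `K`
  -- all of `K` is even, contradiction
  apply hd
  -- order of `K`
  have hcard : (Nat.card K) • d = 0 := by
    have := card_nsmul_eq_zero' (G := K) (x := ⟨d, hdK⟩)
    exact congrArg Subtype.val this
  -- the index of `K` is even
  have hind : 2 ∣ K.index := by
    rw [AddSubgroup.index]
    have hord : addOrderOf (QuotientAddGroup.mk w : ZMod n ⧸ K) = 2 := by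
      apply addOrderOf_eq_prime
      · rw [two_nsmul, ← QuotientAddGroup.mk_add, QuotientAddGroup.eq_zero_iff]
        exact hw
      · rw [Ne, QuotientAddGroup.eq_zero_iff]
        exact hcon
    rw [← hord]
    exact addOrderOf_dvd_natCard _
  have hmul : Nat.card K * K.index = n := by
    rw [AddSubgroup.card_mul_index, Nat.card_zmod]
  obtain ⟨j, hj⟩ := hind
  have hv : d = ((d.val : ℕ) : ZMod n) := (ZMod.natCast_zmod_val d).symm
  rw [hv, nsmul_eq_mul, ← Nat.cast_mul, ZMod.natCast_eq_zero_iff] at hcard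
  obtain ⟨k, hk⟩ := hcard
  rw [mem_ev_iff h, ZMod.castHom_apply, ZMod.cast_eq_val, ZMod.natCast_eq_zero_iff]
  refine ⟨j * k, ?_⟩
  have hpos : 0 < Nat.card K := Nat.card_pos
  apply Nat.eq_of_mul_eq_mul_left hpos
  have e1 : n * k = Nat.card K * (2 * j) * k := by
    rw [← hj]; exact congrArg (· * k) hmul.symm
  rw [hk, e1]
  ring

/-- Doubling argument: elements of 2-power order. -/
theorem two_pow_mem {K B : AddSubgroup (ZMod n)} (hK : ∀ v ∈ B, v + v ∈ K → v ∈ K) :
    ∀ (j : ℕ) (u : ZMod n), u ∈ B → 2 ^ j • u = 0 → u ∈ K := by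
  intro j
  induction j with
  | zero =>
    intro u _ h0
    have : u = 0 := by simpa using h0
    rw [this]; exact zero_mem _
  | succ j ih =>
    intro u hu h0
    apply hK u hu
    apply ih (u + u) (add_mem hu hu)
    rw [← two_nsmul, ← mul_nsmul', ← pow_succ]
    exact h0

/-! ### Schur's argument -/

theorem card_parity {α : Type*} [Fintype α] [DecidableEq α] (A : Finset α) (ι : α → α)
    (hι : ∀ x ∈ A, ι x ∈ A) (hι2 : ∀ x, ι (ι x) = x) :
    (A.card : ZMod 2) = ((A.filter fun x => ι x = x).card : ZMod 2) := by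
  have h1 : (A.card : ZMod 2) = ∑ x ∈ A, (1 : ZMod 2) := by simp
  rw [h1, ← Finset.sum_filter_add_sum_filter_not A (fun x => ι x = x)]
  have h2 : ∑ x ∈ A.filter (fun x => ¬ ι x = x), (1 : ZMod 2) = 0 := by
    refine Finset.sum_involution (fun x _ => ι x) ?_ ?_ ?_ ?_
    · intro x _; exact CharTwo.add_self_eq_zero _
    · intro x hx _
      simp only [Finset.mem_filter] at hx
      exact hx.2
    · intro x hx
      simp only [Finset.mem_filter] at hx ⊢
      refine ⟨hι x hx.1, ?_⟩
      rw [hι2]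
      exact fun h => hx.2 h.symm
    · intro x _; exact hι2 x
  rw [h2]
  simp

/-- The counting function `cp` on the quotient by a subgroup of the radical. -/
theorem cp_quot {X : Set (ZMod n)} {K : AddSubgroup (ZMod n)} (hK : K ≤ rad X) (g : ZMod n) :
    cp X g = Nat.card K * (Finset.univ.filter fun q : ZMod n ⧸ K =>
      (∃ x ∈ X, (QuotientAddGroup.mk x : ZMod n ⧸ K) = q) ∧
      (∃ x ∈ X, (QuotientAddGroup.mk x : ZMod n ⧸ K) = QuotientAddGroup.mk g - q)).card := by
  have hmem : ∀ x : ZMod n, (∃ y ∈ X, (QuotientAddGroup.mk y : ZMod n ⧸ K) =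
      QuotientAddGroup.mk x) ↔ x ∈ X := by
    intro x
    constructor
    · rintro ⟨y, hy, he⟩
      rw [QuotientAddGroup.eq] at he
      have := (hK he y).1 hy
      simpa using this
    · intro hx; exact ⟨x, hx, rfl⟩
  unfold cp
  rw [Finset.card_eq_sum_card_fiberwise (f := fun z => (QuotientAddGroup.mk z : ZMod n ⧸ K))
    (t := Finset.univ.filter fun q : ZMod n ⧸ K =>
      (∃ x ∈ X, (QuotientAddGroup.mk x : ZMod n ⧸ K) = q) ∧
      (∃ x ∈ X, (QuotientAddGroup.mk x : ZMod n ⧸ K) = QuotientAddGroup.mk g - q))]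
  · rw [Finset.sum_const_nat (m := Nat.card K), mul_comm]
    intro q hq
    obtain ⟨w, rfl⟩ := QuotientAddGroup.mk_surjective q
    simp only [Finset.mem_filter, Finset.mem_univ, true_and] at hq
    rw [← QuotientAddGroup.mk_sub, hmem, hmem] at hq
    rw [Nat.card_eq_fintype_card, ← Finset.card_univ]
    symm
    refine Finset.card_bij (fun k _ => w + (k : ZMod n)) ?_ ?_ ?_
    · rintro ⟨k, hk⟩ _
      simp only [Finset.mem_filter, Finset.mem_univ, true_and]
      refine ⟨⟨(hK hk w).1 hq.1, ?_⟩, ?_⟩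
      · have := (hK (neg_mem hk) (g - w)).1 hq.2
        have e : g - (w + k) = g - w + -k := by ring
        rw [e]; exact this
      · rw [QuotientAddGroup.eq]
        simpa using hk
    · rintro ⟨k, hk⟩ _ ⟨k', hk'⟩ _ he
      simpa using he
    · intro z hz
      simp only [Finset.mem_filter, Finset.mem_univ, true_and] at hz
      have := hz.2
      rw [eq_comm, QuotientAddGroup.eq] at this
      exact ⟨⟨-w + z, this⟩, Finset.mem_univ _, by simp⟩
  · intro z hz
    simp only [Finset.coe_filter, Finset.mem_univ, true_and, Set.mem_ofPred_eq] at hz ⊢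
    refine ⟨⟨z, hz.1, rfl⟩, ⟨g - z, hz.2, ?_⟩⟩
    rw [QuotientAddGroup.mk_sub]

/-- **Schur's argument for `p = 2`.** -/
theorem schur (h2n : 2 ∣ n) (hS : Sym S) {i : Bool} {X : Set (ZMod n)} (hX : IsInv S i X)
    {K : AddSubgroup (ZMod n)} (hKe : K ≤ ev n) (hK : K ≤ rad X) {f x : ZMod n}
    (hf : f ∉ K) (hff : f + f ∈ K) (hx : x ∈ X) (hxf : x + f ∉ X) :
    ∃ Y : Set (ZMod n), IsInv S false Y ∧ Y ⊆ ev n ∧ x + x ∈ Y := by
  have hpos : 0 < Nat.card K := Nat.card_pos
  have hmem : ∀ x : ZMod n, (∃ y ∈ X, (QuotientAddGroup.mk y : ZMod n ⧸ K) =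
      QuotientAddGroup.mk x) ↔ x ∈ X := by
    intro x
    constructor
    · rintro ⟨y, hy, he⟩
      rw [QuotientAddGroup.eq] at he
      have := (hK he y).1 hy
      simpa using this
    · intro hx; exact ⟨x, hx, rfl⟩
  refine ⟨{g | Odd (cp X g / Nat.card K)}, isInv_cp hS hX (fun k => Odd (k / Nat.card K)),
    ?_, ?_⟩
  · intro g hg
    change Odd (cp X g / Nat.card K) at hg
    rw [cp_quot hK, Nat.mul_div_cancel_left _ hpos] at hg
    have hpar := card_parity (Finset.univ.filter fun q : ZMod n ⧸ K =>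
      (∃ x ∈ X, (QuotientAddGroup.mk x : ZMod n ⧸ K) = q) ∧
      (∃ x ∈ X, (QuotientAddGroup.mk x : ZMod n ⧸ K) = QuotientAddGroup.mk g - q))
      (fun q => QuotientAddGroup.mk g - q) (by
        intro q hq
        simp only [Finset.mem_filter, Finset.mem_univ, true_and, sub_sub_cancel] at hq ⊢
        exact ⟨hq.2, hq.1⟩) (by intro q; simp)
    rw [(ZMod.natCast_eq_one_iff_odd).2 hg] at hpar
    have hne : ((Finset.univ.filter fun q : ZMod n ⧸ K =>
      (∃ x ∈ X, (QuotientAddGroup.mk x : ZMod n ⧸ K) = q) ∧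
      (∃ x ∈ X, (QuotientAddGroup.mk x : ZMod n ⧸ K) = QuotientAddGroup.mk g - q)).filter
        fun q => QuotientAddGroup.mk g - q = q).Nonempty := by
      rw [Finset.nonempty_iff_ne_empty]
      intro h0
      rw [h0] at hpar
      simp at hpar
    obtain ⟨q, hq⟩ := hne
    obtain ⟨w, rfl⟩ := QuotientAddGroup.mk_surjective q
    have h3 := (Finset.mem_filter.1 hq).2
    rw [← QuotientAddGroup.mk_sub, QuotientAddGroup.eq] at h3
    have h4 := hKe h3
    have h5 : g = (w + w) - (-(g - w) + w) := by ring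
    rw [SetLike.mem_coe, h5]
    exact sub_mem (add_self_mem_ev w) h4
  · change Odd (cp X (x + x) / Nat.card K)
    rw [cp_quot hK, Nat.mul_div_cancel_left _ hpos]
    have hpar := card_parity (Finset.univ.filter fun q : ZMod n ⧸ K =>
      (∃ x ∈ X, (QuotientAddGroup.mk x : ZMod n ⧸ K) = q) ∧
      (∃ y ∈ X, (QuotientAddGroup.mk y : ZMod n ⧸ K) = QuotientAddGroup.mk (x + x) - q))
      (fun q => QuotientAddGroup.mk (x + x) - q) (by
        intro q hq
        simp only [Finset.mem_filter, Finset.mem_univ, true_and, sub_sub_cancel] at hq ⊢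
        exact ⟨hq.2, hq.1⟩) (by intro q; simp)
    have hone : ((Finset.univ.filter fun q : ZMod n ⧸ K =>
      (∃ x ∈ X, (QuotientAddGroup.mk x : ZMod n ⧸ K) = q) ∧
      (∃ y ∈ X, (QuotientAddGroup.mk y : ZMod n ⧸ K) = QuotientAddGroup.mk (x + x) - q)).filter
        fun q => QuotientAddGroup.mk (x + x) - q = q) =
        {(QuotientAddGroup.mk x : ZMod n ⧸ K)} := by
      ext q
      obtain ⟨w, rfl⟩ := QuotientAddGroup.mk_surjective q
      simp only [Finset.mem_filter, Finset.mem_univ, true_and, Finset.mem_singleton]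
      rw [← QuotientAddGroup.mk_sub, hmem, hmem]
      constructor
      · rintro ⟨⟨hw, _⟩, he⟩
        rw [QuotientAddGroup.eq] at he
        have h5 : (w - x) + (w - x) ∈ K := by
          have e : (w - x) + (w - x) = -(x + x - w) + w := by ring
          rw [e]; exact he
        rcases coset_two K hf hff h5 with h6 | h6
        · rw [eq_comm, QuotientAddGroup.eq, ← sub_eq_neg_add]; exact h6
        · exfalso
          apply hxf
          have := (hK h6 (x + f)).2
          apply this
          have e : x + f + (w - x - f) = w := by ring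
          rw [e]; exact hw
      · intro he
        rw [eq_comm, QuotientAddGroup.eq] at he
        have hw : w ∈ X := by
          have := (hK he x).1 hx
          simpa using this
        refine ⟨⟨hw, ?_⟩, ?_⟩
        · have := (hK (neg_mem he) x).1 hx
          have e : x + x - w = x + -(-x + w) := by ring
          rw [e]; exact this
        · rw [QuotientAddGroup.eq]
          have e : -(x + x - w) + w = (-x + w) + (-x + w) := by ring
          rw [e]; exact add_mem he he
    rw [hone, Finset.card_singleton, Nat.cast_one] at hpar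
    exact (ZMod.natCast_eq_one_iff_odd).1 hpar

/-! ### The subgroup `B` -/

/-- The largest A-subgroup contained in `2G`. -/
def BB (S : Set (ZMod n)) : AddSubgroup (ZMod n) :=
  AddSubgroup.closure {x | ∃ Y : Set (ZMod n), IsInv S false Y ∧ Y ⊆ ev n ∧ x ∈ Y}

theorem isInv_BB : IsInv S false (BB S : Set (ZMod n)) := by
  apply IsInv.closure
  intro a b h x y
  constructor
  · rintro ⟨Y, hY, hYe, hm⟩
    exact ⟨Y, hY, hYe, (hY a b h x y).1 hm⟩
  · rintro ⟨Y, hY, hYe, hm⟩
    exact ⟨Y, hY, hYe, (hY a b h x y).2 hm⟩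

theorem BB_le : BB S ≤ ev n := by
  unfold BB
  rw [AddSubgroup.closure_le]
  rintro x ⟨Y, _, hYe, hm⟩
  exact hYe hm

theorem subset_BB {Y : Set (ZMod n)} (hY : IsInv S false Y) (hYe : Y ⊆ ev n) {x : ZMod n}
    (hx : x ∈ Y) : x ∈ BB S :=
  AddSubgroup.subset_closure ⟨Y, hY, hYe, hx⟩

theorem le_BB {K : AddSubgroup (ZMod n)} (hK : IsInv S false (K : Set (ZMod n)))
    (hKe : K ≤ ev n) : K ≤ BB S := fun _ hx => subset_BB hK hKe hx

/-- An A-subgroup not contained in `B` contains an odd element. -/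
theorem exists_odd {K : AddSubgroup (ZMod n)} (hK : IsInv S false (K : Set (ZMod n)))
    (h : ¬ K ≤ BB S) : ∃ d ∈ K, d ∉ ev n := by
  by_contra hcon
  push Not at hcon
  exact h (le_BB hK hcon)

theorem schurB (h2n : 2 ∣ n) (hS : Sym S) {i : Bool} {X : Set (ZMod n)} (hX : IsInv S i X)
    {K : AddSubgroup (ZMod n)} (hKe : K ≤ ev n) (hK : K ≤ rad X) {f x : ZMod n}
    (hf : f ∉ K) (hff : f + f ∈ K) (hx : x ∈ X) (hxf : x + f ∉ X) : x + x ∈ BB S := by
  obtain ⟨Y, hY, hYe, hm⟩ := schur h2n hS hX hKe hK hf hff hx hxf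
  exact subset_BB hY hYe hm

end Pool.Agent.Lib.MP_d9b9c4_co.Circ
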