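import Pool.Agent.Lib.MP_d9b9c4_co.Step2

/-!
# The tensor lemma
-/

set_option autoImplicit false
set_option linter.unusedSectionVars false
set_option linter.unusedVariables false

open scoped Classical

namespace Pool.Agent.Lib.MP_d9b9c4_co.Circ

variable {n : ℕ} [NeZero n] {S : Set (ZMod n)} {f : ZMod n}

/-- Assumptions of the tensor lemma. -/
structure TLCtx (S : Set (ZMod n)) (f : ZMod n) (K : AddSubgroup (ZMod n)) : Prop where
  c : Ctx S f
  hK : IsInv S false (K : Set (ZMod n))
  hKB : K ≤ BB S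
  hff : f + f ∈ K
  hq : ∃ h ∈ B1 S f, h ∉ BB S ∧ h - f ∉ BB S

/-- `X_f = O(f) + K` -/
def Xf (S : Set (ZMod n)) (f : ZMod n) (K : AddSubgroup (ZMod n)) : Set (ZMod n) :=
  addSet (orb0 S f) (K : Set (ZMod n))

theorem f_mem_Xf {K : AddSubgroup (ZMod n)} : f ∈ Xf S f K :=
  ⟨f, self_mem_orb0 f, by simp⟩

theorem orb_sub_Xf {K : AddSubgroup (ZMod n)} : orb0 S f ⊆ Xf S f K := fun w hw =>
  ⟨w, hw, by simp⟩

theorem K_le_rad_Xf {K : AddSubgroup (ZMod n)} : K ≤ rad (Xf S f K) := BB_le_rad_addSet _ _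

theorem nk_BB_add {X : Set (ZMod n)} {x y : ZMod n} (h : x - y ∈ BB S) :
    nk X (BB S : Set (ZMod n)) x = nk X (BB S : Set (ZMod n)) y := by
  unfold nk
  congr 1
  ext z
  simp only [Finset.mem_filter, Finset.mem_univ, true_and, SetLike.mem_coe]
  refine and_congr_right fun _ => ?_
  constructor
  · intro h'
    have := add_mem h' h
    have e : z - x + (x - y) = z - y := by ring
    rwa [e] at this
  · intro h'
    have := sub_mem h' h
    have e : z - y - (x - y) = z - x := by ring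
    rwa [e] at this

namespace TLCtx

variable {K : AddSubgroup (ZMod n)}

theorem inv_Xf (t : TLCtx S f K) : IsInv S false (Xf S f K) :=
  IsInv.addSet t.c.hS (isInv_orb0 f) t.hK

theorem Xf_sub (t : TLCtx S f K) {x : ZMod n} (hx : x ∈ Xf S f K) :
    x ∈ B1 S f ∧ x ∉ BB S := by
  obtain ⟨w, hw, hxw⟩ := hx
  have hxw' := t.hKB hxw
  constructor
  · have := add_mem (orb_sub_B1 f hw) (BB_le_B1 f hxw')
    simpa using this
  · intro hxB
    apply t.c.orb_notMem hw
    have := sub_mem hxB hxw'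
    simpa using this

theorem nk_eq_f (t : TLCtx S f K) {X : Set (ZMod n)} (hX : IsInv S false X) {g : ZMod n}
    (hg : g ∈ B1 S f) (hgB : g ∉ BB S) :
    nk X (BB S : Set (ZMod n)) g = nk X (BB S : Set (ZMod n)) f := by
  obtain ⟨w, hw, hgw⟩ := t.c.mem_B1 hg hgB
  have h1 : nk X (BB S : Set (ZMod n)) w = nk X (BB S : Set (ZMod n)) f :=
    orb0_subset (isInv_nk t.c.hS hX isInv_BB (fun k => k = nk X (BB S : Set (ZMod n)) f))
      (x := f) rfl hw
  rw [← h1]
  exact nk_BB_add hgw

/-- (*) -/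
theorem star (t : TLCtx S f K) {X : Set (ZMod n)} (hX : IsInv S false X) (hKX : K ≤ rad X)
    (hXs : ∀ x ∈ X, x ∈ B1 S f ∧ x ∉ BB S) {x g : ZMod n} (hx : x ∈ X) (hg : g ∈ Xf S f K)
    (hxg : x + g ∉ BB S) : x + g ∈ X := by
  have hgB := t.Xf_sub hg
  -- `cm X g = cm X f`
  have hcm : cm X g = cm X f := by
    obtain ⟨w, hw, hgw⟩ := hg
    have h1 : cm X w = cm X f :=
      orb0_subset (isInv_cm hX (fun k => k = cm X f)) (x := f) rfl hw
    rw [← h1]
    unfold cm
    congr 1
    ext z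
    simp only [Finset.mem_filter, Finset.mem_univ, true_and]
    refine and_congr_right fun _ => ?_
    have := hKX hgw (z + w)
    have e : z + w + (g - w) = z + g := by ring
    rw [e] at this
    exact this.symm
  have hsplit : ∀ g, cm X g + (Finset.univ.filter fun z => z ∈ X ∧ z + g ∉ X).card = num X := by
    intro g
    unfold cm num
    rw [← Finset.card_union_of_disjoint]
    · congr 1
      ext z
      simp only [Finset.mem_union, Finset.mem_filter, Finset.mem_univ, true_and]
      tauto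
    · rw [Finset.disjoint_left]
      intro z
      simp only [Finset.mem_filter, Finset.mem_univ, true_and]
      tauto
  have hf1 : (Finset.univ.filter fun z => z ∈ X ∧ z + f ∉ X).card =
      nk X (BB S : Set (ZMod n)) f := by
    unfold nk
    congr 1
    ext z
    simp only [Finset.mem_filter, Finset.mem_univ, true_and, SetLike.mem_coe]
    refine and_congr_right fun hz => ?_
    constructor
    · intro hzf
      rcases t.c.P hX t.hKB hKX t.hff hz hzf with h | h
      · exact absurd h (hXs z hz).2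
      · exact h
    · intro h hzf
      exact (hXs _ hzf).2 (t.c.sub_f_iff.1 h)
  have hT1 : (Finset.univ.filter fun z => z ∈ X ∧ z + g ∈ BB S).card =
      nk X (BB S : Set (ZMod n)) f := by
    rw [← t.nk_eq_f hX (neg_mem hgB.1) (fun h => hgB.2 (by simpa using neg_mem h))]
    unfold nk
    congr 1
    ext z
    simp
  have hsub : (Finset.univ.filter fun z => z ∈ X ∧ z + g ∈ BB S) ⊆
      Finset.univ.filter fun z => z ∈ X ∧ z + g ∉ X := by
    intro z
    simp only [Finset.mem_filter, Finset.mem_univ, true_and]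
    exact fun h => ⟨h.1, fun h' => (hXs _ h').2 h.2⟩
  have heq := Finset.eq_of_subset_of_card_le hsub (by
    have h1 := hsplit g
    have h2 := hsplit f
    rw [hT1]
    omega)
  by_contra hcon
  have hx' : x ∈ Finset.univ.filter fun z => z ∈ X ∧ z + g ∉ X := by
    simp only [Finset.mem_filter, Finset.mem_univ, true_and]
    exact ⟨hx, hcon⟩
  rw [← heq] at hx'
  simp only [Finset.mem_filter, Finset.mem_univ, true_and] at hx'
  exact hxg hx'.2

theorem neg_Xf (t : TLCtx S f K) {g : ZMod n} (hg : g ∈ Xf S f K) : -g ∈ Xf S f K := by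
  obtain ⟨w, ⟨a, b, h, h0, rfl⟩, hgw⟩ := hg
  have h1 : -f ∈ Xf S f K := ⟨f, self_mem_orb0 f, by
    have := neg_mem t.hff
    have e : -(f + f) = -f - f := by ring
    rw [e] at this
    exact this⟩
  have h2 := (t.inv_Xf.act0 (h.recen f) (by simp) (-f)).1 h1
  rw [recen_apply, neg_add_cancel, h0] at h2
  have h3 := (K_le_rad_Xf (neg_mem hgw) _).1 h2
  have e : 0 - a f + -(g - a f) = -g := by ring
  rwa [e] at h3

theorem exists_h (t : TLCtx S f K) : ∃ h ∈ Xf S f K, h - f ∉ BB S := by
  obtain ⟨h, h1, h2, h3⟩ := t.hq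
  obtain ⟨w, hw, hhw⟩ := t.c.mem_B1 h1 h2
  refine ⟨w, orb_sub_Xf hw, fun h' => h3 ?_⟩
  have := add_mem hhw h'
  simpa using this

/-- in any coset there is an element of `X_f` avoiding it -/
theorem exists_avoid (t : TLCtx S f K) (x : ZMod n) : ∃ g ∈ Xf S f K, x + g ∉ BB S := by
  by_cases h : x + f ∈ BB S
  · obtain ⟨g, hg, hgf⟩ := t.exists_h
    refine ⟨g, hg, fun h' => hgf ?_⟩
    have := sub_mem h' h
    have e : x + g - (x + f) = g - f := by ring
    rwa [e] at this
  · exact ⟨f, f_mem_Xf, h⟩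

theorem R_of (t : TLCtx S f K) {x g : ZMod n} (hx : x ∈ Xf S f K) (hg : g ∈ Xf S f K)
    (hxg : x + g ∈ BB S) : x + g ∈ rad (Xf S f K) := by
  have hst : ∀ {x g : ZMod n}, x ∈ Xf S f K → g ∈ Xf S f K → x + g ∉ BB S →
      x + g ∈ Xf S f K := fun hx hg hxg =>
    t.star t.inv_Xf K_le_rad_Xf (fun x hx => t.Xf_sub hx) hx hg hxg
  have hout : ∀ {y r : ZMod n}, y ∈ Xf S f K → r ∈ BB S → y + r ∉ BB S := by
    intro y r hy hr h
    apply (t.Xf_sub hy).2
    have := sub_mem h hr
    simpa using this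
  apply mem_rad_of
  intro y hy
  by_cases h1 : y + g ∉ BB S
  · have h2 := hst hy hg h1
    have h3 : y + g + x ∉ BB S := by
      have e : y + g + x = y + (x + g) := by ring
      rw [e]; exact hout hy hxg
    have h4 := hst h2 hx h3
    have e : y + g + x = y + (x + g) := by ring
    rwa [e] at h4
  by_cases h2 : y + x ∉ BB S
  · have h3 := hst hy hx h2
    have h4 : y + x + g ∉ BB S := by
      have e : y + x + g = y + (x + g) := by ring
      rw [e]; exact hout hy hxg
    have h5 := hst h3 hg h4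
    have e : y + x + g = y + (x + g) := by ring
    rwa [e] at h5
  push Not at h1 h2
  have hx2 : x + x ∈ BB S := by
    have := sub_mem (add_mem h2 hxg) h1
    have e : y + x + (x + g) - (y + g) = x + x := by ring
    rwa [e] at this
  have hxf : x - f ∈ BB S :=
    (coset_two _ t.c.f_notMem t.c.ff_mem hx2).resolve_left (t.Xf_sub hx).2
  have hyf : y - f ∈ BB S := by
    have := sub_mem h2 (t.c.sub_f_iff.1 hxf)
    have e : y + x - (x + f) = y - f := by ring
    rwa [e] at this
  have hgf : g - f ∈ BB S := by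
    have := sub_mem hxg (t.c.sub_f_iff.1 hxf)
    have e : x + g - (x + f) = g - f := by ring
    rwa [e] at this
  obtain ⟨h, hh, hhf⟩ := t.exists_h
  have h3 : y + -h ∉ BB S := fun h' => hhf (by
    have := sub_mem hyf h'
    have e : y - f - (y + -h) = h - f := by ring
    rwa [e] at this)
  have h4 := hst hy (t.neg_Xf hh) h3
  have h5 : y + -h + g ∉ BB S := fun h' => hhf (by
    have := sub_mem (add_mem (add_mem hyf (t.c.sub_f_iff.1 hgf)) (zero_mem _)) h'
    have e : y - f + (g + f) + 0 - (y + -h + g) = h := by ring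
    rw [e] at this
    exact absurd this (t.Xf_sub hh).2)
  have h6 := hst h4 hg h5
  have h7 : y + -h + g + x ∉ BB S := by
    have e : y + -h + g + x = y + -h + (x + g) := by ring
    rw [e]; exact hout h4 hxg
  have h8 := hst h6 hx h7
  have h9 : y + -h + g + x + h ∉ BB S := by
    have e : y + -h + g + x + h = y + (x + g) := by ring
    rw [e]; exact hout hy hxg
  have h10 := hst h8 hh h9
  have e : y + -h + g + x + h = y + (x + g) := by ring
  rwa [e] at h10

/-- The subgroup `J`. -/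
def J (t : TLCtx S f K) : AddSubgroup (ZMod n) where
  carrier := Xf S f K ∪ ((rad (Xf S f K) ⊓ BB S : AddSubgroup (ZMod n)) : Set (ZMod n))
  zero_mem' := Or.inr (zero_mem _)
  add_mem' := by
    rintro x y (hx | hx) (hy | hy)
    · by_cases h : x + y ∈ BB S
      · exact Or.inr ⟨t.R_of hx hy h, h⟩
      · exact Or.inl (t.star t.inv_Xf K_le_rad_Xf (fun x hx => t.Xf_sub hx) hx hy h)
    · exact Or.inl ((hy.1 x).1 hx)
    · left
      rw [add_comm]
      exact (hx.1 y).1 hy
    · exact Or.inr (add_mem hx hy)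
  neg_mem' := by
    rintro x (hx | hx)
    · exact Or.inl (t.neg_Xf hx)
    · exact Or.inr (neg_mem hx)

theorem mem_J (t : TLCtx S f K) {x : ZMod n} :
    x ∈ t.J ↔ x ∈ Xf S f K ∨ (x ∈ rad (Xf S f K) ∧ x ∈ BB S) := Iff.rfl

theorem inv_J (t : TLCtx S f K) : IsInv S false (t.J : Set (ZMod n)) :=
  t.inv_Xf.union ((isInv_rad t.inv_Xf).inter isInv_BB)

theorem f_mem_J (t : TLCtx S f K) : f ∈ t.J := Or.inl f_mem_Xf

theorem J_le_B1 (t : TLCtx S f K) : t.J ≤ B1 S f := by
  rintro x (hx | hx)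
  · exact (t.Xf_sub hx).1
  · exact BB_le_B1 f hx.2

/-- `J + B = B₁` -/
theorem J_add_B (t : TLCtx S f K) {x : ZMod n} (hx : x ∈ B1 S f) : ∃ j ∈ t.J, x - j ∈ BB S := by
  by_cases h : x ∈ BB S
  · exact ⟨0, zero_mem _, by simpa using h⟩
  · obtain ⟨w, hw, hxw⟩ := t.c.mem_B1 hx h
    exact ⟨w, Or.inl (orb_sub_Xf hw), hxw⟩

theorem J_le (t : TLCtx S f K) {L : AddSubgroup (ZMod n)} (hL : IsInv S false (L : Set (ZMod n)))
    (hf : f ∈ L) (hKL : K ≤ L) : t.J ≤ L := by
  have h1 : Xf S f K ⊆ L := by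
    rintro x ⟨w, hw, hxw⟩
    have := add_mem (orb0_subset hL hf hw) (hKL hxw)
    simpa using this
  rintro x (hx | hx)
  · exact h1 hx
  · have := sub_mem (h1 ((hx.1 f).1 f_mem_Xf)) hf
    simpa using this

/-- The exchange property. -/
theorem exch (t : TLCtx S f K) {X : Set (ZMod n)} (hX : IsInv S false X) (hKX : K ≤ rad X)
    (hXs : ∀ x ∈ X, x ∈ B1 S f ∧ x ∉ BB S) {x j : ZMod n} (hx : x ∈ X) (hj : j ∈ t.J)
    (hxj : x + j ∉ BB S) : x + j ∈ X := by
  rcases hj with hj | hj
  · exact t.star hX hKX hXs hx hj hxj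
  · obtain ⟨g, hg, hxg⟩ := t.exists_avoid x
    have h1 := t.star hX hKX hXs hx hg hxg
    have h2 : j + -g ∈ Xf S f K := by
      rw [add_comm]
      exact (hj.1 _).1 (t.neg_Xf hg)
    have e : x + g + (j + -g) = x + j := by ring
    have h3 := t.star hX hKX hXs h1 h2 (by rw [e]; exact hxj)
    rwa [e] at h3

end TLCtx

end Pool.Agent.Lib.MP_d9b9c4_co.Circ
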